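import Mathlib

set_option autoImplicit false

/-! The family `n = u (W²u - 1)(W²u + 1)`, `u = W⁴(v+1) - n₀`, of congruent numbers. -/

namespace Pool.Agent.V7H99.CD

/-- `n` is the area of a right triangle with rational sides -/
def Cong (n : ℕ) : Prop :=
  ∃ a b c : ℚ, 0 < a ∧ 0 < b ∧ 0 < c ∧ a ^ 2 + b ^ 2 = c ^ 2 ∧ (n : ℚ) = a * b / 2

def uu (W n0 v : ℕ) : ℕ := W ^ 4 * (v + 1) - n0

def nn (W n0 v : ℕ) : ℕ := uu W n0 v * (W ^ 2 * uu W n0 v - 1) * (W ^ 2 * uu W n0 v + 1)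

lemma uu_add {W n0 : ℕ} (h : n0 < W ^ 4) (v : ℕ) : uu W n0 v + n0 = W ^ 4 * (v + 1) := by
  unfold uu
  have : W ^ 4 * 1 ≤ W ^ 4 * (v + 1) := Nat.mul_le_mul_left _ (by omega)
  omega

lemma uu_pos {W n0 : ℕ} (h : n0 < W ^ 4) (v : ℕ) : 1 ≤ uu W n0 v := by
  have h1 := uu_add h v
  have : W ^ 4 * 1 ≤ W ^ 4 * (v + 1) := Nat.mul_le_mul_left _ (by omega)
  omega

lemma Wu_ge {W n0 : ℕ} (hW : 2 ≤ W) (h : n0 < W ^ 4) (v : ℕ) : 4 ≤ W ^ 2 * uu W n0 v := by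
  have h1 := uu_pos h v
  nlinarith [Nat.pow_le_pow_left hW 2]

lemma cong_area {s u : ℕ} (hs : 1 ≤ s) (hu : 2 ≤ s ^ 2 * u) :
    Cong (u * (s ^ 2 * u - 1) * (s ^ 2 * u + 1)) := by
  have hs0 : (0 : ℚ) < s := by exact_mod_cast hs
  have hu0 : (0 : ℚ) < u := by
    have : 0 < u := by
      rcases Nat.eq_zero_or_pos u with h | h
      · rw [h, mul_zero] at hu; omega
      · exact h
    exact_mod_cast this
  have h2 : (2 : ℚ) ≤ (s : ℚ) ^ 2 * u := by exact_mod_cast hu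
  refine ⟨2 * s * u, ((s : ℚ) ^ 4 * u ^ 2 - 1) / s, ((s : ℚ) ^ 4 * u ^ 2 + 1) / s, by positivity, ?_,
    by positivity, ?_, ?_⟩
  · apply div_pos _ hs0
    have : (s : ℚ) ^ 4 * u ^ 2 = ((s : ℚ) ^ 2 * u) ^ 2 := by ring
    rw [this]
    nlinarith
  · field_simp
    ring
  · have e : ((s ^ 2 * u - 1 : ℕ) : ℚ) = (s : ℚ) ^ 2 * u - 1 := by
      rw [Nat.cast_sub (by omega)]; push_cast; ring
    push_cast [e]
    field_simp
    ring

lemma nn_add {W n0 : ℕ} (hW : 2 ≤ W) (h : n0 < W ^ 4) (v : ℕ) :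
    nn W n0 v + uu W n0 v = W ^ 4 * uu W n0 v ^ 3 := by
  have h1 := Wu_ge hW h v
  unfold nn
  set u := uu W n0 v
  obtain ⟨t, ht⟩ : ∃ t, W ^ 2 * u = t + 1 := ⟨W ^ 2 * u - 1, by omega⟩
  rw [ht, Nat.add_sub_cancel]
  have : W ^ 4 * u ^ 3 = (W ^ 2 * u) ^ 2 * u := by ring
  rw [this, ht]
  ring

lemma nn_mod {W n0 : ℕ} (hW : 2 ≤ W) (h : n0 < W ^ 4) (v : ℕ) : nn W n0 v ≡ n0 [MOD W ^ 4] := by
  have h1 := nn_add hW h v
  have h2 := uu_add h v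
  have h3 : nn W n0 v + uu W n0 v ≡ n0 + uu W n0 v [MOD W ^ 4] := by
    rw [h1, add_comm n0, h2]
    exact (Nat.modEq_zero_iff_dvd.2 (dvd_mul_right _ _)).trans
      (Nat.modEq_zero_iff_dvd.2 (dvd_mul_right _ _)).symm
  exact Nat.ModEq.add_right_cancel' _ h3

lemma uu_lt {W n0 : ℕ} (hW : 2 ≤ W) (h : n0 < W ^ 4) {v v' : ℕ} (hv : v < v') :
    uu W n0 v < uu W n0 v' := by
  have h1 := uu_add h v
  have h2 := uu_add h v'
  have h3 : 0 < W ^ 4 := by positivity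
  have h4 : W ^ 4 * (v + 1) < W ^ 4 * (v' + 1) := Nat.mul_lt_mul_of_pos_left (by omega) h3
  omega

lemma nn_lt {W n0 : ℕ} (hW : 2 ≤ W) (h : n0 < W ^ 4) {v v' : ℕ} (hv : v < v') :
    nn W n0 v < nn W n0 v' := by
  have h1 := uu_lt hW h hv
  have h2 := Wu_ge hW h v
  have h3 : W ^ 2 * uu W n0 v < W ^ 2 * uu W n0 v' :=
    Nat.mul_lt_mul_of_pos_left h1 (by positivity)
  unfold nn
  have h4 : uu W n0 v * (W ^ 2 * uu W n0 v - 1) < uu W n0 v' * (W ^ 2 * uu W n0 v' - 1) :=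
    Nat.mul_lt_mul'' h1 (by omega)
  exact Nat.mul_lt_mul'' h4 (by omega)

lemma nn_inj {W n0 : ℕ} (hW : 2 ≤ W) (h : n0 < W ^ 4) : Function.Injective (nn W n0) :=
  (strictMono_nat_of_lt_succ fun v => nn_lt hW h (Nat.lt_succ_self v)).injective

lemma nn_le {W n0 : ℕ} (hW : 2 ≤ W) (h : n0 < W ^ 4) (v : ℕ) : nn W n0 v ≤ W ^ 16 * (v + 1) ^ 3 := by
  have h1 := nn_add hW h v
  have h2 := uu_add h v
  have h3 : uu W n0 v ≤ W ^ 4 * (v + 1) := by omega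
  calc nn W n0 v ≤ W ^ 4 * uu W n0 v ^ 3 := by omega
    _ ≤ W ^ 4 * (W ^ 4 * (v + 1)) ^ 3 := Nat.mul_le_mul_left _ (Nat.pow_le_pow_left h3 3)
    _ = _ := by ring

/-- the arithmetic of the family -/
theorem fam (W n0 M m0 y : ℕ) (hW : 2 ∣ W) (hW0 : 0 < W) (hn0 : n0 < W ^ 4) (hM0 : 0 < M) (hM : M ∣ W)
    (hsf : Squarefree m0) (h1 : n0 ≡ m0 [MOD M ^ 2])
    (h2 : ∀ p : ℕ, p.Prime → p ∣ W → ¬ p ∣ M → n0 ≡ 1 [MOD p]) (v : ℕ)
    (hs : ∀ p : ℕ, p.Prime → ¬ p ∣ W → p ≤ y → ¬ p ∣ uu W n0 v ∧ ¬ p ∣ W ^ 2 * uu W n0 v - 1 ∧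
      ¬ p ∣ W ^ 2 * uu W n0 v + 1)
    (hq : ∀ p : ℕ, p.Prime → ¬ p ∣ W → y < p → ¬ p ^ 2 ∣ uu W n0 v ∧
      ¬ p ^ 2 ∣ W ^ 2 * uu W n0 v - 1 ∧ ¬ p ^ 2 ∣ W ^ 2 * uu W n0 v + 1) :
    Squarefree (nn W n0 v) ∧ nn W n0 v ≡ m0 [MOD M] ∧ (Odd M → Odd (nn W n0 v)) ∧
      Cong (nn W n0 v) ∧ ∃ m, nn W n0 v = Nat.gcd m0 M * m ∧ ∀ p : ℕ, p.Prime → p ∣ m → y < p := by
  have hW2 : 2 ≤ W := Nat.le_of_dvd hW0 hW
  have hge := Wu_ge hW2 hn0 v
  have hupos := uu_pos hn0 v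
  have hadd := uu_add hn0 v
  have hmod := nn_mod hW2 hn0 v
  have hcong : Cong (nn W n0 v) := cong_area (by omega) (by omega)
  set u := uu W n0 v with hu
  obtain ⟨t, ht⟩ : ∃ t, W ^ 2 * u = t + 1 := ⟨W ^ 2 * u - 1, by omega⟩
  have hnn : nn W n0 v = u * t * (t + 2) := by
    unfold nn
    rw [← hu, ht, Nat.add_sub_cancel]
  have hL2 : W ^ 2 * u - 1 = t := by omega
  have hL3 : W ^ 2 * u + 1 = t + 2 := by omega
  simp only [hL2, hL3] at hs hq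
  -- primes dividing W
  have hpW : ∀ p : ℕ, p.Prime → p ∣ W → ¬ p ∣ t ∧ ¬ p ∣ t + 2 := by
    intro p hp hd
    have h3 : p ∣ t + 1 := by
      rw [← ht]
      exact (hd.trans (dvd_pow_self W (by norm_num))).mul_right u
    constructor
    · intro h4
      have := (Nat.dvd_add_right h4).1 h3
      exact hp.one_lt.ne' (Nat.dvd_one.1 this)
    · intro h4
      have h5 : p ∣ (t + 1) + 1 := h4
      have := (Nat.dvd_add_right h3).1 h5
      exact hp.one_lt.ne' (Nat.dvd_one.1 this)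
  have hW4 : ∀ d : ℕ, d ∣ W ^ 4 → (d ∣ u ↔ d ∣ n0) := by
    intro d hd
    have h3 : d ∣ u + n0 := by
      rw [hadd]
      exact hd.mul_right _
    constructor
    · intro h4
      exact (Nat.dvd_add_right h4).1 h3
    · intro h4
      exact (Nat.dvd_add_left h4).1 h3
  have hMsq : M ^ 2 ∣ W ^ 4 := by
    have : M ^ 2 ∣ W ^ 2 := pow_dvd_pow_of_dvd hM 2
    exact this.trans (pow_dvd_pow W (by norm_num))
  have hpu : ∀ p : ℕ, p.Prime → p ∣ W → (p ∣ u ↔ p ∣ M ∧ p ∣ m0) ∧ ¬ p ^ 2 ∣ u := by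
    intro p hp hd
    have hpW4 : p ∣ W ^ 4 := hd.trans (dvd_pow_self W (by norm_num))
    have hp2W4 : p ^ 2 ∣ W ^ 4 := (pow_dvd_pow_of_dvd hd 2).trans (pow_dvd_pow W (by norm_num))
    by_cases hpM : p ∣ M
    · have e2 : p ^ 2 ∣ M ^ 2 := pow_dvd_pow_of_dvd hpM 2
      have e1 : p ∣ M ^ 2 := hpM.trans (dvd_pow_self M (by norm_num))
      have f1 : p ∣ n0 ↔ p ∣ m0 := (h1.of_dvd e1).dvd_iff dvd_rfl
      have f2 : p ^ 2 ∣ n0 ↔ p ^ 2 ∣ m0 := (h1.of_dvd e2).dvd_iff dvd_rfl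
      refine ⟨?_, ?_⟩
      · rw [hW4 p hpW4, f1]
        exact ⟨fun h => ⟨hpM, h⟩, fun h => h.2⟩
      · rw [hW4 _ hp2W4, f2]
        intro h
        have := (Nat.squarefree_iff_prime_squarefree.1 hsf) p hp
        exact this (by rwa [← sq])
    · have f1 : ¬ p ∣ u := by
        rw [hW4 p hpW4]
        intro h
        have h3 := h2 p hp hd hpM
        have h4 : p ∣ 1 := (h3.dvd_iff dvd_rfl).1 h
        exact hp.one_lt.ne' (Nat.dvd_one.1 h4)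
      exact ⟨⟨fun h => absurd h f1, fun h => absurd h.1 hpM⟩,
        fun h => f1 ((dvd_pow_self p (by norm_num)).trans h)⟩
  -- squarefree factors
  have hsq : ∀ p : ℕ, p.Prime → ¬ p ^ 2 ∣ u ∧ ¬ p ^ 2 ∣ t ∧ ¬ p ^ 2 ∣ t + 2 := by
    intro p hp
    by_cases hd : p ∣ W
    · refine ⟨(hpu p hp hd).2, fun h => (hpW p hp hd).1 ((dvd_pow_self p (by norm_num)).trans h),
        fun h => (hpW p hp hd).2 ((dvd_pow_self p (by norm_num)).trans h)⟩
    · rcases Nat.lt_or_ge y p with h | h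
      · exact hq p hp hd h
      · obtain ⟨g1, g2, g3⟩ := hs p hp hd h
        exact ⟨fun h => g1 ((dvd_pow_self p (by norm_num)).trans h),
          fun h => g2 ((dvd_pow_self p (by norm_num)).trans h),
          fun h => g3 ((dvd_pow_self p (by norm_num)).trans h)⟩
  have sf : ∀ x : ℕ, (∀ p : ℕ, p.Prime → ¬ p ^ 2 ∣ x) → Squarefree x := by
    intro x hx
    rw [Nat.squarefree_iff_prime_squarefree]
    intro p hp h
    exact hx p hp (by rwa [sq])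
  have sfu := sf u fun p hp => (hsq p hp).1
  have sft := sf t fun p hp => (hsq p hp).2.1
  have sft2 := sf (t + 2) fun p hp => (hsq p hp).2.2
  -- coprimality
  have c1 : Nat.Coprime u t := by
    rw [Nat.coprime_iff_gcd_eq_one] 
    have g1 : Nat.gcd u t ∣ t + 1 := by
      rw [← ht]
      exact (Nat.gcd_dvd_left u t).mul_left _
    have g2 : Nat.gcd u t ∣ 1 := (Nat.dvd_add_right (Nat.gcd_dvd_right u t)).1 g1
    exact Nat.dvd_one.1 g2
  have c2 : Nat.Coprime u (t + 2) := by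
    rw [Nat.coprime_iff_gcd_eq_one]
    have g1 : Nat.gcd u (t + 2) ∣ t + 1 := by
      rw [← ht]
      exact (Nat.gcd_dvd_left u (t + 2)).mul_left _
    have g2 : Nat.gcd u (t + 2) ∣ (t + 1) + 1 := Nat.gcd_dvd_right u (t + 2)
    have g3 : Nat.gcd u (t + 2) ∣ 1 := (Nat.dvd_add_right g1).1 g2
    exact Nat.dvd_one.1 g3
  have c3 : Nat.Coprime t (t + 2) := by
    have g1 : Nat.gcd t (t + 2) ∣ 2 := (Nat.dvd_add_right (Nat.gcd_dvd_left t (t + 2))).1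
      (Nat.gcd_dvd_right t (t + 2))
    rw [Nat.coprime_iff_gcd_eq_one]
    rcases (Nat.dvd_prime Nat.prime_two).1 g1 with h | h
    · exact h
    · exfalso
      exact (hpW 2 Nat.prime_two hW).1 (by
        have := Nat.gcd_dvd_left t (t + 2)
        rwa [h] at this)
  have hsqf : Squarefree (nn W n0 v) := by
    rw [hnn, Nat.squarefree_mul (Nat.Coprime.mul_left c2 c3), Nat.squarefree_mul c1]
    exact ⟨⟨sfu, sft⟩, sft2⟩
  have hmodM : nn W n0 v ≡ m0 [MOD M] := by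
    have e1 : M ∣ M ^ 2 := dvd_pow_self M (by norm_num)
    exact ((hmod.of_dvd hMsq).of_dvd e1).trans (h1.of_dvd e1)
  have hodd : Odd M → Odd (nn W n0 v) := by
    intro hMo
    have h3 := h2 2 Nat.prime_two hW (by
      intro h
      rw [← even_iff_two_dvd] at h
      exact (Nat.not_even_iff_odd.2 hMo) h)
    have h4 : nn W n0 v ≡ n0 [MOD 2] := hmod.of_dvd (hW.trans (dvd_pow_self W (by norm_num)))
    have h5 := h4.trans h3
    rw [Nat.odd_iff]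
    exact h5
  -- the factor g
  have hg : Nat.gcd m0 M ∣ u := by
    have e1 : Nat.gcd m0 M ∣ W ^ 4 := (Nat.gcd_dvd_right m0 M).trans
      (hM.trans (dvd_pow_self W (by norm_num)))
    rw [hW4 _ e1]
    have e2 : Nat.gcd m0 M ∣ M ^ 2 := (Nat.gcd_dvd_right m0 M).trans (dvd_pow_self M (by norm_num))
    exact ((h1.of_dvd e2).dvd_iff dvd_rfl).2 (Nat.gcd_dvd_left m0 M)
  obtain ⟨m', hm'⟩ := hg
  refine ⟨hsqf, hmodM, hodd, hcong, m' * t * (t + 2), ?_, ?_⟩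
  · rw [hnn, hm']; ring
  · intro p hp hd
    have hpWn : ¬ p ∣ W := by
      intro hdW
      obtain ⟨g1, g2⟩ := hpW p hp hdW
      rcases (Nat.Prime.dvd_mul hp).1 hd with h | h
      · rcases (Nat.Prime.dvd_mul hp).1 h with h | h
        · have h3 : p ∣ u := by rw [hm']; exact h.mul_left _
          have h4 := ((hpu p hp hdW).1).1 h3
          have h5 : p ∣ Nat.gcd m0 M := Nat.dvd_gcd h4.2 h4.1
          apply (hpu p hp hdW).2
          rw [sq, hm']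
          exact mul_dvd_mul h5 h
        · exact g1 h
      · exact g2 h
    by_contra hle
    rw [not_lt] at hle
    obtain ⟨g1, g2, g3⟩ := hs p hp hpWn hle
    rcases (Nat.Prime.dvd_mul hp).1 hd with h | h
    · rcases (Nat.Prime.dvd_mul hp).1 h with h | h
      · exact g1 (by rw [hm']; exact h.mul_left _)
      · exact g2 h
    · exact g3 h

end Pool.Agent.V7H99.CD
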