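import Mathlib
import Pool.Agent.H373R2.NB.Weyl

set_option autoImplicit false

/-! The kernel `((1 + cos 2πx)/2)^N` and its Fourier expansion. -/

namespace Pool.Agent.V7H99.CD
open Finset
open Pool.Agent.Helper602.MK (ee)
open Pool.Agent.Helper602.MK.N_J5b (ee_add ee_zero ee_conj norm_ee ee_int ee_nat_mul)

/-- the kernel -/
noncomputable def kern (N : ℕ) (x : ℝ) : ℝ := ((1 + Real.cos (2 * Real.pi * x)) / 2) ^ N

/-- its Fourier coefficients -/
noncomputable def cf (N : ℕ) (i : ℕ) : ℝ := ((2 * N).choose i : ℝ) / 4 ^ N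

lemma kern_nonneg (N : ℕ) (x : ℝ) : 0 ≤ kern N x := by
  unfold kern
  apply pow_nonneg
  have := Real.neg_one_le_cos (2 * Real.pi * x)
  linarith

lemma kern_le_one (N : ℕ) (x : ℝ) : kern N x ≤ 1 := by
  unfold kern
  apply pow_le_one₀
  · have := Real.neg_one_le_cos (2 * Real.pi * x)
    linarith
  · have := Real.cos_le_one (2 * Real.pi * x)
    linarith

lemma kern_far (N : ℕ) (x δ : ℝ) (hδ : 0 ≤ δ) (h : ∀ z : ℤ, δ ≤ |x - z|) :
    kern N x ≤ Real.exp (-(4 * N * δ ^ 2)) := by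
  have h1 : (1 + Real.cos (2 * Real.pi * x)) / 2 ≤ Real.exp (-(4 * δ ^ 2)) := by
    set t := x - round x with ht
    have ht1 : |t| ≤ 1 / 2 := abs_sub_round x
    have ht2 : δ ≤ |t| := h (round x)
    have h2 : Real.cos (2 * Real.pi * x) = Real.cos (2 * Real.pi * t) := by
      have : 2 * Real.pi * x = 2 * Real.pi * t + (round x : ℤ) * (2 * Real.pi) := by
        rw [ht]; ring
      rw [this, Real.cos_add_int_mul_two_pi]
    have h3 : (1 + Real.cos (2 * Real.pi * x)) / 2 = 1 - Real.sin (Real.pi * |t|) ^ 2 := by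
      rw [h2]
      have e1 : Real.cos (2 * Real.pi * t) = Real.cos (2 * (Real.pi * |t|)) := by
        rcases abs_cases t with ⟨h, _⟩ | ⟨h, _⟩
        · rw [h]; ring_nf
        · rw [h, ← Real.cos_neg]; ring_nf
      rw [e1, Real.cos_two_mul]
      have := Real.sin_sq_add_cos_sq (Real.pi * |t|)
      linarith
    have h4 : 2 * |t| ≤ Real.sin (Real.pi * |t|) := by
      have := Real.mul_le_sin (x := Real.pi * |t|) (by positivity) (by
        have := Real.pi_pos
        nlinarith)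
      calc 2 * |t| = 2 / Real.pi * (Real.pi * |t|) := by
            have := Real.pi_ne_zero
            field_simp
        _ ≤ _ := this
    rw [h3]
    have h5 : (2 * δ) ^ 2 ≤ Real.sin (Real.pi * |t|) ^ 2 := by
      apply pow_le_pow_left₀ (by positivity)
      linarith
    have h6 := Real.add_one_le_exp (-(4 * δ ^ 2))
    nlinarith
  unfold kern
  calc ((1 + Real.cos (2 * Real.pi * x)) / 2) ^ N ≤ Real.exp (-(4 * δ ^ 2)) ^ N := by
        apply pow_le_pow_left₀ _ h1
        have := Real.neg_one_le_cos (2 * Real.pi * x)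
        linarith
    _ = Real.exp (-(4 * N * δ ^ 2)) := by
        rw [← Real.exp_nat_mul]
        congr 1
        ring

lemma kern_expand (N : ℕ) (x : ℝ) :
    (kern N x : ℂ) = ∑ i ∈ range (2 * N + 1), (cf N i : ℂ) * ee (((i : ℝ) - N) * x) := by
  have h1 : (((1 + Real.cos (2 * Real.pi * x)) / 2 : ℝ) : ℂ) = ee (-x) * (1 + ee x) ^ 2 / 4 := by
    have e1 : ee (-x) * ee x = 1 := by rw [← ee_add]; simp [ee_zero]
    have e2 : ((Real.cos (2 * Real.pi * x) : ℝ) : ℂ) = (ee x + ee (-x)) / 2 := by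
      unfold ee
      rw [Complex.ofReal_cos, Complex.cos]
      push_cast
      congr 2
      congr 1
      ring
    push_cast [e2] at *
    rw [e2]
    have e3 : ee (-x) * (1 + ee x) ^ 2 = ee (-x) + 2 * (ee (-x) * ee x) + (ee (-x) * ee x) * ee x := by
      ring
    rw [e3, e1]
    ring
  have h2 : ∀ i : ℕ, (cf N i : ℂ) * ee (((i : ℝ) - N) * x) =
      ee (-x) ^ N * (((2 * N).choose i : ℂ) * ee x ^ i) / 4 ^ N := by
    intro i
    have e1 : ee (((i : ℝ) - N) * x) = ee (-x) ^ N * ee x ^ i := by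
      rw [← ee_nat_mul, ← ee_nat_mul, ← ee_add]
      congr 1
      ring
    rw [e1]
    unfold cf
    push_cast
    ring
  rw [Finset.sum_congr rfl (fun i _ => h2 i), ← Finset.sum_div, ← Finset.mul_sum]
  unfold kern
  rw [Complex.ofReal_pow, h1]
  have h3 : (1 + ee x) ^ (2 * N) = ∑ i ∈ range (2 * N + 1), ((2 * N).choose i : ℂ) * ee x ^ i := by
    rw [add_comm, add_pow]
    apply sum_congr rfl
    intro i _
    ring
  rw [← h3, div_pow, mul_pow, ← pow_mul]

lemma cf_nonneg (N i : ℕ) : 0 ≤ cf N i := by unfold cf; positivity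

lemma cf_sum (N : ℕ) : ∑ i ∈ range (2 * N + 1), cf N i = 1 := by
  unfold cf
  rw [← Finset.sum_div]
  have h : ∑ i ∈ range (2 * N + 1), ((2 * N).choose i : ℝ) = 4 ^ N := by
    have := Nat.sum_range_choose (2 * N)
    have h2 : ((∑ m ∈ range (2 * N + 1), (2 * N).choose m : ℕ) : ℝ) = ((2 ^ (2 * N) : ℕ) : ℝ) := by
      rw [this]
    push_cast at h2
    rw [h2, pow_mul]
    norm_num
  rw [h]
  exact div_self (by positivity)

lemma cf_mid (N : ℕ) (hN : 1 ≤ N) : 1 / (2 * N : ℝ) ≤ cf N N := by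
  have h := Nat.four_pow_le_two_mul_self_mul_centralBinom N (by omega)
  have h1 : (4 : ℝ) ^ N ≤ 2 * N * (2 * N).choose N := by
    have : ((4 ^ N : ℕ) : ℝ) ≤ ((2 * N * N.centralBinom : ℕ) : ℝ) := by exact_mod_cast h
    push_cast at this
    rw [Nat.centralBinom_eq_two_mul_choose] at this
    exact this
  have hN0 : (0 : ℝ) < N := by exact_mod_cast hN
  unfold cf
  rw [div_le_div_iff₀ (by positivity) (by positivity)]
  linarith

lemma cf_mid_le (N : ℕ) : cf N N ≤ 1 := by
  rw [← cf_sum N]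
  exact Finset.single_le_sum (f := fun i => cf N i) (fun i _ => cf_nonneg N i)
    (mem_range.2 (by omega))

/-- sum of the kernel over a finite set -/
theorem kern_sum (N : ℕ) (S : Finset ℕ) (φ : ℕ → ℝ) (B : ℝ) (hB0 : 0 ≤ B)
    (hB : ∀ h : ℤ, h ≠ 0 → |h| ≤ N → ‖∑ v ∈ S, ee (h * φ v)‖ ≤ B) :
    |∑ v ∈ S, kern N (φ v) - cf N N * (S.card : ℝ)| ≤ B := by
  have h1 : ((∑ v ∈ S, kern N (φ v) : ℝ) : ℂ) =
      ∑ i ∈ range (2 * N + 1), (cf N i : ℂ) * ∑ v ∈ S, ee (((i : ℝ) - N) * φ v) := by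
    rw [Complex.ofReal_sum]
    rw [Finset.sum_congr rfl (fun v _ => kern_expand N (φ v)), Finset.sum_comm]
    apply sum_congr rfl
    intro i _
    rw [Finset.mul_sum]
  have hN : N ∈ range (2 * N + 1) := mem_range.2 (by omega)
  have h2 : ((∑ v ∈ S, kern N (φ v) - cf N N * (S.card : ℝ) : ℝ) : ℂ) =
      ∑ i ∈ (range (2 * N + 1)).erase N, (cf N i : ℂ) * ∑ v ∈ S, ee (((i : ℝ) - N) * φ v) := by
    rw [Complex.ofReal_sub, h1, ← Finset.add_sum_erase _ _ hN]
    have e : ∑ v ∈ S, ee (((N : ℝ) - N) * φ v) = (S.card : ℂ) := by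
      rw [Finset.sum_congr rfl (fun v _ => by rw [sub_self, zero_mul, ee_zero])]
      simp
    rw [e]
    push_cast
    ring
  have h3 : |∑ v ∈ S, kern N (φ v) - cf N N * (S.card : ℝ)| =
      ‖((∑ v ∈ S, kern N (φ v) - cf N N * (S.card : ℝ) : ℝ) : ℂ)‖ := by
    rw [Complex.norm_real, Real.norm_eq_abs]
  rw [h3, h2]
  refine (norm_sum_le _ _).trans ?_
  calc ∑ i ∈ (range (2 * N + 1)).erase N, ‖(cf N i : ℂ) * ∑ v ∈ S, ee (((i : ℝ) - N) * φ v)‖
      ≤ ∑ i ∈ (range (2 * N + 1)).erase N, cf N i * B := by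
        apply sum_le_sum
        intro i hi
        rw [mem_erase, mem_range] at hi
        rw [norm_mul, Complex.norm_real, Real.norm_eq_abs, abs_of_nonneg (cf_nonneg N i)]
        apply mul_le_mul_of_nonneg_left _ (cf_nonneg N i)
        have := hB ((i : ℤ) - N) (by omega) (by rw [abs_le]; omega)
        push_cast at this
        exact this
    _ ≤ ∑ i ∈ range (2 * N + 1), cf N i * B := by
        apply sum_le_sum_of_subset_of_nonneg (erase_subset _ _)
        intro i _ _
        exact mul_nonneg (cf_nonneg N i) hB0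
    _ = B := by rw [← Finset.sum_mul, cf_sum, one_mul]

end Pool.Agent.V7H99.CD
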