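import Mathlib
import Pool.Agent.H20R2.EN.FLem
import Pool.Agent.H373R2.T7.Cnt
import Pool.Agent.V7H99.CD.Ker

set_option autoImplicit false

/-! The weighted sieve. -/

namespace Pool.Agent.V7H99.CD
open Finset
open Pool.Agent.Helper602.MK (ee)
open Pool.Agent.Helper602.MK.N_J5b (ee_add ee_zero ee_conj norm_ee ee_int ee_nat_mul)

def JJ (y : ℕ) : ℕ := Nat.log 2 (Nat.log 2 y) + 1

lemma JJ_lt (y : ℕ) : y < 2 ^ 2 ^ JJ y := by
  have h1 : y < 2 ^ (Nat.log 2 y + 1) := Nat.lt_pow_succ_log_self (by norm_num) y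
  have h2 : Nat.log 2 y + 1 ≤ 2 ^ JJ y := Nat.lt_pow_succ_log_self (by norm_num) _
  exact h1.trans_le (Nat.pow_le_pow_right (by norm_num) h2)

lemma JJ_pow (y : ℕ) (hy : 2 ≤ y) : 2 ^ JJ y ≤ 2 * Nat.log 2 y := by
  have h0 : Nat.log 2 y ≠ 0 := by
    have : 0 < Nat.log 2 y := Nat.log_pos (by norm_num) hy
    omega
  unfold JJ
  rw [pow_succ]
  have := Nat.pow_log_le_self 2 h0
  omega

lemma JJ_le (y : ℕ) (hy : 2 ≤ y) : 2 ^ 2 ^ JJ y ≤ y ^ 2 := by
  calc 2 ^ 2 ^ JJ y ≤ 2 ^ (2 * Nat.log 2 y) := Nat.pow_le_pow_right (by norm_num) (JJ_pow y hy)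
    _ = (2 ^ Nat.log 2 y) ^ 2 := by rw [← pow_mul, mul_comm]
    _ ≤ y ^ 2 := Nat.pow_le_pow_left (Nat.pow_log_le_self 2 (by omega)) 2

lemma JJ_small (y : ℕ) (hy : 3 ≤ y) : JJ y + 2 ≤ 2 * y := by
  unfold JJ
  have h1 : Nat.log 2 (Nat.log 2 y) ≤ Nat.log 2 y := Nat.log_le_self _ _
  have h2 : Nat.log 2 y ≤ y := Nat.log_le_self _ _
  omega

/-- the primes of the sieve -/
def Pd (z0 y : ℕ) : Finset ℕ := (Icc 1 y).filter (fun p => p.Prime ∧ z0 < p)

lemma mem_Pd {z0 y p : ℕ} : p ∈ Pd z0 y ↔ p.Prime ∧ z0 < p ∧ p ≤ y := by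
  unfold Pd
  rw [mem_filter, mem_Icc]
  constructor
  · rintro ⟨⟨_, h⟩, h1, h2⟩
    exact ⟨h1, h2, h⟩
  · rintro ⟨h1, h2, h⟩
    exact ⟨⟨h1.one_le, h⟩, h1, h2⟩

/-- the exponential sums over residue classes are at most `B` -/
def EH (V D N : ℕ) (φ : ℕ → ℝ) (B : ℝ) : Prop := ∀ d : ℕ, 1 ≤ d → d ≤ D → ∀ r : ℕ, ∀ h : ℤ,
  h ≠ 0 → |h| ≤ N → ‖∑ v ∈ (Icc 1 V).filter (fun v => v ≡ r [MOD d]), ee (h * φ v)‖ ≤ B

lemma EH_class {V D N : ℕ} {φ : ℕ → ℝ} {B : ℝ} (hB : 0 ≤ B) (hE : EH V D N φ B) (d : ℕ)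
    (hd : 1 ≤ d) (hdD : d ≤ D) (r : ℕ) :
    ∑ v ∈ (Icc 1 V).filter (fun v => v ≡ r [MOD d]), kern N (φ v) ≤
      cf N N * ((V : ℝ) / d + 1) + B := by
  have h1 := kern_sum N ((Icc 1 V).filter (fun v => v ≡ r [MOD d])) φ B hB
    (fun h hh hN => hE d hd hdD r h hh hN)
  have h2 := Pool.Agent.H373R2.T7.count_class V d r hd
  have h3 := (abs_le.1 h1).2
  have h4 := (abs_le.1 h2).2
  have h5 : cf N N * (((Icc 1 V).filter (fun v => v ≡ r [MOD d])).card : ℝ) ≤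
      cf N N * ((V : ℝ) / d + 1) := by
    apply mul_le_mul_of_nonneg_left _ (cf_nonneg N N)
    linarith
  linarith

open Classical in
/-- the number of classes -/
noncomputable def nu (hit : ℕ → ℕ → Prop) (p : ℕ) : ℕ := ((range p).filter (fun a => hit p a)).card

lemma nu_le (hit : ℕ → ℕ → Prop) (p : ℕ) : nu hit p ≤ p := by
  classical
  unfold nu
  exact (card_filter_le _ _).trans (by simp)

open Classical in
/-- one intersection -/
lemma one_T {V D N : ℕ} {φ : ℕ → ℝ} {B : ℝ} (hB : 0 ≤ B) (hE : EH V D N φ B)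
    (hit : ℕ → ℕ → Prop) (per : ∀ p n, hit p n ↔ hit p (n % p)) (T : Finset ℕ)
    (hT : ∀ p ∈ T, p.Prime) (hTD : ∏ p ∈ T, p ≤ D) :
    |∑ v ∈ (Icc 1 V).filter (fun v => ∀ p ∈ T, hit p v), kern N (φ v) -
      cf N N * V * ∏ p ∈ T, ((nu hit p : ℝ) / p)| ≤ (∏ p ∈ T, (p : ℝ)) * (1 + B) := by
  set d := ∏ p ∈ T, p with hd
  have hd1 : 1 ≤ d := Nat.pos_of_ne_zero (prod_ne_zero_iff.2 fun p hp => (hT p hp).ne_zero)
  have hdr : (∏ p ∈ T, (p : ℝ)) = d := by rw [hd]; push_cast; rfl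
  have hpd : ∀ p ∈ T, p ∣ d := fun p hp => dvd_prod_of_mem (fun p => p) hp
  set S := (Icc 1 V).filter (fun v => ∀ p ∈ T, hit p v) with hS
  have hcond : ∀ v : ℕ, (∀ p ∈ T, hit p v) ↔ (∀ p ∈ T, hit p (v % d)) := by
    intro v
    apply forall_congr'
    intro p
    apply imp_congr_right
    intro hp
    rw [per p v, per p (v % d), Nat.mod_mod_of_dvd v (hpd p hp)]
  -- exponential sums
  have hexp : ∀ h : ℤ, h ≠ 0 → |h| ≤ N → ‖∑ v ∈ S, ee (h * φ v)‖ ≤ d * B := by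
    intro h hh hN
    have e1 : ∑ v ∈ S, ee (h * φ v) = ∑ r ∈ range d, ∑ v ∈ S.filter (fun v => v % d = r),
        ee (h * φ v) := by
      rw [sum_fiberwise_of_maps_to]
      intro v _
      exact mem_range.2 (Nat.mod_lt _ (by omega))
    rw [e1]
    refine (norm_sum_le _ _).trans ?_
    calc ∑ r ∈ range d, ‖∑ v ∈ S.filter (fun v => v % d = r), ee (h * φ v)‖ ≤
        ∑ _r ∈ range d, B := by
          apply sum_le_sum
          intro r hr
          rw [mem_range] at hr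
          by_cases hc : ∀ p ∈ T, hit p r
          · have e2 : S.filter (fun v => v % d = r) = (Icc 1 V).filter (fun v => v ≡ r [MOD d]) := by
              rw [hS, filter_filter]
              apply filter_congr
              intro v _
              constructor
              · rintro ⟨_, h2⟩
                show v % d = r % d
                rw [h2, Nat.mod_eq_of_lt hr]
              · intro h2
                have h3 : v % d = r := by
                  have : v % d = r % d := h2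
                  rwa [Nat.mod_eq_of_lt hr] at this
                refine ⟨?_, h3⟩
                rw [hcond v, h3]
                exact hc
            rw [e2]
            exact hE d hd1 hTD r h hh hN
          · have e2 : S.filter (fun v => v % d = r) = ∅ := by
              rw [hS, filter_filter, filter_eq_empty_iff]
              rintro v _ ⟨h2, h3⟩
              apply hc
              rw [hcond v, h3] at h2
              exact h2
            rw [e2, sum_empty, norm_zero]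
            exact hB
      _ = d * B := by rw [sum_const, card_range, nsmul_eq_mul]
  have h1 := kern_sum N S φ (d * B) (by positivity) hexp
  -- counting
  have h2 := Pool.Agent.H373R2.T7.count_sys (fun p a => hit p a) V T hT 1 le_rfl
    (fun p hp hd => (hT p hp).one_lt.ne' (Nat.dvd_one.1 hd)) 0
  have e3 : (((Icc 1 V).filter (fun n => n ≡ 0 [MOD 1] ∧ ∀ p ∈ T, hit p (n % p))).card : ℝ) =
      (S.card : ℝ) := by
    congr 2
    apply filter_congr
    intro n _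
    constructor
    · rintro ⟨_, h⟩ p hp
      exact (per p n).2 (h p hp)
    · intro h
      exact ⟨Nat.modEq_one, fun p hp => (per p n).1 (h p hp)⟩
  rw [e3, Nat.cast_one, div_one] at h2
  have e4 : ∏ p ∈ T, (((range p).filter (fun a => hit p a)).card : ℝ) ≤ d := by
    rw [← hdr]
    apply prod_le_prod (fun _ _ => Nat.cast_nonneg _)
    intro p _
    exact_mod_cast nu_le hit p
  have e5 : ∏ p ∈ T, ((((range p).filter (fun a => hit p a)).card : ℝ) / p) =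
      ∏ p ∈ T, ((nu hit p : ℝ) / p) := rfl
  rw [e5] at h2
  have h3 := h2.trans e4
  have hc0 := cf_nonneg N N
  have hc1 := cf_mid_le N
  have e6 : ∑ v ∈ S, kern N (φ v) - cf N N * V * ∏ p ∈ T, ((nu hit p : ℝ) / p) =
      (∑ v ∈ S, kern N (φ v) - cf N N * S.card) +
        cf N N * (S.card - V * ∏ p ∈ T, ((nu hit p : ℝ) / p)) := by ring
  rw [e6, hdr]
  refine (abs_add_le _ _).trans ?_
  rw [abs_mul, abs_of_nonneg hc0]
  have h4 : cf N N * |(S.card : ℝ) - V * ∏ p ∈ T, ((nu hit p : ℝ) / p)| ≤ 1 * d :=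
    mul_le_mul hc1 h3 (abs_nonneg _) zero_le_one
  linarith

open Classical in
/-- **the weighted sieve** -/
theorem sift_wt : ∃ C0 : ℕ, 1 ≤ C0 ∧ ∀ (z0 y V N : ℕ) (φ : ℕ → ℝ) (B : ℝ), C0 ≤ z0 → 3 ≤ y →
    0 ≤ B → EH V (y ^ (2 * (C0 * C0))) N φ B → ∀ hit : ℕ → ℕ → Prop,
    (∀ p n, hit p n ↔ hit p (n % p)) → (∀ p, p.Prime → nu hit p ≤ 3) →
    1 / 2 * (cf N N * V * ∏ p ∈ Pd z0 y, (1 - (nu hit p : ℝ) / p)) -
      2 * y * ((y : ℝ) ^ (2 * (C0 * C0)) * (y : ℝ) ^ (2 * (C0 * C0)) * (1 + B)) ≤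
      ∑ v ∈ (Icc 1 V).filter (fun v => ∀ p ∈ Pd z0 y, ¬ hit p v), kern N (φ v) := by
  obtain ⟨C0, hC0, hFL⟩ := Pool.Agent.H20R2.fLem 3
  refine ⟨C0, hC0, ?_⟩
  intro z0 y V N φ B hz0 hy hB hE hit per few
  set J := JJ y with hJ
  set Y : ℕ := 2 ^ 2 ^ J with hY
  have hyY : y < Y := JJ_lt y
  have hYy : Y ≤ y ^ 2 := JJ_le y (by omega)
  set D : ℕ := Y ^ (C0 * C0) with hD
  have hDy : D ≤ y ^ (2 * (C0 * C0)) := by
    calc D ≤ (y ^ 2) ^ (C0 * C0) := Nat.pow_le_pow_left hYy _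
      _ = _ := by rw [← pow_mul]
  have hPp : ∀ p ∈ Pd z0 y, p.Prime ∧ z0 < p ∧ p ≤ Y := by
    intro p hp
    obtain ⟨h1, h2, h3⟩ := mem_Pd.1 hp
    exact ⟨h1, h2, by omega⟩
  have hfac : ∀ p ∈ Pd z0 y, 0 ≤ 1 - (nu hit p : ℝ) / p := by
    intro p hp
    have hp0 : (0 : ℝ) < p := by exact_mod_cast (hPp p hp).1.pos
    have h1 : (nu hit p : ℝ) / p ≤ 1 := by rw [div_le_one hp0]; exact_mod_cast nu_le hit p
    linarith
  have hPi : (0 : ℝ) ≤ ∏ p ∈ Pd z0 y, (1 - (nu hit p : ℝ) / p) :=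
    Finset.prod_nonneg (fun p hp => hfac p hp)
  have hg : ∀ p ∈ Pd z0 y, 0 ≤ (nu hit p : ℝ) / p ∧
      (nu hit p : ℝ) / p ≤ ((3 : ℕ) : ℝ) / ((p : ℝ) - 1) := by
    intro p hp
    have hp0 : (0 : ℝ) < p := by exact_mod_cast (hPp p hp).1.pos
    have hp1 : (1 : ℝ) < p := by exact_mod_cast (hPp p hp).1.one_lt
    refine ⟨by positivity, ?_⟩
    apply div_le_div₀ (Nat.cast_nonneg _) (by exact_mod_cast few p (hPp p hp).1) (by linarith)
      (by linarith)
  have key := hFL C0 J z0 (Pd z0 y) (fun p => (nu hit p : ℝ) / p) le_rfl hz0 hPp hg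
    (Icc 1 V) (fun v => kern N (φ v)) hit (cf N N * V) (fun T => (∏ p ∈ T, (p : ℝ)) * (1 + B))
    (fun v _ => kern_nonneg N (φ v)) (mul_nonneg (cf_nonneg N N) (Nat.cast_nonneg _)) (by
      intro T hT hTD
      exact one_T hB hE hit per T (fun p hp => (hPp p (hT hp)).1) (hTD.trans hDy))
  have h1 := (abs_le.1 key).1
  have hb : (1 / 2 : ℝ) ^ C0 ≤ 1 / 2 := by
    calc (1 / 2 : ℝ) ^ C0 ≤ (1 / 2 : ℝ) ^ 1 := pow_le_pow_of_le_one (by norm_num) (by norm_num) hC0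
      _ = 1 / 2 := pow_one _
  have hM0 : 0 ≤ cf N N * V * ∏ p ∈ Pd z0 y, (1 - (nu hit p : ℝ) / p) :=
    mul_nonneg (mul_nonneg (cf_nonneg N N) (Nat.cast_nonneg _)) hPi
  have h2 : (1 / 2 : ℝ) ^ C0 * (cf N N * V * ∏ p ∈ Pd z0 y, (1 - (nu hit p : ℝ) / p)) ≤
      1 / 2 * (cf N N * V * ∏ p ∈ Pd z0 y, (1 - (nu hit p : ℝ) / p)) :=
    mul_le_mul_of_nonneg_right hb hM0
  -- the error
  have hcard : ((Pd z0 y).powerset.filter (fun T : Finset ℕ => ∏ p ∈ T, p ≤ D)).card ≤ D := by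
    calc _ ≤ (Icc 1 D).card := by
          apply card_le_card_of_injOn (fun T : Finset ℕ => ∏ p ∈ T, p)
          · intro T hT
            rw [mem_coe, mem_filter, mem_powerset] at hT
            have h5 : 1 ≤ ∏ p ∈ T, p :=
              Nat.pos_of_ne_zero (prod_ne_zero_iff.2 fun p hp => (hPp p (hT.1 hp)).1.ne_zero)
            exact mem_coe.2 (mem_Icc.2 ⟨h5, hT.2⟩)
          · intro T hT T' hT' h
            rw [mem_coe, mem_filter, mem_powerset] at hT hT'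
            have e1 := Nat.primeFactors_prod (fun p hp => (hPp p (hT.1 hp)).1 : ∀ p ∈ T, p.Prime)
            have e2 := Nat.primeFactors_prod (fun p hp => (hPp p (hT'.1 hp)).1 : ∀ p ∈ T', p.Prime)
            have h' : ∏ p ∈ T, p = ∏ p ∈ T', p := h
            rw [← e1, ← e2, h']
      _ = D := by rw [Nat.card_Icc]; omega
  have hJy : J + 2 ≤ 2 * y := JJ_small y hy
  have hDr : (D : ℝ) ≤ (y : ℝ) ^ (2 * (C0 * C0)) := by exact_mod_cast hDy
  have hsum : ∑ T ∈ (Pd z0 y).powerset.filter (fun T : Finset ℕ => ∏ p ∈ T, p ≤ D),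
      (∏ p ∈ T, (p : ℝ)) * (1 + B) ≤ D * (D * (1 + B)) := by
    calc _ ≤ ∑ T ∈ (Pd z0 y).powerset.filter (fun T : Finset ℕ => ∏ p ∈ T, p ≤ D), D * (1 + B) := by
          apply sum_le_sum
          intro T hT
          rw [mem_filter] at hT
          have h6 : ((∏ p ∈ T, p : ℕ) : ℝ) ≤ D := by exact_mod_cast hT.2
          push_cast at h6
          exact mul_le_mul_of_nonneg_right h6 (by linarith)
      _ = ((((Pd z0 y).powerset.filter (fun T : Finset ℕ => ∏ p ∈ T, p ≤ D)).card : ℕ) : ℝ) *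
          (D * (1 + B)) := by rw [sum_const, nsmul_eq_mul]
      _ ≤ D * (D * (1 + B)) := by
          apply mul_le_mul_of_nonneg_right (by exact_mod_cast hcard)
          positivity
  have hJr : (J : ℝ) + 2 ≤ 2 * y := by exact_mod_cast hJy
  have herr : ((J : ℝ) + 2) *
      ∑ T ∈ (Pd z0 y).powerset.filter (fun T : Finset ℕ => ∏ p ∈ T, p ≤ D),
        (∏ p ∈ T, (p : ℝ)) * (1 + B) ≤
      2 * y * ((y : ℝ) ^ (2 * (C0 * C0)) * (y : ℝ) ^ (2 * (C0 * C0)) * (1 + B)) := by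
    apply mul_le_mul hJr _ _ (by positivity)
    · refine hsum.trans ?_
      rw [mul_assoc]
      gcongr
    · apply sum_nonneg
      intro T _
      positivity
  linarith

end Pool.Agent.V7H99.CD
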