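import Mathlib
import Pool.Agent.H373R2.NB.Weyl

set_option autoImplicit false

/-! Weyl sums on minor arcs, from the inverse theorem. -/

namespace Pool.Agent.V7H99.CD
open Finset Polynomial
open Pool.Agent.H373R2.NB
open Pool.Agent.Helper602.MK (ee)
open Pool.Agent.Helper602.MK.N_J5b (ee_add ee_zero ee_conj norm_ee ee_int ee_nat_mul)

lemma Ph_real (d : ℕ) : ∀ f : ℝ[X], f.natDegree ≤ d → ∀ γ : ℝ,
    Ph d (γ * ((d.factorial : ℝ) * f.coeff d)) (fun n => γ * f.eval (n : ℝ)) := by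
  induction d with
  | zero =>
    intro f hf γ n
    have h1 : f = C (f.coeff 0) := eq_C_of_natDegree_le_zero hf
    have h2 : f.eval (n : ℝ) = f.coeff 0 := by
      conv_lhs => rw [h1]
      rw [eval_C]
    show γ * f.eval (n : ℝ) = _
    rw [h2]; simp
  | succ d ih =>
    intro f hf γ h
    set g : ℝ[X] := taylor (h : ℝ) f - f with hg
    have hcoef : ∀ j, d ≤ j → (taylor (h : ℝ) f).coeff j = f.coeff j +
        (if j = d then ((d : ℝ) + 1) * f.coeff (d + 1) * h else 0) := by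
      intro j hj
      rw [taylor_coeff]
      have h1 : (hasseDeriv j f).natDegree < 2 := by
        have := natDegree_hasseDeriv_le f j
        omega
      rw [eval_eq_sum_range' h1, sum_range_succ, sum_range_succ, sum_range_zero,
        hasseDeriv_coeff, hasseDeriv_coeff]
      rcases eq_or_ne j d with h2 | h2
      · subst h2
        rw [if_pos rfl, zero_add, zero_add, Nat.choose_self, add_comm 1 j,
          Nat.choose_succ_self_right]
        push_cast
        ring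
      · rw [if_neg h2]
        have h3 : f.coeff (1 + j) = 0 := coeff_eq_zero_of_natDegree_lt (by omega)
        rw [h3, zero_add, zero_add, Nat.choose_self]
        push_cast
        ring
    have hgd : g.natDegree ≤ d := by
      rw [natDegree_le_iff_coeff_eq_zero]
      intro j hj
      rw [hg, coeff_sub, hcoef j (by omega), if_neg (by omega)]
      ring
    have hgc : g.coeff d = ((d : ℝ) + 1) * f.coeff (d + 1) * h := by
      rw [hg, coeff_sub, hcoef d le_rfl, if_pos rfl]; ring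
    have h1 := ih g hgd γ
    have h2 : (fun n : ℕ => γ * g.eval (n : ℝ)) = fun n : ℕ =>
        γ * f.eval ((n + h : ℕ) : ℝ) - γ * f.eval (n : ℝ) := by
      funext n
      rw [hg, eval_sub, taylor_eval]
      push_cast
      ring
    have h3 : γ * ((d.factorial : ℝ) * g.coeff d) =
        (h : ℝ) * (γ * (((d + 1).factorial : ℝ) * f.coeff (d + 1))) := by
      rw [hgc, Nat.factorial_succ]; push_cast; ring
    rw [h2, h3] at h1
    exact h1

theorem weyl_minor (D : ℕ) (hD : 1 ≤ D) : ∃ c m : ℕ, 1 ≤ c ∧ ∀ (G : ℝ[X]) (γ : ℕ) (α : ℝ),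
    G.natDegree ≤ D → G.coeff D = γ * α → 0 < γ → ∀ (b : ℤ) (Q : ℕ), 0 < Q →
    IsCoprime b (Q : ℤ) → |α - b / Q| ≤ 1 / (Q : ℝ) ^ 2 → ∀ h : ℤ, h ≠ 0 → ∀ (N : ℕ) (u : ℝ),
    1 ≤ N → 1 ≤ u → 2 * (c * u ^ m * D.factorial * |(h : ℝ)| * γ) < Q →
    2 * Q * (c * u ^ m) < (N : ℝ) ^ D →
    ‖∑ j ∈ range N, ee (h * G.eval (j : ℝ))‖ < N / u := by
  obtain ⟨c, m, hc, hI⟩ := IW_all D hD
  refine ⟨c, m, hc, ?_⟩
  intro G γ α hG hGc hγ b Q hQ hbQ hα h hh N u hN hu h1 h2
  by_contra hcon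
  rw [not_lt] at hcon
  have hu0 : 0 < u := by linarith
  have hN0 : (0 : ℝ) < N := by exact_mod_cast hN
  have hQ0 : (0 : ℝ) < Q := by exact_mod_cast hQ
  have hS : (N : ℝ) ≤ u * ‖∑ j ∈ range N, ee (h * G.eval (j : ℝ))‖ := by
    rw [div_le_iff₀ hu0] at hcon
    linarith
  obtain ⟨q, hq1, hq2, a, ha⟩ := hI N u _ _ hN hu (Ph_real D G hG h) hS
  set t : ℤ := q * D.factorial * h * γ with ht
  have htr : (t : ℝ) = q * D.factorial * h * γ := by rw [ht]; push_cast; ring
  have ht0 : t ≠ 0 := by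
    rw [ht]
    have e1 : (q : ℤ) ≠ 0 := by exact_mod_cast (by omega : q ≠ 0)
    have e2 : (D.factorial : ℤ) ≠ 0 := by exact_mod_cast D.factorial_ne_zero
    have e3 : (γ : ℤ) ≠ 0 := by exact_mod_cast hγ.ne'
    exact mul_ne_zero (mul_ne_zero (mul_ne_zero e1 e2) hh) e3
  have htabs : 2 * |(t : ℝ)| < Q := by
    refine lt_of_le_of_lt ?_ h1
    rw [htr, abs_mul, abs_mul, abs_mul, Nat.abs_cast, Nat.abs_cast, Nat.abs_cast]
    apply mul_le_mul_of_nonneg_left _ (by norm_num)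
    gcongr
  have h3 : |(t : ℝ) * α - a| ≤ c * u ^ m / (N : ℝ) ^ D := by
    have e : (t : ℝ) * α = q * (h * ((D.factorial : ℝ) * G.coeff D)) := by
      rw [htr, hGc]; ring
    rw [e]
    exact ha
  have h4 : c * u ^ m / (N : ℝ) ^ D < 1 / (2 * Q) := by
    rw [div_lt_div_iff₀ (by positivity) (by positivity)]
    linarith
  have h5 : |(t : ℝ) * (b / Q) - a| < 1 / Q := by
    have e : (t : ℝ) * (b / Q) - a = (t * α - a) - t * (α - b / Q) := by ring
    rw [e]
    refine lt_of_le_of_lt (abs_sub _ _) ?_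
    rw [abs_mul]
    have e2 : |(t : ℝ)| * |α - b / Q| ≤ 1 / (2 * Q) := by
      calc |(t : ℝ)| * |α - b / Q| ≤ (Q / 2) * (1 / (Q : ℝ) ^ 2) := by
            apply mul_le_mul _ hα (abs_nonneg _) (by positivity)
            linarith
        _ = 1 / (2 * Q) := by field_simp
    have e3 : 1 / (2 * (Q : ℝ)) + 1 / (2 * Q) = 1 / Q := by field_simp; norm_num
    linarith
  have h6 : |(t : ℝ) * b - a * Q| < 1 := by
    have e : (t : ℝ) * b - a * Q = (t * (b / Q) - a) * Q := by
      field_simp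
    rw [e, abs_mul, Nat.abs_cast]
    calc |(t : ℝ) * (b / Q) - a| * Q < 1 / Q * Q := mul_lt_mul_of_pos_right h5 hQ0
      _ = 1 := by field_simp
  have h7 : t * b - a * Q = 0 := by
    rw [← Int.abs_lt_one_iff]
    exact_mod_cast h6
  have h8 : (Q : ℤ) ∣ t * b := ⟨a, by linarith⟩
  have h9 : (Q : ℤ) ∣ t := hbQ.symm.dvd_of_dvd_mul_right h8
  have h10 := Int.le_of_dvd (abs_pos.2 ht0) ((dvd_abs _ _).2 h9)
  have h11 : (Q : ℝ) ≤ |(t : ℝ)| := by exact_mod_cast h10
  linarith [abs_nonneg (t : ℝ)]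

end Pool.Agent.V7H99.CD
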