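import Mathlib
import Pool.Agent.V7H99.CD.Sv
import Pool.Agent.V7H99.CD.Wy
import Pool.Agent.V7H99.CD.Fam

set_option autoImplicit false

/-! Exponential sums over residue classes along the family. -/

namespace Pool.Agent.V7H99.CD
open Finset Polynomial
open Pool.Agent.Helper602.MK (ee)
open Pool.Agent.Helper602.MK.N_J5b (ee_add ee_zero ee_conj norm_ee ee_int ee_nat_mul)

lemma class_image (V d r : ℕ) (hd : 1 ≤ d) (hdV : d ≤ V) : ∃ s N : ℕ, 1 ≤ s ∧ s ≤ d ∧ 1 ≤ N ∧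
    N ≤ V ∧ (V : ℝ) / d - 1 ≤ N ∧
    (Icc 1 V).filter (fun v => v ≡ r [MOD d]) = (range N).image (fun j => s + d * j) := by
  set s := (r + d - 1) % d + 1 with hs
  have hs1 : 1 ≤ s := by omega
  have hsd : s ≤ d := by
    have := Nat.mod_lt (r + d - 1) (show 0 < d by omega)
    omega
  have hsr : s ≡ r [MOD d] := by
    have h1 : (r + d - 1) % d + 1 ≡ (r + d - 1) + 1 [MOD d] := (Nat.mod_modEq _ _).add_right 1
    have h2 : (r + d - 1) + 1 = r + d := by omega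
    rw [h2] at h1
    exact h1.trans (by simp [Nat.ModEq])
  refine ⟨s, (V - s) / d + 1, hs1, hsd, Nat.le_add_left 1 _, ?_, ?_, ?_⟩
  · have : (V - s) / d ≤ V - s := Nat.div_le_self _ _
    omega
  · have h1 : V - s < d * ((V - s) / d + 1) := by
      have := Nat.lt_mul_div_succ (V - s) (show 0 < d by omega)
      exact this
    have h2 : V ≤ d * ((V - s) / d + 1) + d := by omega
    have hd0 : (0 : ℝ) < d := by exact_mod_cast (by omega : 0 < d)
    have h3 : (V : ℝ) ≤ d * (((V - s) / d + 1 : ℕ) : ℝ) + d := by exact_mod_cast h2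
    have h4 : (V : ℝ) / d ≤ (((V - s) / d + 1 : ℕ) : ℝ) + 1 := by
      rw [div_le_iff₀ hd0]
      linarith
    linarith
  · ext v
    rw [mem_filter, mem_Icc, mem_image]
    constructor
    · rintro ⟨⟨h1, h2⟩, h3⟩
      have h4 : v ≡ s [MOD d] := h3.trans hsr.symm
      have h5 : s ≤ v := by
        by_contra hlt
        have h6 : d ∣ s - v := (Nat.modEq_iff_dvd' (by omega)).1 h4
        have := Nat.le_of_dvd (by omega) h6
        omega
      obtain ⟨j, hj⟩ := (Nat.modEq_iff_dvd' h5).1 h4.symm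
      refine ⟨j, ?_, by omega⟩
      rw [mem_range]
      have h7 : j ≤ (V - s) / d := by
        rw [Nat.le_div_iff_mul_le (by omega)]
        rw [mul_comm]
        omega
      omega
    · rintro ⟨j, hj, rfl⟩
      rw [mem_range] at hj
      have h7 : j ≤ (V - s) / d := by omega
      rw [Nat.le_div_iff_mul_le (by omega), mul_comm] at h7
      refine ⟨⟨by omega, by omega⟩, ?_⟩
      refine Nat.ModEq.trans ?_ hsr
      simp [Nat.ModEq]

lemma nn_real {W n0 : ℕ} (hW : 2 ≤ W) (h : n0 < W ^ 4) (v : ℕ) :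
    (nn W n0 v : ℝ) = (W : ℝ) ^ 4 * ((W : ℝ) ^ 4 * (v + 1) - n0) ^ 3 - ((W : ℝ) ^ 4 * (v + 1) - n0) := by
  have h1 := nn_add hW h v
  have h2 := uu_add h v
  have h3 : (nn W n0 v : ℝ) + uu W n0 v = (W : ℝ) ^ 4 * (uu W n0 v : ℝ) ^ 3 := by exact_mod_cast h1
  have h4 : (uu W n0 v : ℝ) = (W : ℝ) ^ 4 * (v + 1) - n0 := by
    have : (uu W n0 v : ℝ) + n0 = (W : ℝ) ^ 4 * (v + 1) := by exact_mod_cast h2
    linarith
  rw [h4] at h3
  linarith

/-- the cubic polynomial giving the family along a progression -/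
noncomputable def cub (W n0 s d : ℕ) : ℝ[X] :=
  C ((W : ℝ) ^ 4 * ((W : ℝ) ^ 4 * d) ^ 3) * X ^ 3 +
  C (3 * (W : ℝ) ^ 4 * ((W : ℝ) ^ 4 * d) ^ 2 * ((W : ℝ) ^ 4 * (s + 1) - n0)) * X ^ 2 +
  C (3 * (W : ℝ) ^ 4 * ((W : ℝ) ^ 4 * d) * ((W : ℝ) ^ 4 * (s + 1) - n0) ^ 2 - (W : ℝ) ^ 4 * d) * X +
  C ((W : ℝ) ^ 4 * ((W : ℝ) ^ 4 * (s + 1) - n0) ^ 3 - ((W : ℝ) ^ 4 * (s + 1) - n0))

lemma cub_eval {W n0 : ℕ} (hW : 2 ≤ W) (h : n0 < W ^ 4) (s d j : ℕ) :
    (cub W n0 s d).eval (j : ℝ) = (nn W n0 (s + d * j) : ℝ) := by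
  rw [nn_real hW h]
  unfold cub
  simp only [eval_add, eval_mul, eval_C, eval_pow, eval_X]
  push_cast
  ring

lemma cub_deg {W n0 s d : ℕ} (hW : 2 ≤ W) (hd : 1 ≤ d) : (cub W n0 s d).natDegree = 3 ∧
    (cub W n0 s d).leadingCoeff = (W : ℝ) ^ 4 * ((W : ℝ) ^ 4 * d) ^ 3 := by
  have hW0 : (0 : ℝ) < W := by exact_mod_cast (by omega : 0 < W)
  have hd0 : (0 : ℝ) < d := by exact_mod_cast (by omega : 0 < d)
  have h : (W : ℝ) ^ 4 * ((W : ℝ) ^ 4 * d) ^ 3 ≠ 0 := by positivity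
  exact ⟨natDegree_cubic h, leadingCoeff_cubic h⟩

theorem EH_of_minor (k : ℕ) (hk : 1 ≤ k) : ∃ c m : ℕ, 1 ≤ c ∧ ∀ (f : ℝ[X]), f.natDegree ≤ k →
    ∀ (b : ℤ) (Q : ℕ), 2 ≤ Q → IsCoprime b (Q : ℤ) → |f.coeff k - b / Q| ≤ 1 / (Q : ℝ) ^ 2 →
    ∀ (W n0 V D N : ℕ) (u : ℝ), 2 ≤ W → n0 < W ^ 4 → 1 ≤ D → 2 * D ≤ V → 1 ≤ u →
    2 * (c * u ^ m * (k * 3).factorial * N * (((W : ℝ) ^ 16 * (D : ℝ) ^ 3) ^ k)) < Q →
    2 * Q * (c * u ^ m) < ((V : ℝ) / (2 * D)) ^ (k * 3) →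
    EH V D N (fun v => f.eval (nn W n0 v : ℝ)) (V / u) := by
  obtain ⟨c, m, hc, hI⟩ := weyl_minor (k * 3) (by omega)
  refine ⟨c, m, hc, ?_⟩
  intro f hf b Q hQ hbQ hα W n0 V D N u hW hn0 hD hDV hu h1 h2 d hd hdD r h hh hN
  have hQ0 : (0 : ℝ) < Q := by exact_mod_cast (by omega : 0 < Q)
  have hQ2 : (2 : ℝ) ≤ Q := by exact_mod_cast hQ
  have hu0 : 0 < u := by linarith
  have hV0 : (0 : ℝ) ≤ V := Nat.cast_nonneg _
  -- the leading coefficient does not vanish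
  have hb0 : b ≠ 0 := by
    rintro rfl
    have : IsUnit (Q : ℤ) := (isCoprime_zero_left.1 hbQ)
    rw [Int.isUnit_iff] at this
    omega
  have hα0 : f.coeff k ≠ 0 := by
    intro h0
    rw [h0, zero_sub, abs_neg, abs_div, Nat.abs_cast, div_le_div_iff₀ hQ0 (by positivity)] at hα
    have h3 : (1 : ℝ) ≤ |(b : ℝ)| := by
      have := Int.one_le_abs hb0
      exact_mod_cast this
    have h4 : (Q : ℝ) ^ 2 ≤ |(b : ℝ)| * (Q : ℝ) ^ 2 := le_mul_of_one_le_left (by positivity) h3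
    nlinarith
  have hfk : f.natDegree = k := le_antisymm hf (le_natDegree_of_ne_zero hα0)
  obtain ⟨s, N', hs1, hsd, hN1, hNV, hNd, himg⟩ := class_image V d r hd (by omega)
  have hsum : ∑ v ∈ (Icc 1 V).filter (fun v => v ≡ r [MOD d]),
      ee (h * f.eval (nn W n0 v : ℝ)) =
      ∑ j ∈ range N', ee (h * (f.comp (cub W n0 s d)).eval (j : ℝ)) := by
    rw [himg, sum_image]
    · apply sum_congr rfl
      intro j _
      rw [eval_comp, cub_eval hW hn0]
    · intro j _ j' _ hj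
      have h3 : s + d * j = s + d * j' := hj
      have h4 : d * j = d * j' := by omega
      exact Nat.eq_of_mul_eq_mul_left (by omega) h4
  rw [hsum]
  obtain ⟨hc1, hc2⟩ := cub_deg (n0 := n0) (s := s) hW hd
  have hGd : (f.comp (cub W n0 s d)).natDegree ≤ k * 3 := by
    rw [natDegree_comp, hfk, hc1]
  have hGc : (f.comp (cub W n0 s d)).coeff (k * 3) =
      (((W ^ 4 * (W ^ 4 * d) ^ 3) ^ k : ℕ) : ℝ) * f.coeff k := by
    have := coeff_comp_degree_mul_degree (p := f) (q := cub W n0 s d) (by rw [hc1]; norm_num)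
    rw [hfk, hc1, hc2] at this
    rw [this, leadingCoeff, hfk]
    push_cast
    ring
  have hD0 : (0 : ℝ) < D := by exact_mod_cast (by omega : 0 < D)
  have hd0 : (0 : ℝ) < d := by exact_mod_cast (by omega : 0 < d)
  have hdDr : (d : ℝ) ≤ D := by exact_mod_cast hdD
  have hW0 : (0 : ℝ) < W := by exact_mod_cast (by omega : 0 < W)
  have key := hI (f.comp (cub W n0 s d)) ((W ^ 4 * (W ^ 4 * d) ^ 3) ^ k) (f.coeff k) hGd hGc
    (by positivity) b Q (by omega) hbQ hα h hh N' u hN1 hu (by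
      refine lt_of_le_of_lt ?_ h1
      apply mul_le_mul_of_nonneg_left _ (by norm_num)
      have e1 : |(h : ℝ)| ≤ N := by exact_mod_cast hN
      have e2 : (((W ^ 4 * (W ^ 4 * d) ^ 3) ^ k : ℕ) : ℝ) ≤ ((W : ℝ) ^ 16 * (D : ℝ) ^ 3) ^ k := by
        push_cast
        apply pow_le_pow_left₀ (by positivity)
        calc (W : ℝ) ^ 4 * ((W : ℝ) ^ 4 * d) ^ 3 = (W : ℝ) ^ 16 * (d : ℝ) ^ 3 := by ring
          _ ≤ (W : ℝ) ^ 16 * (D : ℝ) ^ 3 := by gcongr
      have e3 : (0 : ℝ) ≤ c * u ^ m * (k * 3).factorial := by positivity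
      calc c * u ^ m * (k * 3).factorial * |(h : ℝ)| * (((W ^ 4 * (W ^ 4 * d) ^ 3) ^ k : ℕ) : ℝ)
          ≤ c * u ^ m * (k * 3).factorial * N * (((W ^ 4 * (W ^ 4 * d) ^ 3) ^ k : ℕ) : ℝ) := by
            apply mul_le_mul_of_nonneg_right _ (Nat.cast_nonneg _)
            exact mul_le_mul_of_nonneg_left e1 e3
        _ ≤ _ := by
            apply mul_le_mul_of_nonneg_left e2
            positivity) (by
      refine lt_of_lt_of_le h2 ?_
      apply pow_le_pow_left₀ (by positivity)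
      have hDV' : 2 * (D : ℝ) ≤ V := by exact_mod_cast hDV
      have e1 : (V : ℝ) / (2 * D) ≤ V / (2 * d) := by
        apply div_le_div_of_nonneg_left hV0 (by positivity)
        linarith
      have e2 : (V : ℝ) / (2 * d) ≤ V / d - 1 := by
        rw [div_le_iff₀ (by positivity)]
        have : ((V : ℝ) / d - 1) * (2 * d) = 2 * V - 2 * d := by field_simp
        rw [this]
        linarith
      linarith)
  refine key.le.trans ?_
  apply div_le_div_of_nonneg_right _ hu0.le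
  exact_mod_cast hNV

end Pool.Agent.V7H99.CD
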