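import Mathlib
import Pool.Agent.V7H99.CD.Cl

set_option autoImplicit false

/-! The three linear forms: periodicity, number of classes, squares of large primes. -/

namespace Pool.Agent.V7H99.CD
open Finset

/-- the three linear forms -/
def Lf (W n0 : ℕ) (i : Fin 3) (v : ℕ) : ℕ :=
  if i = 0 then uu W n0 v else if i = 1 then W ^ 2 * uu W n0 v - 1 else W ^ 2 * uu W n0 v + 1

lemma Lf_zero (W n0 v : ℕ) : Lf W n0 0 v = uu W n0 v := by simp [Lf]
lemma Lf_one (W n0 v : ℕ) : Lf W n0 1 v = W ^ 2 * uu W n0 v - 1 := by simp [Lf]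
lemma Lf_two (W n0 v : ℕ) : Lf W n0 2 v = W ^ 2 * uu W n0 v + 1 := by simp [Lf]

lemma Lf_all {W n0 : ℕ} (P : ℕ → Prop) (v : ℕ) : (∀ i, P (Lf W n0 i v)) ↔
    (P (uu W n0 v) ∧ P (W ^ 2 * uu W n0 v - 1) ∧ P (W ^ 2 * uu W n0 v + 1)) := by
  rw [Fin.forall_fin_succ, Fin.forall_fin_succ, Fin.forall_fin_succ]
  simp [Lf]

lemma Lf_pos {W n0 : ℕ} (hW : 2 ≤ W) (h : n0 < W ^ 4) (i : Fin 3) (v : ℕ) : 0 < Lf W n0 i v := by
  have h1 := uu_pos h v
  have h2 := Wu_ge hW h v
  revert i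
  rw [Lf_all (fun x => 0 < x) v]
  omega

lemma Lf_le {W n0 : ℕ} (hW : 2 ≤ W) (h : n0 < W ^ 4) (i : Fin 3) (v : ℕ) :
    Lf W n0 i v ≤ W ^ 6 * (v + 1) + 1 := by
  have h1 := uu_add h v
  have h3 : uu W n0 v ≤ W ^ 4 * (v + 1) := by omega
  have h4 : W ^ 2 * uu W n0 v ≤ W ^ 6 * (v + 1) := by
    calc W ^ 2 * uu W n0 v ≤ W ^ 2 * (W ^ 4 * (v + 1)) := Nat.mul_le_mul_left _ h3
      _ = _ := by ring
  have h5 : uu W n0 v ≤ W ^ 2 * uu W n0 v := Nat.le_mul_of_pos_left _ (by positivity)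
  revert i
  rw [Lf_all (fun x => x ≤ W ^ 6 * (v + 1) + 1) v]
  omega

lemma uu_modEq {W n0 : ℕ} (h : n0 < W ^ 4) {d v v' : ℕ} (hv : v ≡ v' [MOD d]) :
    uu W n0 v ≡ uu W n0 v' [MOD d] := by
  have h1 := uu_add h v
  have h2 := uu_add h v'
  have h3 : uu W n0 v + n0 ≡ uu W n0 v' + n0 [MOD d] := by
    rw [h1, h2]
    exact (hv.add_right 1).mul_left _
  exact Nat.ModEq.add_right_cancel' _ h3

lemma Lf_modEq {W n0 : ℕ} (hW : 2 ≤ W) (h : n0 < W ^ 4) {d v v' : ℕ} (hv : v ≡ v' [MOD d])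
    (i : Fin 3) : Lf W n0 i v ≡ Lf W n0 i v' [MOD d] := by
  have h1 := uu_modEq h hv
  have h2 : W ^ 2 * uu W n0 v ≡ W ^ 2 * uu W n0 v' [MOD d] := h1.mul_left _
  have h3 := Wu_ge hW h v
  have h4 := Wu_ge hW h v'
  fin_cases i
  · exact h1
  · show W ^ 2 * uu W n0 v - 1 ≡ W ^ 2 * uu W n0 v' - 1 [MOD d]
    apply Nat.ModEq.add_right_cancel' 1
    rw [Nat.sub_add_cancel (by omega), Nat.sub_add_cancel (by omega)]
    exact h2
  · exact h2.add_right 1

lemma uu_uniq {W n0 : ℕ} (h : n0 < W ^ 4) {d v v' : ℕ} (hd : Nat.Coprime d W)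
    (hv : uu W n0 v ≡ uu W n0 v' [MOD d]) : v ≡ v' [MOD d] := by
  have h1 := uu_add h v
  have h2 := uu_add h v'
  have h3 : W ^ 4 * (v + 1) ≡ W ^ 4 * (v' + 1) [MOD d] := by
    rw [← h1, ← h2]
    exact hv.add_right _
  have h4 : v + 1 ≡ v' + 1 [MOD d] := Nat.ModEq.cancel_left_of_coprime (hd.pow_right 4) h3
  exact Nat.ModEq.add_right_cancel' _ h4

lemma Lf_uniq {W n0 : ℕ} (hW : 2 ≤ W) (h : n0 < W ^ 4) {d v v' : ℕ} (hd : Nat.Coprime d W)
    (i : Fin 3) (h1 : d ∣ Lf W n0 i v) (h2 : d ∣ Lf W n0 i v') : v ≡ v' [MOD d] := by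
  have h3 : Lf W n0 i v ≡ Lf W n0 i v' [MOD d] :=
    (Nat.modEq_zero_iff_dvd.2 h1).trans (Nat.modEq_zero_iff_dvd.2 h2).symm
  have h5 := Wu_ge hW h v
  have h6 := Wu_ge hW h v'
  apply uu_uniq h hd
  have key : W ^ 2 * uu W n0 v ≡ W ^ 2 * uu W n0 v' [MOD d] → uu W n0 v ≡ uu W n0 v' [MOD d] :=
    fun h7 => Nat.ModEq.cancel_left_of_coprime (hd.pow_right 2) h7
  fin_cases i
  · exact h3
  · apply key
    have h7 : W ^ 2 * uu W n0 v - 1 ≡ W ^ 2 * uu W n0 v' - 1 [MOD d] := h3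
    have h8 := h7.add_right 1
    rwa [Nat.sub_add_cancel (by omega), Nat.sub_add_cancel (by omega)] at h8
  · apply key
    exact Nat.ModEq.add_right_cancel' 1 h3

/-- the sieve condition -/
def hit (W n0 p v : ℕ) : Prop := ¬ p ∣ W ∧ ∃ i, p ∣ Lf W n0 i v

lemma hit_per {W n0 : ℕ} (hW : 2 ≤ W) (h : n0 < W ^ 4) (p n : ℕ) :
    hit W n0 p n ↔ hit W n0 p (n % p) := by
  unfold hit
  apply and_congr_right
  intro _
  apply exists_congr
  intro i
  exact (Lf_modEq hW h (Nat.mod_modEq n p).symm i).dvd_iff dvd_rfl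

lemma hit_few {W n0 : ℕ} (hW : 2 ≤ W) (h : n0 < W ^ 4) (p : ℕ) (hp : p.Prime) :
    nu (hit W n0) p ≤ 3 := by
  classical
  unfold nu
  by_cases hpW : p ∣ W
  · rw [filter_eq_empty_iff.2]
    · simp
    · intro v _ hv
      exact hv.1 hpW
  · have hco : Nat.Coprime p W := (Nat.Prime.coprime_iff_not_dvd hp).2 hpW
    have hsub : (range p).filter (fun a => hit W n0 p a) ⊆
        (univ : Finset (Fin 3)).biUnion (fun i => (range p).filter (fun a => p ∣ Lf W n0 i a)) := by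
      intro a ha
      rw [mem_filter] at ha
      obtain ⟨h1, -, i, h2⟩ := ha
      exact mem_biUnion.2 ⟨i, mem_univ _, mem_filter.2 ⟨h1, h2⟩⟩
    calc _ ≤ _ := card_le_card hsub
      _ ≤ ∑ i : Fin 3, ((range p).filter (fun a => p ∣ Lf W n0 i a)).card := card_biUnion_le
      _ ≤ ∑ _i : Fin 3, 1 := by
          apply sum_le_sum
          intro i _
          rw [card_le_one]
          intro a ha b hb
          rw [mem_filter, mem_range] at ha hb
          have h1 := Lf_uniq hW h hco i ha.2 hb.2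
          exact Nat.ModEq.eq_of_lt_of_lt h1 ha.1 hb.1
      _ = 3 := by simp

/-- divisibility by the square of a large prime -/
def bad (W n0 y v : ℕ) : Prop := ∃ p : ℕ, p.Prime ∧ ¬ p ∣ W ∧ y < p ∧ ∃ i, p ^ 2 ∣ Lf W n0 i v

lemma cls_wt {V D N : ℕ} {φ : ℕ → ℝ} {B : ℝ} (hB : 0 ≤ B) (hE : EH V D N φ B) (d : ℕ)
    (hd : 1 ≤ d) (hdD : d ≤ D) (P : ℕ → Prop) [DecidablePred P] (hP : ∀ v v', P v → P v' → v ≡ v' [MOD d]) :
    ∑ v ∈ (Icc 1 V).filter P, kern N (φ v) ≤ cf N N * ((V : ℝ) / d + 1) + B := by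
  by_cases he : ((Icc 1 V).filter P) = ∅
  · rw [he, sum_empty]
    have := cf_nonneg N N
    positivity
  · obtain ⟨r, hr⟩ := nonempty_iff_ne_empty.2 he
    rw [mem_filter] at hr
    refine le_trans ?_ (EH_class hB hE d hd hdD r)
    apply sum_le_sum_of_subset_of_nonneg
    · intro v hv
      rw [mem_filter] at hv ⊢
      exact ⟨hv.1, hP v r hv.2 hr.2⟩
    · intro v _ _
      exact kern_nonneg _ _

lemma cls_card (V d : ℕ) (hd : 1 ≤ d) (P : ℕ → Prop) [DecidablePred P] (hP : ∀ v v', P v → P v' → v ≡ v' [MOD d]) :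
    (((Icc 1 V).filter P).card : ℝ) ≤ (V : ℝ) / d + 1 := by
  by_cases he : ((Icc 1 V).filter P) = ∅
  · rw [he]
    simp only [card_empty, Nat.cast_zero]
    positivity
  · obtain ⟨r, hr⟩ := nonempty_iff_ne_empty.2 he
    rw [mem_filter] at hr
    have h2 := (abs_le.1 (Pool.Agent.H373R2.T7.count_class V d r hd)).2
    have h3 : ((Icc 1 V).filter P).card ≤ ((Icc 1 V).filter (fun v => v ≡ r [MOD d])).card := by
      apply card_le_card
      intro v hv
      rw [mem_filter] at hv ⊢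
      exact ⟨hv.1, hP v r hv.2 hr.2⟩
    have h4 : (((Icc 1 V).filter P).card : ℝ) ≤
        (((Icc 1 V).filter (fun v => v ≡ r [MOD d])).card : ℝ) := by exact_mod_cast h3
    linarith

lemma sum_sq_le (a b : ℕ) (ha : 1 ≤ a) (S : Finset ℕ) (hS : S ⊆ Ioc a b) :
    ∑ p ∈ S, 1 / (p : ℝ) ^ 2 ≤ 1 / (a : ℝ) := by
  rcases Nat.lt_or_ge b a with h | h
  · have : S = ∅ := by
      rw [← subset_empty]
      refine hS.trans ?_
      rw [Ioc_eq_empty (by omega)]
    subst this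
    rw [sum_empty]
    positivity
  · have h1 := sum_Ioc_inv_sq_le_sub (α := ℝ) (show a ≠ 0 by omega) h
    calc ∑ p ∈ S, 1 / (p : ℝ) ^ 2 ≤ ∑ p ∈ Ioc a b, 1 / (p : ℝ) ^ 2 :=
          sum_le_sum_of_subset_of_nonneg hS (fun _ _ _ => by positivity)
      _ = ∑ p ∈ Ioc a b, ((p : ℝ) ^ 2)⁻¹ := by simp only [one_div]
      _ ≤ (a : ℝ)⁻¹ - (b : ℝ)⁻¹ := h1
      _ ≤ 1 / (a : ℝ) := by
          rw [one_div]
          have : (0 : ℝ) ≤ (b : ℝ)⁻¹ := by positivity
          linarith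

open Classical in
/-- the weight of the bad values -/
theorem bad_wt {W n0 : ℕ} (hW : 2 ≤ W) (hn0 : n0 < W ^ 4) {V D N : ℕ} {φ : ℕ → ℝ} {B : ℝ}
    (hB : 0 ≤ B) (hE : EH V D N φ B) (y P1 Pm : ℕ) (hy : 1 ≤ y) (hP1 : 1 ≤ P1) (hPD : P1 ^ 2 ≤ D)
    (hPm : W ^ 6 * (V + 1) + 1 < (Pm + 1) ^ 2) :
    ∑ v ∈ (Icc 1 V).filter (fun v => bad W n0 y v), kern N (φ v) ≤
      3 * cf N N * V / y + 3 * P1 * (1 + B) + (3 * V / P1 + 3 * Pm) := by
  set S1 := (Ioc y P1).filter (fun p => p.Prime ∧ ¬ p ∣ W) with hS1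
  set S2 := (Ioc P1 Pm).filter (fun p => p.Prime ∧ ¬ p ∣ W) with hS2
  set w := fun v => kern N (φ v) with hw
  have hw0 : ∀ v, 0 ≤ w v := fun v => kern_nonneg _ _
  have hw1 : ∀ v, w v ≤ 1 := fun v => kern_le_one _ _
  have hpt : ∀ v ∈ (Icc 1 V).filter (fun v => bad W n0 y v), w v ≤
      ∑ p ∈ S1, ∑ i : Fin 3, (if p ^ 2 ∣ Lf W n0 i v then w v else 0) +
      ∑ p ∈ S2, ∑ i : Fin 3, (if p ^ 2 ∣ Lf W n0 i v then (1 : ℝ) else 0) := by
    intro v hv
    rw [mem_filter, mem_Icc] at hv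
    obtain ⟨⟨hv1, hv2⟩, p, hp, hpW, hyp, i, hi⟩ := hv
    have n1 : 0 ≤ ∑ p ∈ S1, ∑ i : Fin 3, (if p ^ 2 ∣ Lf W n0 i v then w v else 0) :=
      sum_nonneg fun _ _ => sum_nonneg fun _ _ => by split_ifs <;> [exact hw0 v; exact le_rfl]
    have n2 : 0 ≤ ∑ p ∈ S2, ∑ i : Fin 3, (if p ^ 2 ∣ Lf W n0 i v then (1 : ℝ) else 0) :=
      sum_nonneg fun _ _ => sum_nonneg fun _ _ => by split_ifs <;> norm_num
    by_cases hpP : p ≤ P1
    · have hpS : p ∈ S1 := by
        rw [hS1, mem_filter, mem_Ioc]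
        exact ⟨⟨hyp, hpP⟩, hp, hpW⟩
      have e1 : w v ≤ ∑ i : Fin 3, (if p ^ 2 ∣ Lf W n0 i v then w v else 0) := by
        have := single_le_sum (f := fun i : Fin 3 => if p ^ 2 ∣ Lf W n0 i v then w v else 0)
          (s := univ) (fun _ _ => by
            show (0 : ℝ) ≤ _
            split_ifs <;> [exact hw0 v; exact le_rfl]) (mem_univ i)
        simp only [if_pos hi] at this
        exact this
      have e2 := single_le_sum
        (f := fun p => ∑ i : Fin 3, (if p ^ 2 ∣ Lf W n0 i v then w v else 0))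
        (s := S1) (fun _ _ => sum_nonneg fun _ _ => by
            split_ifs <;> [exact hw0 v; exact le_rfl]) hpS
      have e3 := e1.trans e2
      linarith
    · have hpS : p ∈ S2 := by
        rw [hS2, mem_filter, mem_Ioc]
        refine ⟨⟨by omega, ?_⟩, hp, hpW⟩
        have h1 : p ^ 2 ≤ Lf W n0 i v := Nat.le_of_dvd (Lf_pos hW hn0 i v) hi
        have h2 := Lf_le hW hn0 i v
        have h3 : W ^ 6 * (v + 1) ≤ W ^ 6 * (V + 1) := Nat.mul_le_mul_left _ (by omega)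
        have h4 : p ^ 2 < (Pm + 1) ^ 2 := by omega
        have := lt_of_pow_lt_pow_left₀ 2 (by omega) h4
        omega
      have e1 : (1 : ℝ) ≤ ∑ i : Fin 3, (if p ^ 2 ∣ Lf W n0 i v then (1 : ℝ) else 0) := by
        have := single_le_sum (f := fun i : Fin 3 => if p ^ 2 ∣ Lf W n0 i v then (1 : ℝ) else 0)
          (s := univ) (fun _ _ => by
            show (0 : ℝ) ≤ _
            split_ifs <;> norm_num) (mem_univ i)
        simp only [if_pos hi] at this
        exact this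
      have e2 := single_le_sum
        (f := fun p => ∑ i : Fin 3, (if p ^ 2 ∣ Lf W n0 i v then (1 : ℝ) else 0))
        (s := S2) (fun _ _ => sum_nonneg fun _ _ => by split_ifs <;> norm_num) hpS
      have e3 := (hw1 v).trans (e1.trans e2)
      linarith
  have hsum := sum_le_sum hpt
  rw [sum_add_distrib] at hsum
  -- enlarge to all v
  have g1 : ∑ v ∈ (Icc 1 V).filter (fun v => bad W n0 y v),
      ∑ p ∈ S1, ∑ i : Fin 3, (if p ^ 2 ∣ Lf W n0 i v then w v else 0) ≤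
      ∑ p ∈ S1, ∑ i : Fin 3, ∑ v ∈ (Icc 1 V).filter (fun v => p ^ 2 ∣ Lf W n0 i v), w v := by
    calc _ ≤ ∑ v ∈ Icc 1 V, ∑ p ∈ S1, ∑ i : Fin 3, (if p ^ 2 ∣ Lf W n0 i v then w v else 0) := by
          apply sum_le_sum_of_subset_of_nonneg (filter_subset _ _)
          intro v _ _
          exact sum_nonneg fun _ _ => sum_nonneg fun _ _ => by
            split_ifs <;> [exact hw0 v; exact le_rfl]
      _ = _ := by
          rw [sum_comm]
          apply sum_congr rfl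
          intro p _
          rw [sum_comm]
          apply sum_congr rfl
          intro i _
          rw [sum_filter]
  have g2 : ∑ v ∈ (Icc 1 V).filter (fun v => bad W n0 y v),
      ∑ p ∈ S2, ∑ i : Fin 3, (if p ^ 2 ∣ Lf W n0 i v then (1 : ℝ) else 0) ≤
      ∑ p ∈ S2, ∑ i : Fin 3, (((Icc 1 V).filter (fun v => p ^ 2 ∣ Lf W n0 i v)).card : ℝ) := by
    calc _ ≤ ∑ v ∈ Icc 1 V, ∑ p ∈ S2, ∑ i : Fin 3, (if p ^ 2 ∣ Lf W n0 i v then (1 : ℝ) else 0) := by
          apply sum_le_sum_of_subset_of_nonneg (filter_subset _ _)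
          intro v _ _
          exact sum_nonneg fun _ _ => sum_nonneg fun _ _ => by split_ifs <;> norm_num
      _ = _ := by
          rw [sum_comm]
          apply sum_congr rfl
          intro p _
          rw [sum_comm]
          apply sum_congr rfl
          intro i _
          rw [← sum_filter, sum_const, nsmul_eq_mul, mul_one]
  have hco : ∀ p : ℕ, p.Prime → ¬ p ∣ W → Nat.Coprime (p ^ 2) W := fun p hp hpW =>
    Nat.Coprime.pow_left 2 ((Nat.Prime.coprime_iff_not_dvd hp).2 hpW)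
  have hc0 := cf_nonneg N N
  have hc1 := cf_mid_le N
  have hy0 : (0 : ℝ) < y := by exact_mod_cast hy
  have hP0 : (0 : ℝ) < P1 := by exact_mod_cast hP1
  have hV0 : (0 : ℝ) ≤ V := Nat.cast_nonneg _
  have g3 : ∑ p ∈ S1, ∑ i : Fin 3, ∑ v ∈ (Icc 1 V).filter (fun v => p ^ 2 ∣ Lf W n0 i v), w v ≤
      3 * cf N N * V / y + 3 * P1 * (1 + B) := by
    calc _ ≤ ∑ p ∈ S1, ∑ _i : Fin 3, (cf N N * (V * (1 / (p : ℝ) ^ 2) + 1) + B) := by
          apply sum_le_sum
          intro p hp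
          apply sum_le_sum
          intro i _
          rw [hS1, mem_filter, mem_Ioc] at hp
          have h1 := cls_wt hB hE (p ^ 2) (Nat.pow_pos hp.2.1.pos)
            ((Nat.pow_le_pow_left hp.1.2 2).trans hPD) (fun v => p ^ 2 ∣ Lf W n0 i v)
            (fun v v' h1 h2 => Lf_uniq hW hn0 (hco p hp.2.1 hp.2.2) i h1 h2)
          refine h1.trans (le_of_eq ?_)
          push_cast
          ring
      _ = ∑ p ∈ S1, (3 * cf N N * V * (1 / (p : ℝ) ^ 2) + 3 * (cf N N + B)) := by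
          apply sum_congr rfl
          intro p _
          rw [sum_const, card_univ, Fintype.card_fin, nsmul_eq_mul]
          push_cast
          ring
      _ = 3 * cf N N * V * ∑ p ∈ S1, (1 / (p : ℝ) ^ 2) + (S1.card : ℝ) * (3 * (cf N N + B)) := by
          rw [sum_add_distrib, ← mul_sum, sum_const, nsmul_eq_mul]
      _ ≤ 3 * cf N N * V * (1 / y) + P1 * (3 * (1 + B)) := by
          apply add_le_add
          · apply mul_le_mul_of_nonneg_left _ (by positivity)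
            exact sum_sq_le y P1 hy S1 (filter_subset _ _)
          · have h1 : (S1.card : ℝ) ≤ P1 := by
              have : S1.card ≤ P1 := by
                calc S1.card ≤ (Ioc y P1).card := card_le_card (filter_subset _ _)
                  _ ≤ P1 := by rw [Nat.card_Ioc]; omega
              exact_mod_cast this
            apply mul_le_mul h1 (by linarith) (by positivity) hP0.le
      _ = _ := by ring
  have g4 : ∑ p ∈ S2, ∑ i : Fin 3, (((Icc 1 V).filter (fun v => p ^ 2 ∣ Lf W n0 i v)).card : ℝ) ≤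
      3 * V / P1 + 3 * Pm := by
    calc _ ≤ ∑ p ∈ S2, ∑ _i : Fin 3, ((V : ℝ) * (1 / (p : ℝ) ^ 2) + 1) := by
          apply sum_le_sum
          intro p hp
          apply sum_le_sum
          intro i _
          rw [hS2, mem_filter, mem_Ioc] at hp
          have h1 := cls_card V (p ^ 2) (Nat.pow_pos hp.2.1.pos) (fun v => p ^ 2 ∣ Lf W n0 i v)
            (fun v v' h1 h2 => Lf_uniq hW hn0 (hco p hp.2.1 hp.2.2) i h1 h2)
          refine h1.trans (le_of_eq ?_)
          push_cast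
          ring
      _ = ∑ p ∈ S2, (3 * V * (1 / (p : ℝ) ^ 2) + 3) := by
          apply sum_congr rfl
          intro p _
          rw [sum_const, card_univ, Fintype.card_fin, nsmul_eq_mul]
          push_cast
          ring
      _ = 3 * V * ∑ p ∈ S2, (1 / (p : ℝ) ^ 2) + (S2.card : ℝ) * 3 := by
          rw [sum_add_distrib, ← mul_sum, sum_const, nsmul_eq_mul]
      _ ≤ 3 * V * (1 / P1) + Pm * 3 := by
          apply add_le_add
          · apply mul_le_mul_of_nonneg_left _ (by positivity)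
            exact sum_sq_le P1 Pm hP1 S2 (filter_subset _ _)
          · have h1 : (S2.card : ℝ) ≤ Pm := by
              have : S2.card ≤ Pm := by
                calc S2.card ≤ (Ioc P1 Pm).card := card_le_card (filter_subset _ _)
                  _ ≤ Pm := by rw [Nat.card_Ioc]; omega
              exact_mod_cast this
            linarith
      _ = _ := by ring
  linarith

end Pool.Agent.V7H99.CD
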