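import Mathlib
import Pool.Agent.Helper112.Lp.Kmg
import Pool.Agent.V7H99.CD.Sv

set_option autoImplicit false

/-! Lower bound for the sieve product. -/

namespace Pool.Agent.V7H99.CD
open Finset Filter

lemma ev_nat_pow_log (C : ℕ) (A : ℝ) : ∃ N0 : ℕ, ∀ y : ℕ, N0 ≤ y → A * Real.log y ^ C ≤ y := by
  have h1 : (fun x : ℝ => Real.log x ^ C) =o[atTop] (fun x : ℝ => x) := by
    have := isLittleO_log_rpow_rpow_atTop (s := 1) (C : ℝ) (by norm_num)
    simpa using this
  have h2 := h1.bound (show (0 : ℝ) < 1 / (|A| + 1) by positivity)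
  rw [eventually_atTop] at h2
  obtain ⟨a, ha⟩ := h2
  obtain ⟨N0, hN0⟩ := exists_nat_ge (max a 1)
  refine ⟨N0, fun y hy => ?_⟩
  have hy' : max a 1 ≤ (y : ℝ) := hN0.trans (by exact_mod_cast hy)
  have h3 := ha y ((le_max_left _ _).trans hy')
  have hy1 : (1 : ℝ) ≤ y := (le_max_right _ _).trans hy'
  rw [Real.norm_eq_abs, Real.norm_eq_abs, abs_of_nonneg (show (0 : ℝ) ≤ y by linarith)] at h3
  have h4 : 0 ≤ Real.log (y : ℝ) ^ C := pow_nonneg (Real.log_nonneg hy1) _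
  rw [abs_of_nonneg h4] at h3
  have h5 : (|A| + 1) * Real.log y ^ C ≤ y := by
    have : (|A| + 1) * (1 / (|A| + 1) * (y : ℝ)) = y := by field_simp
    calc (|A| + 1) * Real.log y ^ C ≤ (|A| + 1) * (1 / (|A| + 1) * (y : ℝ)) :=
          mul_le_mul_of_nonneg_left h3 (by positivity)
      _ = y := this
  refine le_trans ?_ h5
  apply mul_le_mul_of_nonneg_right _ h4
  have := le_abs_self A
  linarith

theorem prod_low : ∃ (C : ℕ) (N0 : ℕ), ∀ y : ℕ, N0 ≤ y → ∀ z0 : ℕ, 6 ≤ z0 → ∀ g : ℕ → ℝ,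
    (∀ p ∈ Pd z0 y, g p ≤ 3 / p) → 1 / Real.log y ^ C ≤ ∏ p ∈ Pd z0 y, (1 - g p) := by
  classical
  obtain ⟨C0, hC0, hM⟩ := Pool.Agent.Helper112.LP.mertens_group
  set K : ℝ := 1 + C0 with hK
  have hK0 : 0 < K := by positivity
  set C' : ℕ := ⌈6 * K / Real.log 2⌉₊ with hC'
  refine ⟨2 * C', 64, fun y hy z0 hz0 g hg => ?_⟩
  have hy2 : 2 ≤ y := by omega
  have hyr : (64 : ℝ) ≤ y := by exact_mod_cast hy
  set L := Real.log y with hLd
  have hlog2 : 0 < Real.log 2 := Real.log_pos (by norm_num)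
  have hlog2' : 2 / 3 < Real.log 2 := by have := Real.log_two_gt_d9; linarith
  have hL : 4 ≤ L := by
    have h1 : Real.log 64 ≤ L := Real.log_le_log (by norm_num) hyr
    have h2 : Real.log 64 = 6 * Real.log 2 := by
      rw [show (64 : ℝ) = 2 ^ 6 by norm_num, Real.log_pow]; norm_num
    linarith
  have hL0 : 0 < L := by linarith
  have hG : ∀ j, 1 ≤ j → ∑ l ∈ Pool.Agent.Helper112.LP.Gj j, (1 : ℝ) / l ≤ K := by
    intro j hj
    have h1 := (abs_le.1 (hM j hj)).2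
    have h2 : C0 / 2 ^ j ≤ C0 := div_le_self hC0.le (one_le_pow₀ (by norm_num))
    have h3 : Real.log 2 ≤ 1 := by have := Real.log_two_lt_d9; linarith
    rw [hK]
    linarith
  have hsub : Pd z0 y ⊆ (Icc 1 (JJ y)).biUnion (fun j => Pool.Agent.Helper112.LP.Gj j) := by
    intro p hp
    obtain ⟨h2, _, h1⟩ := mem_Pd.1 hp
    have h3 : p < 2 ^ 2 ^ JJ y := lt_of_le_of_lt h1 (JJ_lt y)
    have hex : ∃ j, p < 2 ^ 2 ^ j := ⟨_, h3⟩
    set j := Nat.find hex with hj
    have h4 : p < 2 ^ 2 ^ j := Nat.find_spec hex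
    have h5 : j ≤ JJ y := Nat.find_min' hex h3
    have h6 : 1 ≤ j := by
      by_contra h
      have h7 : j = 0 := by omega
      rw [h7] at h4
      have := h2.two_le
      norm_num at h4
      omega
    have h7 : 2 ^ 2 ^ (j - 1) ≤ p := by
      by_contra h
      have := Nat.find_min hex (m := j - 1) (by omega)
      omega
    rw [mem_biUnion]
    refine ⟨j, mem_Icc.2 ⟨h6, h5⟩, ?_⟩
    unfold Pool.Agent.Helper112.LP.Gj
    rw [mem_filter, mem_Ico]
    exact ⟨⟨h7, h4⟩, h2⟩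
  have hsum : ∑ p ∈ Pd z0 y, (1 : ℝ) / p ≤ JJ y * K := by
    calc ∑ p ∈ Pd z0 y, (1 : ℝ) / p ≤ ∑ p ∈ Pd z0 y, ∑ j ∈ Icc 1 (JJ y),
          (if p ∈ Pool.Agent.Helper112.LP.Gj j then (1 : ℝ) / p else 0) := by
          apply sum_le_sum
          intro p hp
          obtain ⟨j, hj, hpj⟩ := mem_biUnion.1 (hsub hp)
          have h1 := single_le_sum
            (f := fun j => if p ∈ Pool.Agent.Helper112.LP.Gj j then (1 : ℝ) / p else 0)
            (s := Icc 1 (JJ y)) (fun j _ => by split_ifs <;> positivity) hj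
          simp only [if_pos hpj] at h1
          exact h1
      _ ≤ ∑ j ∈ Icc 1 (JJ y), ∑ p ∈ Pool.Agent.Helper112.LP.Gj j, (1 : ℝ) / p := by
          rw [sum_comm]
          apply sum_le_sum
          intro j _
          rw [← sum_filter]
          apply sum_le_sum_of_subset_of_nonneg
          · intro p hp
            exact (mem_filter.1 hp).2
          · intro _ _ _
            positivity
      _ ≤ ∑ _j ∈ Icc 1 (JJ y), K := sum_le_sum fun j hj => hG j (mem_Icc.1 hj).1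
      _ = _ := by rw [sum_const, nsmul_eq_mul, Nat.card_Icc, Nat.add_sub_cancel]
  -- the product
  have hV : Real.exp (-(6 * ∑ p ∈ Pd z0 y, (1 : ℝ) / p)) ≤ ∏ p ∈ Pd z0 y, (1 - g p) := by
    rw [mul_sum, ← sum_neg_distrib, Real.exp_sum]
    apply prod_le_prod (fun _ _ => (Real.exp_pos _).le)
    intro p hp
    have hp7 : (7 : ℝ) ≤ p := by
      have := (mem_Pd.1 hp).2.1
      exact_mod_cast (by omega : 7 ≤ p)
    have hp0 : (0 : ℝ) < p := by linarith
    have hgp := hg p hp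
    have ht : 3 / (p : ℝ) ≤ 1 / 2 := by
      rw [div_le_div_iff₀ hp0 (by norm_num)]
      linarith
    have ht0 : 0 < 1 / (p : ℝ) := by positivity
    have ht3 : 3 / (p : ℝ) = 3 * (1 / p) := by ring
    rw [ht3] at ht hgp
    set t := 1 / (p : ℝ)
    have h1 : 0 < 1 - 3 * t := by linarith
    refine le_trans ?_ (show 1 - 3 * t ≤ 1 - g p by linarith)
    rw [← Real.le_log_iff_exp_le h1]
    have h2 := Real.one_sub_inv_le_log_of_pos h1
    have h3 : (1 - 3 * t)⁻¹ ≤ 1 + 6 * t := by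
      rw [inv_le_iff_one_le_mul₀ h1]
      nlinarith
    linarith
  have h2J : (2 : ℝ) ^ JJ y ≤ 4 * L := by
    have h1 : ((2 ^ JJ y : ℕ) : ℝ) ≤ ((2 * Nat.log 2 y : ℕ) : ℝ) := by exact_mod_cast JJ_pow y hy2
    push_cast at h1
    have h2 : (Nat.log 2 y : ℝ) * Real.log 2 ≤ L := by
      have h3 : (2 : ℝ) ^ Nat.log 2 y ≤ y := by
        exact_mod_cast Nat.pow_log_le_self 2 (by omega : y ≠ 0)
      have h4 := Real.log_le_log (by positivity) h3
      rwa [Real.log_pow] at h4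
    have h3 : (0 : ℝ) ≤ Nat.log 2 y := Nat.cast_nonneg _
    nlinarith
  have hJ : (JJ y : ℝ) * Real.log 2 ≤ Real.log (4 * L) := by
    have := Real.log_le_log (by positivity) h2J
    rwa [Real.log_pow] at this
  have h1 : 6 * (JJ y * K) ≤ C' * Real.log (4 * L) := by
    have h2 : 6 * K / Real.log 2 ≤ C' := Nat.le_ceil _
    have h3 : 6 * K ≤ C' * Real.log 2 := by rwa [div_le_iff₀ hlog2] at h2
    have hJ0 : (0 : ℝ) ≤ JJ y := Nat.cast_nonneg _
    calc 6 * (JJ y * K) = JJ y * (6 * K) := by ring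
      _ ≤ JJ y * (C' * Real.log 2) := mul_le_mul_of_nonneg_left h3 hJ0
      _ = C' * (JJ y * Real.log 2) := by ring
      _ ≤ _ := mul_le_mul_of_nonneg_left hJ (Nat.cast_nonneg _)
  have h2 : 1 / L ^ (2 * C') ≤ Real.exp (-(6 * ∑ p ∈ Pd z0 y, (1 : ℝ) / p)) := by
    have h3 : 1 / (4 * L) ^ C' ≤ Real.exp (-(6 * ∑ p ∈ Pd z0 y, (1 : ℝ) / p)) := by
      have e : 1 / (4 * L) ^ C' = Real.exp (-(C' * Real.log (4 * L))) := by
        rw [Real.exp_neg, ← Real.log_pow, Real.exp_log (by positivity), one_div]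
      rw [e]
      apply Real.exp_le_exp.2
      linarith
    refine le_trans ?_ h3
    apply one_div_le_one_div_of_le (by positivity)
    calc (4 * L) ^ C' ≤ (L ^ 2) ^ C' := pow_le_pow_left₀ (by positivity) (by nlinarith) _
      _ = L ^ (2 * C') := by rw [← pow_mul]
  exact h2.trans hV

end Pool.Agent.V7H99.CD
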