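import Mathlib
import Pool.Agent.V7H99.CD.Ht
import Pool.Agent.V7H99.CD.Pr

set_option autoImplicit false

/-! Counting the good parameters. -/

namespace Pool.Agent.V7H99.CD
open Finset Polynomial

lemma exists_n0 (M m0 W : ℕ) (hM : M ∣ W) (hW : 0 < W) : ∃ n0 < W ^ 4, n0 ≡ m0 [MOD M ^ 2] ∧
    ∀ p : ℕ, p.Prime → p ∣ W → ¬ p ∣ M → n0 ≡ 1 [MOD p] := by
  classical
  set r := ∏ p ∈ W.primeFactors.filter (fun p => ¬ p ∣ M), p with hr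
  have hco : Nat.Coprime (M ^ 2) r := by
    rw [hr]
    apply Nat.Coprime.prod_right
    intro p hp
    rw [mem_filter] at hp
    exact ((Nat.Prime.coprime_iff_not_dvd (Nat.prime_of_mem_primeFactors hp.1)).2 hp.2).symm.pow_left 2
  obtain ⟨t, ht1, ht2⟩ := Nat.chineseRemainder hco m0 1
  have hMW : M ^ 2 ∣ W ^ 4 := (pow_dvd_pow_of_dvd hM 2).trans (pow_dvd_pow W (by norm_num))
  have hmod : t % W ^ 4 ≡ t [MOD W ^ 4] := Nat.mod_modEq _ _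
  refine ⟨t % W ^ 4, Nat.mod_lt _ (by positivity), (hmod.of_dvd hMW).trans ht1, ?_⟩
  intro p hp hpW hpM
  have h1 : p ∣ r := by
    rw [hr]
    apply dvd_prod_of_mem (fun p => p)
    rw [mem_filter, Nat.mem_primeFactors]
    exact ⟨⟨hp, hpW, by omega⟩, hpM⟩
  exact (hmod.of_dvd (hpW.trans (dvd_pow_self W (by norm_num)))).trans (ht2.of_dvd h1)

open Classical in
/-- the good parameters -/
noncomputable def Gd (W n0 z0 y V : ℕ) (φ : ℕ → ℝ) : Finset ℕ := (Icc 1 V).filter (fun v =>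
  (∀ p ∈ Pd z0 y, ¬ hit W n0 p v) ∧ ¬ bad W n0 y v ∧ ∃ z : ℤ, |φ v - z| ≤ 1 / (y : ℝ))

open Classical in
lemma split_sum (W n0 z0 y V N : ℕ) (φ : ℕ → ℝ) (hy : 1 ≤ y) :
    ∑ v ∈ (Icc 1 V).filter (fun v => ∀ p ∈ Pd z0 y, ¬ hit W n0 p v), kern N (φ v) ≤
      ((Gd W n0 z0 y V φ).card : ℝ) + ∑ v ∈ (Icc 1 V).filter (fun v => bad W n0 y v), kern N (φ v) +
      V * Real.exp (-(4 * N * (1 / (y : ℝ)) ^ 2)) := by
  set E := Real.exp (-(4 * N * (1 / (y : ℝ)) ^ 2)) with hE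
  have hE0 : 0 < E := Real.exp_pos _
  have e1 : ((Gd W n0 z0 y V φ).card : ℝ) = ∑ v ∈ Icc 1 V, (if (∀ p ∈ Pd z0 y, ¬ hit W n0 p v) ∧
      ¬ bad W n0 y v ∧ ∃ z : ℤ, |φ v - z| ≤ 1 / (y : ℝ) then (1 : ℝ) else 0) := by
    unfold Gd
    rw [← sum_filter, sum_const, nsmul_eq_mul, mul_one]
  have e2 : (V : ℝ) * E = ∑ v ∈ Icc 1 V, E := by
    rw [sum_const, Nat.card_Icc, nsmul_eq_mul, Nat.add_sub_cancel]
  rw [e1, e2, sum_filter, sum_filter, ← sum_add_distrib, ← sum_add_distrib]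
  apply sum_le_sum
  intro v _
  have hk0 := kern_nonneg N (φ v)
  have hk1 := kern_le_one N (φ v)
  by_cases h1 : ∀ p ∈ Pd z0 y, ¬ hit W n0 p v
  · rw [if_pos h1]
    by_cases h2 : bad W n0 y v
    · rw [if_pos h2]
      split_ifs <;> linarith
    · rw [if_neg h2]
      by_cases h3 : ∃ z : ℤ, |φ v - z| ≤ 1 / (y : ℝ)
      · rw [if_pos ⟨h1, h2, h3⟩]
        linarith
      · rw [if_neg (fun h => h3 h.2.2)]
        have h4 : kern N (φ v) ≤ E := by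
          apply kern_far N (φ v) (1 / (y : ℝ)) (by positivity)
          intro z
          by_contra hlt
          rw [not_le] at hlt
          exact h3 ⟨z, hlt.le⟩
        linarith
  · rw [if_neg h1]
    split_ifs <;> linarith

/-- the numerical inequality -/
lemma numeric (e w a : ℕ) (hw : w = 2 * e + 20) (ha : w + 20 ≤ 2 * a) (y : ℕ) (hy : 100 ≤ y)
    (hexp : Real.exp (-(4 * (y : ℝ))) ≤ 1 / (y : ℝ) ^ 10) (c0 P : ℝ) (hc0 : 1 / (2 * (y : ℝ) ^ 3) ≤ c0)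
    (hc1 : c0 ≤ 1) (hP : 48 / (y : ℝ) ≤ P) (S bad G : ℝ)
    (hS : 1 / 2 * (c0 * (y : ℝ) ^ (2 * a) * P) -
      2 * y * ((y : ℝ) ^ e * (y : ℝ) ^ e * (1 + (y : ℝ) ^ (2 * a) / (y : ℝ) ^ w)) ≤ S)
    (hbad : bad ≤ 3 * c0 * (y : ℝ) ^ (2 * a) / y +
      3 * (y : ℝ) ^ 10 * (1 + (y : ℝ) ^ (2 * a) / (y : ℝ) ^ w) +
      (3 * (y : ℝ) ^ (2 * a) / (y : ℝ) ^ 10 + 3 * (y : ℝ) ^ (a + 7)))
    (hG : S ≤ G + bad + (y : ℝ) ^ (2 * a) * Real.exp (-(4 * (y : ℝ)))) :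
    (y : ℝ) ^ (2 * a - 4) ≤ G := by
  have hyr : (100 : ℝ) ≤ y := by exact_mod_cast hy
  have hy0 : (0 : ℝ) < y := by linarith
  have hy1 : (1 : ℝ) ≤ y := by linarith
  set V : ℝ := (y : ℝ) ^ (2 * a) with hV
  have hV0 : 0 < V := by positivity
  have hVw : (y : ℝ) ^ w ≤ V := pow_le_pow_right₀ hy1 (by omega)
  have hB1 : 1 ≤ V / (y : ℝ) ^ w := by rw [one_le_div (by positivity)]; exact hVw
  have hB : 1 + V / (y : ℝ) ^ w ≤ 2 * (V / (y : ℝ) ^ w) := by linarith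
  -- the error of the sieve
  have t1 : 2 * (y : ℝ) * ((y : ℝ) ^ e * (y : ℝ) ^ e * (1 + V / (y : ℝ) ^ w)) ≤ 4 * V / (y : ℝ) ^ 19 := by
    calc 2 * (y : ℝ) * ((y : ℝ) ^ e * (y : ℝ) ^ e * (1 + V / (y : ℝ) ^ w)) ≤
        2 * (y : ℝ) * ((y : ℝ) ^ e * (y : ℝ) ^ e * (2 * (V / (y : ℝ) ^ w))) := by gcongr
      _ = 4 * V / (y : ℝ) ^ 19 := by
          rw [hw, show 2 * e + 20 = e + e + 1 + 19 by ring, pow_add, pow_add, pow_add, pow_one]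
          field_simp
          ring
  have t2 : 3 * (y : ℝ) ^ 10 * (1 + V / (y : ℝ) ^ w) ≤ 6 * V / (y : ℝ) ^ 10 := by
    have h1 : (y : ℝ) ^ 20 ≤ (y : ℝ) ^ w := pow_le_pow_right₀ hy1 (by omega)
    calc 3 * (y : ℝ) ^ 10 * (1 + V / (y : ℝ) ^ w) ≤ 3 * (y : ℝ) ^ 10 * (2 * (V / (y : ℝ) ^ w)) := by
          gcongr
      _ ≤ 3 * (y : ℝ) ^ 10 * (2 * (V / (y : ℝ) ^ 20)) := by gcongr
      _ = 6 * V / (y : ℝ) ^ 10 := by field_simp; ring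
  have t3 : 3 * (y : ℝ) ^ (a + 7) ≤ 3 * V / (y : ℝ) ^ 10 := by
    rw [le_div_iff₀ (by positivity), mul_assoc, ← pow_add]
    have : (y : ℝ) ^ (a + 7 + 10) ≤ V := pow_le_pow_right₀ hy1 (by omega)
    linarith
  have t4 : V * Real.exp (-(4 * (y : ℝ))) ≤ V / (y : ℝ) ^ 10 := by
    calc V * Real.exp (-(4 * (y : ℝ))) ≤ V * (1 / (y : ℝ) ^ 10) := mul_le_mul_of_nonneg_left hexp hV0.le
      _ = _ := by ring
  have t5 : 4 * V / (y : ℝ) ^ 19 ≤ 4 * V / (y : ℝ) ^ 10 := by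
    apply div_le_div_of_nonneg_left (by positivity) (by positivity)
    exact pow_le_pow_right₀ hy1 (by norm_num)
  have hc00 : 0 < c0 := lt_of_lt_of_le (by positivity) hc0
  -- the main term
  have m1 : 24 * (c0 * V / y) ≤ 1 / 2 * (c0 * V * P) := by
    have : c0 * V * (48 / y) ≤ c0 * V * P := mul_le_mul_of_nonneg_left hP (by positivity)
    calc 24 * (c0 * V / y) = 1 / 2 * (c0 * V * (48 / y)) := by ring
      _ ≤ _ := by linarith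
  have m2 : V / (2 * (y : ℝ) ^ 4) ≤ c0 * V / y := by
    calc V / (2 * (y : ℝ) ^ 4) = (1 / (2 * (y : ℝ) ^ 3)) * V / y := by field_simp
      _ ≤ _ := by gcongr
  have m3 : 3 * c0 * V / y = 3 * (c0 * V / y) := by ring
  -- the errors are small
  have s1 : 17 * V / (y : ℝ) ^ 10 ≤ V / (2 * (y : ℝ) ^ 4) := by
    rw [div_le_div_iff₀ (by positivity) (by positivity)]
    have h1 : (34 : ℝ) ≤ (y : ℝ) ^ 6 := by
      calc (34 : ℝ) ≤ y := by linarith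
        _ = (y : ℝ) ^ 1 := (pow_one _).symm
        _ ≤ (y : ℝ) ^ 6 := pow_le_pow_right₀ hy1 (by norm_num)
    calc 17 * V * (2 * (y : ℝ) ^ 4) = V * (y : ℝ) ^ 4 * 34 := by ring
      _ ≤ V * (y : ℝ) ^ 4 * (y : ℝ) ^ 6 := by gcongr
      _ = V * (y : ℝ) ^ 10 := by ring
  have hfin : (y : ℝ) ^ (2 * a - 4) = V / (y : ℝ) ^ 4 := by
    rw [eq_div_iff (by positivity), ← pow_add, hV]
    congr 1
    omega
  rw [hfin]
  have u1 : V / (2 * (y : ℝ) ^ 4) = 1 / 2 * (V / (y : ℝ) ^ 4) := by ring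
  rw [u1] at s1 m2
  have u2 : 17 * V / (y : ℝ) ^ 10 = 4 * V / (y : ℝ) ^ 10 + 6 * V / (y : ℝ) ^ 10 +
    3 * V / (y : ℝ) ^ 10 + 3 * V / (y : ℝ) ^ 10 + V / (y : ℝ) ^ 10 := by ring
  rw [u2] at s1
  rw [m3] at hbad
  have hq : 0 ≤ V / (y : ℝ) ^ 4 := by positivity
  nlinarith

end Pool.Agent.V7H99.CD
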