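import Mathlib
import Pool.Agent.V7H99.CD.M1

set_option autoImplicit false

/-! The number of good parameters on minor arcs. -/

namespace Pool.Agent.V7H99.CD
open Finset Polynomial Filter

lemma ev_exp : ∃ N0 : ℕ, ∀ y : ℕ, N0 ≤ y → Real.exp (-(4 * (y : ℝ))) ≤ 1 / (y : ℝ) ^ 10 := by
  have h := Real.tendsto_pow_mul_exp_neg_atTop_nhds_zero 10
  have h2 := h.eventually (gt_mem_nhds (show (0 : ℝ) < 1 by norm_num))
  rw [eventually_atTop] at h2
  obtain ⟨a, ha⟩ := h2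
  obtain ⟨N0, hN0⟩ := exists_nat_ge (max a 1)
  refine ⟨N0, fun y hy => ?_⟩
  have hy' : max a 1 ≤ (y : ℝ) := hN0.trans (by exact_mod_cast hy)
  have h3 := ha y ((le_max_left _ _).trans hy')
  have hy1 : (1 : ℝ) ≤ y := (le_max_right _ _).trans hy'
  have h4 : Real.exp (-(4 * (y : ℝ))) ≤ Real.exp (-(y : ℝ)) := Real.exp_le_exp.2 (by linarith)
  refine h4.trans ?_
  rw [le_div_iff₀ (by positivity)]
  have : Real.exp (-(y : ℝ)) * (y : ℝ) ^ 10 = (y : ℝ) ^ 10 * Real.exp (-(y : ℝ)) := by ring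
  rw [this]
  exact h3.le

theorem good_count (k : ℕ) (hk : 1 ≤ k) : ∃ E a0 z0 Y0 : ℕ, 2 ≤ z0 ∧ ∀ y : ℕ, Y0 ≤ y →
    ∀ a : ℕ, a0 ≤ a → ∀ W n0 : ℕ, 2 ≤ W → W ≤ y ^ 2 → n0 < W ^ 4 → ∀ f : ℝ[X], f.natDegree ≤ k →
    ∀ (b : ℤ) (Q : ℕ), IsCoprime b (Q : ℤ) → (y : ℝ) ^ E ≤ Q →
    (Q : ℝ) * (y : ℝ) ^ E ≤ (y : ℝ) ^ (6 * a * k) → |f.coeff k - b / Q| ≤ 1 / (Q : ℝ) ^ 2 →
    (y : ℝ) ^ (2 * a - 4) ≤
      ((Gd W n0 z0 y (y ^ (2 * a)) (fun v => f.eval (nn W n0 v : ℝ))).card : ℝ) := by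
  classical
  obtain ⟨C0, hC0, hsift⟩ := sift_wt
  obtain ⟨c, m, hc, hEH⟩ := EH_of_minor k hk
  obtain ⟨Cp, Np, hprod⟩ := prod_low
  obtain ⟨N1, hN1⟩ := ev_nat_pow_log Cp 48
  obtain ⟨N2, hN2⟩ := ev_exp
  set e := 2 * (C0 * C0) with he
  set w := 2 * e + 20 with hw
  set E := w * m + 4 + (92 + 3 * e) * k + 3 * k * (e + 21) with hE
  set F := 2 * c * (k * 3).factorial with hF
  refine ⟨E, w + 20, max C0 6, max (max Np N1) (max N2 (F + 100)),
    le_trans (by norm_num) (le_max_right C0 6), ?_⟩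
  intro y hy a ha W n0 hW hWy hn0 f hf b Q hbQ hQ1 hQ2 hα
  have hy1 : Np ≤ y := (le_max_left _ _).trans ((le_max_left _ _).trans hy)
  have hy2 : N1 ≤ y := (le_max_right _ _).trans ((le_max_left _ _).trans hy)
  have hy3 : N2 ≤ y := (le_max_left _ _).trans ((le_max_right _ _).trans hy)
  have hy4 : F + 100 ≤ y := (le_max_right _ _).trans ((le_max_right _ _).trans hy)
  have hy100 : 100 ≤ y := by omega
  have hyr : (100 : ℝ) ≤ y := by exact_mod_cast hy100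
  have hy0 : (0 : ℝ) < y := by linarith
  have hyone : (1 : ℝ) ≤ y := by linarith
  have hFy : (F : ℝ) < y := by exact_mod_cast (by omega : F < y)
  have hfac1 : (1 : ℝ) ≤ ((k * 3).factorial : ℝ) := by
    exact_mod_cast Nat.one_le_iff_ne_zero.2 (Nat.factorial_ne_zero _)
  have hc1r : (1 : ℝ) ≤ c := by exact_mod_cast hc
  have hFr : (F : ℝ) = 2 * c * ((k * 3).factorial : ℝ) := by rw [hF]; push_cast; ring
  have h2c : 2 * (c : ℝ) < y := by
    refine lt_of_le_of_lt ?_ hFy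
    rw [hFr]
    nlinarith
  have hQ0 : (0 : ℝ) < Q := lt_of_lt_of_le (by positivity) hQ1
  have hE1 : 1 ≤ E := by rw [hE]; omega
  have hQ2' : 2 ≤ Q := by
    have h1 : (y : ℝ) ^ 1 ≤ (y : ℝ) ^ E := pow_le_pow_right₀ hyone hE1
    rw [pow_one] at h1
    have h2 : (2 : ℝ) ≤ Q := by linarith
    exact_mod_cast h2
  set V := y ^ (2 * a) with hV
  set D := y ^ (e + 20) with hD
  set N := y ^ 3 with hN
  have hVr : (V : ℝ) = (y : ℝ) ^ (2 * a) := by rw [hV]; push_cast; rfl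
  have hDr : (D : ℝ) = (y : ℝ) ^ (e + 20) := by rw [hD]; push_cast; rfl
  have hNr : (N : ℝ) = (y : ℝ) ^ 3 := by rw [hN]; push_cast; rfl
  have hD1 : 1 ≤ D := Nat.one_le_pow _ _ (by omega)
  have hDV : 2 * D ≤ V := by
    rw [hD, hV]
    calc 2 * y ^ (e + 20) ≤ y * y ^ (e + 20) := Nat.mul_le_mul_right _ (by omega)
      _ = y ^ (e + 20 + 1) := by ring
      _ ≤ y ^ (2 * a) := Nat.pow_le_pow_right (by omega) (by omega)
  have hu1 : (1 : ℝ) ≤ (y : ℝ) ^ w := one_le_pow₀ hyone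
  have hWr : (W : ℝ) ≤ (y : ℝ) ^ 2 := by exact_mod_cast hWy
  -- condition A
  have cA : 2 * (c * ((y : ℝ) ^ w) ^ m * (k * 3).factorial * N *
      (((W : ℝ) ^ 16 * (D : ℝ) ^ 3) ^ k)) < Q := by
    refine lt_of_lt_of_le ?_ hQ1
    have e1 : ((W : ℝ) ^ 16 * (D : ℝ) ^ 3) ^ k ≤ (y : ℝ) ^ ((92 + 3 * e) * k) := by
      calc ((W : ℝ) ^ 16 * (D : ℝ) ^ 3) ^ k ≤ (((y : ℝ) ^ 2) ^ 16 * ((y : ℝ) ^ (e + 20)) ^ 3) ^ k := by
            rw [hDr]
            gcongr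
        _ = (y : ℝ) ^ ((92 + 3 * e) * k) := by
            rw [← pow_mul, ← pow_mul, ← pow_add, ← pow_mul]
            congr 1
            ring
    calc 2 * (c * ((y : ℝ) ^ w) ^ m * (k * 3).factorial * N *
        (((W : ℝ) ^ 16 * (D : ℝ) ^ 3) ^ k)) =
        F * (((y : ℝ) ^ w) ^ m * (y : ℝ) ^ 3 * (((W : ℝ) ^ 16 * (D : ℝ) ^ 3) ^ k)) := by
          rw [hFr, hNr]; ring
      _ ≤ F * (((y : ℝ) ^ w) ^ m * (y : ℝ) ^ 3 * (y : ℝ) ^ ((92 + 3 * e) * k)) := by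
          apply mul_le_mul_of_nonneg_left _ (Nat.cast_nonneg _)
          apply mul_le_mul_of_nonneg_left e1 (by positivity)
      _ < y * (((y : ℝ) ^ w) ^ m * (y : ℝ) ^ 3 * (y : ℝ) ^ ((92 + 3 * e) * k)) := by
          apply mul_lt_mul_of_pos_right hFy (by positivity)
      _ = (y : ℝ) ^ (w * m + 4 + (92 + 3 * e) * k) := by
          rw [← pow_mul, ← pow_add, ← pow_add]
          nth_rewrite 1 [← pow_one (y : ℝ)]
          rw [← pow_add]
          congr 1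
          ring
      _ ≤ (y : ℝ) ^ E := pow_le_pow_right₀ hyone (by rw [hE]; omega)
  -- condition B
  have cB : 2 * Q * (c * ((y : ℝ) ^ w) ^ m) < ((V : ℝ) / (2 * D)) ^ (k * 3) := by
    rw [div_pow, lt_div_iff₀ (by rw [hDr]; positivity)]
    have e1 : (2 * (D : ℝ)) ^ (k * 3) ≤ (y : ℝ) ^ (3 * k * (e + 21)) := by
      calc (2 * (D : ℝ)) ^ (k * 3) ≤ (y * (y : ℝ) ^ (e + 20)) ^ (k * 3) := by
            rw [hDr]
            gcongr
            linarith
        _ = (y : ℝ) ^ (3 * k * (e + 21)) := by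
            nth_rewrite 1 [← pow_one (y : ℝ)]
            rw [← pow_add, ← pow_mul]
            congr 1
            ring
    have e2 : (V : ℝ) ^ (k * 3) = (y : ℝ) ^ (6 * a * k) := by
      rw [hVr, ← pow_mul]
      congr 1
      ring
    rw [e2]
    refine lt_of_lt_of_le ?_ hQ2
    calc 2 * Q * (c * ((y : ℝ) ^ w) ^ m) * (2 * (D : ℝ)) ^ (k * 3) ≤
        2 * Q * (c * ((y : ℝ) ^ w) ^ m) * (y : ℝ) ^ (3 * k * (e + 21)) := by
          apply mul_le_mul_of_nonneg_left e1 (by positivity)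
      _ = Q * (2 * c * (((y : ℝ) ^ w) ^ m * (y : ℝ) ^ (3 * k * (e + 21)))) := by ring
      _ < Q * (y * (((y : ℝ) ^ w) ^ m * (y : ℝ) ^ (3 * k * (e + 21)))) := by
          apply mul_lt_mul_of_pos_left _ hQ0
          apply mul_lt_mul_of_pos_right h2c (by positivity)
      _ = Q * (y : ℝ) ^ (w * m + 1 + 3 * k * (e + 21)) := by
          rw [← pow_mul, ← pow_add]
          nth_rewrite 1 [← pow_one (y : ℝ)]
          rw [← pow_add]
          congr 2
          ring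
      _ ≤ Q * (y : ℝ) ^ E := by
          apply mul_le_mul_of_nonneg_left _ hQ0.le
          exact pow_le_pow_right₀ hyone (by rw [hE]; nlinarith)
  have hEHD := hEH f hf b Q hQ2' hbQ hα W n0 V D N ((y : ℝ) ^ w) hW hn0 hD1 hDV hu1 cA cB
  set φ : ℕ → ℝ := fun v => f.eval (nn W n0 v : ℝ) with hφ
  set B : ℝ := (V : ℝ) / (y : ℝ) ^ w with hBdef
  have hB0 : 0 ≤ B := by positivity
  have hEH2 : EH V (y ^ (2 * (C0 * C0))) N φ B := by
    intro d hd hdD r h hh hN'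
    refine hEHD d hd (hdD.trans ?_) r h hh hN'
    exact Nat.pow_le_pow_right (by omega) (by omega)
  have hS := hsift (max C0 6) y V N φ B (le_max_left _ _) (by omega) hB0 hEH2 (hit W n0)
    (hit_per hW hn0) (hit_few hW hn0)
  have hbad := bad_wt hW hn0 hB0 hEHD y (y ^ 10) (y ^ (a + 7)) (by omega)
    (Nat.one_le_pow _ _ (by omega)) (by
      rw [← pow_mul, hD]
      exact Nat.pow_le_pow_right (by omega) (by omega)) (by
      have h1 : W ^ 6 ≤ y ^ 12 := by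
        calc W ^ 6 ≤ (y ^ 2) ^ 6 := Nat.pow_le_pow_left hWy 6
          _ = y ^ 12 := by rw [← pow_mul]
      have h2 : W ^ 6 * (V + 1) + 1 ≤ y ^ 12 * (V + 1) + 1 := by
        have := Nat.mul_le_mul_right (V + 1) h1
        omega
      refine lt_of_le_of_lt h2 ?_
      have h3 : (y ^ (a + 7) + 1) ^ 2 = y ^ (a + 7) ^ 1 * y ^ (a + 7) + 2 * y ^ (a + 7) + 1 := by ring
      have h4 : y ^ (a + 7) ^ 1 * y ^ (a + 7) = y ^ 14 * V := by
        rw [hV, ← pow_add, pow_one, ← pow_add]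
        congr 1
        ring
      rw [h3, h4]
      have h5 : y ^ 12 ≤ y ^ (a + 7) := Nat.pow_le_pow_right (by omega) (by omega)
      have h6 : y ^ 12 * V ≤ y ^ 14 * V := Nat.mul_le_mul_right _ (Nat.pow_le_pow_right (by omega) (by omega))
      have h7 : 0 < y ^ 12 := by positivity
      have h8 : y ^ 12 * (V + 1) = y ^ 12 * V + y ^ 12 := by ring
      rw [h8]
      omega)
  have hsplit := split_sum W n0 (max C0 6) y V N φ (by omega)
  have hlogpos : 0 < Real.log y := Real.log_pos (by linarith)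
  have hP : 48 / (y : ℝ) ≤ ∏ p ∈ Pd (max C0 6) y, (1 - (nu (hit W n0) p : ℝ) / p) := by
    refine le_trans ?_ (hprod y hy1 (max C0 6) (le_max_right _ _)
      (fun p => (nu (hit W n0) p : ℝ) / p) (fun p hp => by
        apply div_le_div_of_nonneg_right _ (Nat.cast_nonneg _)
        exact_mod_cast hit_few hW hn0 p (mem_Pd.1 hp).1))
    rw [div_le_div_iff₀ hy0 (by positivity)]
    have := hN1 y hy2
    linarith
  have hcf : 1 / (2 * (y : ℝ) ^ 3) ≤ cf N N := by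
    have := cf_mid N (Nat.one_le_pow _ _ (by omega))
    rw [hNr] at this
    exact this
  refine numeric e w a rfl (by omega) y hy100 (hN2 y hy3) (cf N N)
    (∏ p ∈ Pd (max C0 6) y, (1 - (nu (hit W n0) p : ℝ) / p)) hcf (cf_mid_le N) hP
    (∑ v ∈ (Icc 1 V).filter (fun v => ∀ p ∈ Pd (max C0 6) y, ¬ hit W n0 p v), kern N (φ v))
    (∑ v ∈ (Icc 1 V).filter (fun v => bad W n0 y v), kern N (φ v)) _ ?_ ?_ ?_
  · rw [← hVr]
    exact hS
  · rw [← hVr]
    push_cast at hbad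
    exact hbad
  · rw [← hVr]
    have e1 : Real.exp (-(4 * (y : ℝ))) = Real.exp (-(4 * (N : ℝ) * (1 / (y : ℝ)) ^ 2)) := by
      congr 1
      rw [hNr]
      field_simp
    rw [e1]
    exact hsplit

end Pool.Agent.V7H99.CD
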