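import Mathlib
import Pool.Agent.V7H99.CD.M2

set_option autoImplicit false

/-! The main theorem. -/

namespace Pool.Agent.V7H99.CD
open Finset Polynomial Filter

/-- `m` has at most `R` prime factors (with multiplicity), all of them larger than `X ^ (1 / R)` -/
def AP (R : ℕ) (X : ℝ) (m : ℕ) : Prop :=
  m.primeFactorsList.length ≤ R ∧ ∀ p : ℕ, p.Prime → p ∣ m → X ^ (1 / (R : ℝ)) < (p : ℝ)

/-- the set of the theorem -/
def TS (R M m0 : ℕ) (X : ℝ) (f : ℝ[X]) : Set ℕ := {n : ℕ | 0 < n ∧ (n : ℝ) ≤ X ∧ Squarefree n ∧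
  n ≡ m0 [MOD M] ∧ (Odd M → Odd n) ∧ Cong n ∧
  (∃ z : ℤ, |f.eval (n : ℝ) - z| ≤ X ^ (-(1 / (R : ℝ)))) ∧ ∃ m, n = Nat.gcd m0 M * m ∧ AP R X m}

lemma TS_fin (R M m0 : ℕ) (X : ℝ) (f : ℝ[X]) : (TS R M m0 X f).Finite := by
  apply (Set.finite_Iic ⌊X⌋₊).subset
  intro n hn
  exact Nat.le_floor hn.2.1

lemma few_factors (y R m : ℕ) (hm : m ≠ 0) (hmR : m < y ^ R) (hy : 1 < y)
    (h : ∀ p : ℕ, p.Prime → p ∣ m → y < p) : m.primeFactorsList.length ≤ R := by
  by_contra hlt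
  rw [not_le] at hlt
  have h1 : y ^ m.primeFactorsList.length ≤ m.primeFactorsList.prod := by
    apply List.pow_card_le_prod
    intro p hp
    exact (h p (Nat.prime_of_mem_primeFactorsList hp) (Nat.dvd_of_mem_primeFactorsList hp)).le
  rw [Nat.prod_primeFactorsList hm] at h1
  have h2 : y ^ R ≤ y ^ m.primeFactorsList.length := Nat.pow_le_pow_right (by omega) hlt.le
  omega

theorem main (k : ℕ) (hk : 1 ≤ k) (ε : ℝ) (hε : 0 < ε) (hε1 : ε ≤ 1 / 3) :
    ∃ R : ℕ, 1 ≤ R ∧ ∃ X₀ : ℝ, ∀ X : ℝ, X₀ ≤ X → ∀ M m0 : ℕ, 0 < M →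
    (M : ℝ) ≤ X ^ (1 / (R : ℝ)) → Squarefree m0 → ∀ f : ℝ[X], f.natDegree ≤ k →
    ∀ (b : ℤ) (Q : ℕ), IsCoprime b (Q : ℤ) → X ^ ε ≤ Q → (Q : ℝ) ≤ X ^ ((k : ℝ) - ε) →
    |f.coeff k - b / Q| ≤ 1 / (Q : ℝ) ^ 2 →
    X ^ (1 / 3 - ε) ≤ ((TS R M m0 X f).ncard : ℝ) := by
  classical
  obtain ⟨E, a0, z0, Y0, hz0, hgood⟩ := good_count k hk
  obtain ⟨a1, ha1⟩ := exists_nat_ge ((34 * k + E + 16) / (6 * ε) : ℝ)
  set a := max a0 a1 with ha
  have haε : 34 * (k : ℝ) + E + 16 ≤ 6 * a * ε := by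
    have h1 : (a1 : ℝ) ≤ a := by exact_mod_cast le_max_right _ _
    rw [div_le_iff₀ (by positivity)] at ha1
    nlinarith
  set R0 := 33 + 6 * a with hR0
  set R := R0 + 1 with hR
  have hk1 : (1 : ℝ) ≤ k := by exact_mod_cast hk
  set Y1 := max Y0 (max (2 ^ R0) (max z0.factorial 10)) with hY1
  refine ⟨R, by omega, ((Y1 : ℝ) ^ R0), ?_⟩
  intro X hX M m0 hM0 hMX hm0 f hf b Q hbQ hQ1 hQ2 hα
  have hY10 : 10 ≤ Y1 := (le_max_right _ _).trans ((le_max_right _ _).trans (le_max_right _ _))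
  have hY1r : (10 : ℝ) ≤ Y1 := by exact_mod_cast hY10
  have hX1 : 1 ≤ X := le_trans (one_le_pow₀ (by linarith)) hX
  have hX0 : 0 < X := by linarith
  -- the integer `y`
  set y := ⌊X ^ (1 / (R0 : ℝ))⌋₊ with hy
  have hR0pos : (0 : ℝ) < R0 := by rw [hR0]; push_cast; positivity
  have hYy : Y1 ≤ y := by
    apply Nat.le_floor
    calc (Y1 : ℝ) = ((Y1 : ℝ) ^ R0) ^ (1 / (R0 : ℝ)) := by
          rw [← Real.rpow_natCast, ← Real.rpow_mul (by positivity), mul_one_div_cancel hR0pos.ne',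
            Real.rpow_one]
      _ ≤ X ^ (1 / (R0 : ℝ)) := Real.rpow_le_rpow (by positivity) hX (by positivity)
  have hyY0 : Y0 ≤ y := (le_max_left _ _).trans hYy
  have hy2 : 2 ^ R0 ≤ y := ((le_max_left _ _).trans (le_max_right _ _)).trans hYy
  have hyz : z0.factorial ≤ y :=
    ((le_max_left _ _).trans ((le_max_right _ _).trans (le_max_right _ _))).trans hYy
  have hy10 : 10 ≤ y := hY10.trans hYy
  have hyr : (10 : ℝ) ≤ y := by exact_mod_cast hy10
  have hy0 : (0 : ℝ) < y := by linarith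
  have hyone : (1 : ℝ) ≤ y := by linarith
  have hyX : (y : ℝ) ^ R0 ≤ X := by
    have h1 : (y : ℝ) ≤ X ^ (1 / (R0 : ℝ)) := Nat.floor_le (by positivity)
    calc (y : ℝ) ^ R0 ≤ (X ^ (1 / (R0 : ℝ))) ^ R0 := by gcongr
      _ = X := by
        rw [← Real.rpow_natCast, ← Real.rpow_mul hX0.le, one_div_mul_cancel hR0pos.ne',
          Real.rpow_one]
  have hXy : X < (y : ℝ) ^ R := by
    have h1 : X ^ (1 / (R0 : ℝ)) < y + 1 := Nat.lt_floor_add_one _
    have h2 : X < ((y : ℝ) + 1) ^ R0 := by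
      calc X = (X ^ (1 / (R0 : ℝ))) ^ R0 := by
            rw [← Real.rpow_natCast, ← Real.rpow_mul hX0.le, one_div_mul_cancel hR0pos.ne',
              Real.rpow_one]
        _ < ((y : ℝ) + 1) ^ R0 := pow_lt_pow_left₀ h1 (by positivity) (by omega)
    calc X < ((y : ℝ) + 1) ^ R0 := h2
      _ ≤ (2 * (y : ℝ)) ^ R0 := by
          gcongr
          linarith
      _ = 2 ^ R0 * (y : ℝ) ^ R0 := mul_pow _ _ _
      _ ≤ y * (y : ℝ) ^ R0 := by
          apply mul_le_mul_of_nonneg_right _ (by positivity)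
          exact_mod_cast hy2
      _ = (y : ℝ) ^ R := by rw [hR, pow_succ]; ring
  have hRpos : (0 : ℝ) < R := by rw [hR]; push_cast; linarith
  have hXRy : X ^ (1 / (R : ℝ)) < y := by
    calc X ^ (1 / (R : ℝ)) < ((y : ℝ) ^ R) ^ (1 / (R : ℝ)) :=
          Real.rpow_lt_rpow hX0.le hXy (by positivity)
      _ = y := by
          rw [← Real.rpow_natCast, ← Real.rpow_mul hy0.le, mul_one_div_cancel hRpos.ne',
            Real.rpow_one]
  have hMy : M ≤ y := by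
    have : (M : ℝ) < y := lt_of_le_of_lt hMX hXRy
    exact_mod_cast this.le
  -- the modulus
  set W := M * z0.factorial with hW
  have hW0 : 0 < W := Nat.mul_pos hM0 (Nat.factorial_pos _)
  have hW2 : 2 ∣ W := (Nat.dvd_factorial (by norm_num) hz0).mul_left M
  have hWge : 2 ≤ W := Nat.le_of_dvd hW0 hW2
  have hWy : W ≤ y ^ 2 := by rw [hW, sq]; exact Nat.mul_le_mul hMy hyz
  have hMW : M ∣ W := dvd_mul_right _ _
  obtain ⟨n0, hn0, hn1, hn2⟩ := exists_n0 M m0 W hMW hW0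
  -- conditions on Q
  have c1 : (y : ℝ) ^ E ≤ Q := by
    refine le_trans ?_ hQ1
    calc (y : ℝ) ^ E = (y : ℝ) ^ (E : ℝ) := (Real.rpow_natCast _ _).symm
      _ ≤ (y : ℝ) ^ ((R0 : ℝ) * ε) := by
          apply Real.rpow_le_rpow_of_exponent_le hyone
          rw [hR0]
          push_cast
          nlinarith
      _ = ((y : ℝ) ^ R0) ^ ε := by rw [Real.rpow_mul hy0.le, Real.rpow_natCast]
      _ ≤ X ^ ε := Real.rpow_le_rpow (by positivity) hyX hε.le
  have hkε : 0 ≤ (k : ℝ) - ε := by linarith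
  have c2 : (Q : ℝ) * (y : ℝ) ^ E ≤ (y : ℝ) ^ (6 * a * k) := by
    calc (Q : ℝ) * (y : ℝ) ^ E ≤ X ^ ((k : ℝ) - ε) * (y : ℝ) ^ E := by gcongr
      _ ≤ ((y : ℝ) ^ R) ^ ((k : ℝ) - ε) * (y : ℝ) ^ E := by
          apply mul_le_mul_of_nonneg_right _ (by positivity)
          exact Real.rpow_le_rpow hX0.le hXy.le hkε
      _ = (y : ℝ) ^ ((R : ℝ) * ((k : ℝ) - ε) + E) := by
          rw [Real.rpow_add hy0, Real.rpow_mul hy0.le, Real.rpow_natCast, Real.rpow_natCast]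
      _ ≤ (y : ℝ) ^ ((6 * a * k : ℕ) : ℝ) := by
          apply Real.rpow_le_rpow_of_exponent_le hyone
          rw [hR, hR0]
          push_cast
          nlinarith
      _ = (y : ℝ) ^ (6 * a * k) := Real.rpow_natCast _ _
  have hcount := hgood y hyY0 a (le_max_left _ _) W n0 hWge hWy hn0 f hf b Q hbQ c1 c2 hα
  -- the injection
  set V := y ^ (2 * a) with hV
  set φ : ℕ → ℝ := fun v => f.eval (nn W n0 v : ℝ) with hφ
  have hinj : (Gd W n0 z0 y V φ).card ≤ (TS R M m0 X f).ncard := by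
    rw [← Set.ncard_coe_finset]
    apply Set.ncard_le_ncard_of_injOn (nn W n0) _ ((nn_inj hWge hn0).injOn) (TS_fin R M m0 X f)
    intro v hv
    rw [mem_coe] at hv
    unfold Gd at hv
    rw [mem_filter, mem_Icc] at hv
    obtain ⟨⟨hv1, hv2⟩, hv3, hv4, z, hz⟩ := hv
    have hfam := fam W n0 M m0 y hW2 hW0 hn0 hM0 hMW hm0 hn1 hn2 v (by
      intro p hp hpW hpy
      rw [← Lf_all (fun x => ¬ p ∣ x) v]
      intro i hi
      have hpz : z0 < p := by
        by_contra hle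
        rw [not_lt] at hle
        exact hpW ((Nat.dvd_factorial hp.pos hle).mul_left M)
      exact hv3 p (mem_Pd.2 ⟨hp, hpz, hpy⟩) ⟨hpW, i, hi⟩) (by
      intro p hp hpW hpy
      rw [← Lf_all (fun x => ¬ p ^ 2 ∣ x) v]
      intro i hi
      exact hv4 ⟨p, hp, hpW, hpy, i, hi⟩)
    obtain ⟨s1, s2, s3, s4, m, s5, s6⟩ := hfam
    have hpos : 0 < nn W n0 v := Nat.pos_of_ne_zero s1.ne_zero
    have hleX : (nn W n0 v : ℝ) ≤ X := by
      refine le_trans ?_ hyX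
      have h1 := nn_le hWge hn0 v
      have h2 : W ^ 16 * (v + 1) ^ 3 ≤ y ^ R0 := by
        have e1 : v + 1 ≤ 2 * V := by
          have : 1 ≤ V := Nat.one_le_pow _ _ (by omega)
          omega
        calc W ^ 16 * (v + 1) ^ 3 ≤ (y ^ 2) ^ 16 * (2 * V) ^ 3 :=
              Nat.mul_le_mul (Nat.pow_le_pow_left hWy 16) (Nat.pow_le_pow_left e1 3)
          _ = 8 * y ^ (32 + 6 * a) := by
              rw [hV]; ring
          _ ≤ y * y ^ (32 + 6 * a) := Nat.mul_le_mul_right _ (by omega)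
          _ = y ^ R0 := by rw [hR0]; ring
      exact_mod_cast h1.trans h2
    refine ⟨hpos, hleX, s1, s2, s3, s4, ⟨z, ?_⟩, m, s5, ?_, ?_⟩
    · refine hz.trans ?_
      rw [Real.rpow_neg hX0.le, ← one_div]
      apply one_div_le_one_div_of_le (by positivity) hXRy.le
    · have hm0' : m ≠ 0 := by
        rintro rfl
        rw [mul_zero] at s5
        omega
      have hmn : m ≤ nn W n0 v := by
        rw [s5]
        apply Nat.le_mul_of_pos_left
        exact Nat.gcd_pos_of_pos_right _ hM0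
      apply few_factors y R m hm0' _ (by omega) s6
      have : (m : ℝ) < (y : ℝ) ^ R := by
        have h1 : (m : ℝ) ≤ nn W n0 v := by exact_mod_cast hmn
        linarith
      exact_mod_cast this
    · intro p hp hpm
      have h1 : (y : ℝ) < p := by exact_mod_cast s6 p hp hpm
      linarith
  have hfinal : X ^ (1 / 3 - ε) ≤ (y : ℝ) ^ (2 * a - 4) := by
    have ha4 : 4 ≤ 2 * a := by
      have h1 : (16 : ℝ) ≤ 6 * a * ε := by
        have : (0 : ℝ) ≤ E := Nat.cast_nonneg _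
        linarith
      have h2 : (8 : ℝ) ≤ a := by nlinarith [(Nat.cast_nonneg a : (0 : ℝ) ≤ a)]
      have h3 : 8 ≤ a := by exact_mod_cast h2
      omega
    calc X ^ (1 / 3 - ε) ≤ ((y : ℝ) ^ R) ^ (1 / 3 - ε) :=
          Real.rpow_le_rpow hX0.le hXy.le (by linarith)
      _ = (y : ℝ) ^ ((R : ℝ) * (1 / 3 - ε)) := by rw [Real.rpow_mul hy0.le, Real.rpow_natCast]
      _ ≤ (y : ℝ) ^ ((2 * a - 4 : ℕ) : ℝ) := by
          apply Real.rpow_le_rpow_of_exponent_le hyone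
          rw [Nat.cast_sub ha4, hR, hR0]
          push_cast
          have : (0 : ℝ) ≤ E := Nat.cast_nonneg _
          nlinarith
      _ = (y : ℝ) ^ (2 * a - 4) := Real.rpow_natCast _ _
  have hinjr : (((Gd W n0 z0 y V φ).card : ℕ) : ℝ) ≤ ((TS R M m0 X f).ncard : ℝ) := by
    exact_mod_cast hinj
  exact hfinal.trans (hcount.trans hinjr)

end Pool.Agent.V7H99.CD
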