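import Mathlib
import Pool.Agent.V7H99.CD.M3

set_option autoImplicit false

/-! Infinitely many values for irrational leading coefficients. -/

namespace Pool.Agent.V7H99.CD
open Finset Polynomial Filter

/-- good rational approximations with large denominators -/
lemma big_den (ξ : ℝ) (hξ : Irrational ξ) (Q0 : ℕ) : ∃ (b : ℤ) (Q : ℕ), Q0 ≤ Q ∧ 1 ≤ Q ∧
    IsCoprime b (Q : ℤ) ∧ |ξ - b / Q| ≤ 1 / (Q : ℝ) ^ 2 := by
  have hinf := Real.infinite_rat_abs_sub_lt_one_div_den_sq_of_irrational hξ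
  by_contra hcon
  push Not at hcon
  apply hinf
  set K : ℤ := ⌈(|ξ| + 1) * Q0⌉ with hK
  have hfin : ((Set.Icc (-K) K ×ˢ Set.Icc 0 Q0).image (fun x : ℤ × ℕ => (x.1 : ℚ) / x.2)).Finite :=
    ((Set.finite_Icc _ _).prod (Set.finite_Icc _ _)).image _
  apply hfin.subset
  intro q hq
  have hq' : |ξ - q| < 1 / (q.den : ℝ) ^ 2 := hq
  have hd1 : 1 ≤ q.den := q.pos
  have hd0 : (0 : ℝ) < q.den := by exact_mod_cast q.pos
  have hcast : (q : ℝ) = (q.num : ℝ) / q.den := by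
    exact_mod_cast (Rat.num_div_den q).symm
  have hco : IsCoprime q.num (q.den : ℤ) := by
    rw [Int.isCoprime_iff_gcd_eq_one]
    have := q.reduced
    simpa [Nat.Coprime, Int.gcd] using this
  have hlt : q.den < Q0 := by
    by_contra hle
    rw [not_lt] at hle
    have h1 := hcon q.num q.den hle hd1 hco
    rw [← hcast] at h1
    linarith
  refine ⟨(q.num, q.den), ⟨?_, ?_⟩, ?_⟩
  · rw [Set.mem_Icc]
    have h1 : |(q.num : ℝ)| ≤ (|ξ| + 1) * Q0 := by
      have h2 : (q.num : ℝ) = q * q.den := by rw [hcast]; field_simp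
      have h3 : |(q : ℝ)| ≤ |ξ| + 1 := by
        have h4 : 1 / (q.den : ℝ) ^ 2 ≤ 1 := by
          rw [div_le_one (by positivity)]
          apply one_le_pow₀
          exact_mod_cast hd1
        have h5 : |(q : ℝ)| ≤ |ξ| + |ξ - q| := by
          have : (q : ℝ) = ξ - (ξ - q) := by ring
          calc |(q : ℝ)| = |ξ - (ξ - q)| := by rw [← this]
            _ ≤ |ξ| + |ξ - q| := abs_sub _ _
        linarith
      rw [h2, abs_mul, Nat.abs_cast]
      have h6 : (q.den : ℝ) ≤ Q0 := by exact_mod_cast hlt.le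
      exact mul_le_mul h3 h6 hd0.le (by positivity)
    have h2 : |(q.num : ℝ)| ≤ K := h1.trans (Int.le_ceil _)
    have h3 : |q.num| ≤ K := by exact_mod_cast h2
    exact abs_le.1 h3
  · exact Set.mem_Icc.2 ⟨Nat.zero_le _, hlt.le⟩
  · exact Rat.num_div_den q

theorem main_inf (k : ℕ) (hk : 1 ≤ k) : ∃ R : ℕ, 1 ≤ R ∧ ∀ M m0 : ℕ, 0 < M → Squarefree m0 →
    ∀ f : ℝ[X], f.natDegree ≤ k → Irrational (f.coeff k) →
    {n : ℕ | Squarefree n ∧ n ≡ m0 [MOD M] ∧ (Odd M → Odd n) ∧ Cong n ∧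
      (∃ z : ℤ, |f.eval (n : ℝ) - z| ≤ (n : ℝ) ^ (-(1 / (R : ℝ)))) ∧
      ∃ m, n = Nat.gcd m0 M * m ∧ AP R n m}.Infinite := by
  obtain ⟨R, hR, X₀, h⟩ := main k hk (1 / 4) (by norm_num) (by norm_num)
  refine ⟨R, hR, ?_⟩
  intro M m0 hM hm0 f hf hirr hfin
  have hR0 : (0 : ℝ) < R := by exact_mod_cast hR
  have hk0 : (0 : ℝ) < k := by exact_mod_cast hk
  have hk1 : (1 : ℝ) ≤ k := by exact_mod_cast hk
  -- a bound for the elements
  obtain ⟨T, hT⟩ := hfin.bddAbove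
  set Z : ℝ := max (max X₀ 1) (max ((M : ℝ) ^ (R : ℝ)) (((T : ℝ) + 1) ^ (12 : ℝ) + 1)) with hZ
  have hZ1 : 1 ≤ Z := (le_max_right _ _).trans (le_max_left _ _)
  obtain ⟨Q0, hQ0⟩ := exists_nat_ge (Z ^ (k / 2 : ℝ))
  obtain ⟨b, Q, hQ, hQ1, hbQ, hα⟩ := big_den (f.coeff k) hirr Q0
  have hQr1 : (1 : ℝ) ≤ Q := by exact_mod_cast hQ1
  have hQpos : (0 : ℝ) < Q := by linarith
  have hQZ : Z ^ (k / 2 : ℝ) ≤ Q := hQ0.trans (by exact_mod_cast hQ)
  set X : ℝ := (Q : ℝ) ^ (2 / k : ℝ) with hX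
  have hXZ : Z ≤ X := by
    calc Z = (Z ^ (k / 2 : ℝ)) ^ (2 / k : ℝ) := by
          rw [← Real.rpow_mul (by linarith), div_mul_div_comm, mul_comm (k : ℝ) 2,
            div_self (by positivity), Real.rpow_one]
      _ ≤ X := Real.rpow_le_rpow (by positivity) hQZ (by positivity)
  have hX1 : 1 ≤ X := hZ1.trans hXZ
  have hX0 : 0 < X := by linarith
  have hM1 : (M : ℝ) ≤ X ^ (1 / (R : ℝ)) := by
    calc (M : ℝ) = ((M : ℝ) ^ (R : ℝ)) ^ (1 / (R : ℝ)) := by
          rw [← Real.rpow_mul (Nat.cast_nonneg _), mul_one_div_cancel hR0.ne', Real.rpow_one]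
      _ ≤ X ^ (1 / (R : ℝ)) := by
          apply Real.rpow_le_rpow (by positivity) _ (by positivity)
          exact ((le_max_left _ _).trans (le_max_right _ _)).trans hXZ
  have hcnt := h X (((le_max_left _ _).trans (le_max_left _ _)).trans hXZ) M m0 hM hM1 hm0 f hf b Q
    hbQ (by
      rw [hX, ← Real.rpow_mul hQpos.le]
      calc (Q : ℝ) ^ (2 / (k : ℝ) * (1 / 4)) ≤ (Q : ℝ) ^ (1 : ℝ) := by
            apply Real.rpow_le_rpow_of_exponent_le hQr1
            rw [div_mul_div_comm, div_le_one (by positivity)]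
            linarith
        _ = Q := Real.rpow_one _) (by
      rw [hX, ← Real.rpow_mul hQpos.le]
      calc (Q : ℝ) = (Q : ℝ) ^ (1 : ℝ) := (Real.rpow_one _).symm
        _ ≤ (Q : ℝ) ^ (2 / (k : ℝ) * ((k : ℝ) - 1 / 4)) := by
            apply Real.rpow_le_rpow_of_exponent_le hQr1
            rw [div_mul_eq_mul_div, le_div_iff₀ hk0]
            linarith) hα
  -- more than `T` elements
  have hbig : (T : ℝ) + 1 < X ^ (1 / 3 - 1 / 4 : ℝ) := by
    have h1 : ((T : ℝ) + 1) ^ (12 : ℝ) < X := by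
      have h2 : ((T : ℝ) + 1) ^ (12 : ℝ) + 1 ≤ X :=
        ((le_max_right _ _).trans (le_max_right _ _)).trans hXZ
      linarith
    calc (T : ℝ) + 1 = (((T : ℝ) + 1) ^ (12 : ℝ)) ^ (1 / 3 - 1 / 4 : ℝ) := by
          rw [← Real.rpow_mul (by positivity)]
          norm_num
      _ < X ^ (1 / 3 - 1 / 4 : ℝ) := Real.rpow_lt_rpow (by positivity) h1 (by norm_num)
  have hsub : TS R M m0 X f ⊆ Set.Iic T := by
    intro n hn
    obtain ⟨g1, g2, g3, g4, g5, g6, ⟨z, g7⟩, m, g8, g9, g10⟩ := hn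
    apply hT
    have hn0 : (0 : ℝ) < n := by exact_mod_cast g1
    refine ⟨g3, g4, g5, g6, ⟨z, ?_⟩, m, g8, g9, ?_⟩
    · refine g7.trans ?_
      rw [Real.rpow_neg hX0.le, Real.rpow_neg hn0.le]
      apply inv_anti₀ (by positivity)
      exact Real.rpow_le_rpow hn0.le g2 (by positivity)
    · intro p hp hpm
      refine lt_of_le_of_lt ?_ (g10 p hp hpm)
      exact Real.rpow_le_rpow hn0.le g2 (by positivity)
  have hcard : ((TS R M m0 X f).ncard : ℝ) ≤ T + 1 := by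
    have h1 := Set.ncard_le_ncard hsub (Set.finite_Iic T)
    have h2 : (Set.Iic T).ncard = T + 1 := by
      rw [← Finset.coe_Iic, Set.ncard_coe_finset, Nat.card_Iic]
    rw [h2] at h1
    exact_mod_cast h1
  linarith

end Pool.Agent.V7H99.CD
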