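import Mathlib
import Pool.Agent.V7H99.CD.Ht

set_option autoImplicit false

/-! Qualitative Weyl sums for one irrational leading coefficient. -/

namespace Pool.Agent.V7H99.CD
open Finset Polynomial Filter
open Pool.Agent.H373R2.NB
open Pool.Agent.Helper602.MK (ee)
open Pool.Agent.Helper602.MK.N_J5b (ee_add ee_zero ee_conj norm_ee ee_int ee_nat_mul)

lemma min_dist (x : ℕ → ℝ) (hx : ∀ q, 1 ≤ q → Irrational (x q)) (K : ℕ) : ∃ δ : ℝ, 0 < δ ∧
    ∀ q, 1 ≤ q → q ≤ K → ∀ a : ℤ, δ ≤ |x q - a| := by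
  induction K with
  | zero => exact ⟨1, one_pos, fun q h1 h2 => by omega⟩
  | succ K ih =>
    obtain ⟨δ, hδ, h⟩ := ih
    have h0 : 0 < |x (K + 1) - round (x (K + 1))| := by
      rw [abs_pos]
      intro h
      exact (hx (K + 1) (by omega)).ne_int (round (x (K + 1))) (by linarith)
    refine ⟨min δ |x (K + 1) - round (x (K + 1))|, lt_min hδ h0, ?_⟩
    intro q h1 h2 a
    rcases Nat.lt_or_ge K q with h3 | h3
    · have : q = K + 1 := by omega
      subst this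
      exact (min_le_right _ _).trans (round_le _ _)
    · exact (min_le_left _ _).trans (h q h1 h3 a)

theorem weyl_irr (G : ℝ[X]) (hG : 1 ≤ G.natDegree) (hirr : Irrational G.leadingCoeff) (η : ℝ)
    (hη : 0 < η) : ∃ N0 : ℕ, ∀ N : ℕ, N0 ≤ N → ‖∑ j ∈ range N, ee (G.eval (j : ℝ))‖ ≤ η * N := by
  set D := G.natDegree with hD
  obtain ⟨c, m, hc, hI⟩ := IW_all D hG
  set u := max 1 (1 / η) with hu
  have hu1 : 1 ≤ u := le_max_left _ _
  have hu0 : 0 < u := by linarith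
  have hηu : 1 ≤ u * η := by
    have : 1 / η ≤ u := le_max_right _ _
    rw [div_le_iff₀ hη] at this
    exact this
  set Kr : ℝ := c * u ^ m with hKr
  have hKr0 : 0 < Kr := by
    have : (1 : ℝ) ≤ c := by exact_mod_cast hc
    positivity
  obtain ⟨K, hK⟩ := exists_nat_ge Kr
  obtain ⟨δ, hδ, hmin⟩ := min_dist (fun q : ℕ => (q : ℝ) * ((D.factorial : ℝ) * G.leadingCoeff))
    (fun q hq => by
      have h1 : Irrational ((D.factorial : ℝ) * G.leadingCoeff) :=
        hirr.natCast_mul (Nat.factorial_ne_zero _)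
      exact h1.natCast_mul (by omega)) K
  obtain ⟨N1, hN1⟩ := exists_nat_gt (Kr / δ)
  refine ⟨max N1 1, fun N hN => ?_⟩
  have hN1' : N1 ≤ N := (le_max_left _ _).trans hN
  have hNone : 1 ≤ N := (le_max_right _ _).trans hN
  have hNr : (1 : ℝ) ≤ N := by exact_mod_cast hNone
  by_contra hcon
  rw [not_le] at hcon
  have hS : (N : ℝ) ≤ u * ‖∑ j ∈ range N, ee (1 * G.eval (j : ℝ))‖ := by
    simp only [one_mul]
    calc (N : ℝ) = 1 * N := (one_mul _).symm
      _ ≤ (u * η) * N := mul_le_mul_of_nonneg_right hηu (by linarith)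
      _ = u * (η * N) := by ring
      _ ≤ _ := mul_le_mul_of_nonneg_left hcon.le hu0.le
  obtain ⟨q, hq1, hq2, a, ha⟩ := hI N u _ _ hNone hu1 (Ph_real D G le_rfl 1) hS
  have hqK : q ≤ K := by
    have : (q : ℝ) ≤ K := hq2.trans hK
    exact_mod_cast this
  have h1 := hmin q hq1 hqK a
  rw [one_mul] at ha
  have h2 : Kr / (N : ℝ) ^ D < δ := by
    rw [div_lt_iff₀ (by positivity)]
    have h3 : Kr / δ < N := lt_of_lt_of_le hN1 (by exact_mod_cast hN1')
    rw [div_lt_iff₀ hδ] at h3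
    have h4 : (N : ℝ) ≤ (N : ℝ) ^ D := by
      calc (N : ℝ) = (N : ℝ) ^ 1 := (pow_one _).symm
        _ ≤ (N : ℝ) ^ D := pow_le_pow_right₀ hNr hG
    nlinarith
  have h5 : |(q : ℝ) * ((D.factorial : ℝ) * G.leadingCoeff) - a| ≤ Kr / (N : ℝ) ^ D := ha
  linarith

/-- along the family, in every residue class -/
theorem weyl_fam (G : ℝ[X]) (hG : 1 ≤ G.natDegree) (hirr : Irrational G.leadingCoeff) (W n0 : ℕ)
    (hW : 2 ≤ W) (hn0 : n0 < W ^ 4) (D : ℕ) (η : ℝ) (hη : 0 < η) : ∃ V0 : ℕ, ∀ V : ℕ, V0 ≤ V →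
    ∀ d : ℕ, 1 ≤ d → d ≤ D → ∀ r : ℕ,
      ‖∑ v ∈ (Icc 1 V).filter (fun v => v ≡ r [MOD d]), ee (G.eval (nn W n0 v : ℝ))‖ ≤ η * V := by
  have hW0 : (0 : ℝ) < W := by exact_mod_cast (by omega : 0 < W)
  have key : ∀ d s : ℕ, 1 ≤ d → ∃ N0 : ℕ, ∀ N : ℕ, N0 ≤ N →
      ‖∑ j ∈ range N, ee ((G.comp (cub W n0 s d)).eval (j : ℝ))‖ ≤ η * N := by
    intro d s hd
    obtain ⟨h1, h2⟩ := cub_deg (n0 := n0) (s := s) hW hd
    apply weyl_irr
    · rw [natDegree_comp, h1]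
      omega
    · rw [leadingCoeff_comp (by rw [h1]; norm_num), h2]
      have e : ((W : ℝ) ^ 4 * ((W : ℝ) ^ 4 * (d : ℝ)) ^ 3) ^ G.natDegree =
          (((W ^ 4 * (W ^ 4 * d) ^ 3) ^ G.natDegree : ℕ) : ℝ) := by push_cast; ring
      rw [e]
      apply hirr.mul_natCast
      positivity
    · exact hη
  choose! N0 hN0 using key
  set T := ∑ d ∈ Icc 1 D, ∑ s ∈ Icc 1 D, N0 d s with hT
  refine ⟨(T + 1) * D + D + 1, fun V hV d hd hdD r => ?_⟩
  have hdV : d ≤ V := by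
    have : D ≤ V := by nlinarith
    omega
  obtain ⟨s, N', hs1, hsd, hN1, hNV, hNd, himg⟩ := class_image V d r hd hdV
  have hsum : ∑ v ∈ (Icc 1 V).filter (fun v => v ≡ r [MOD d]), ee (G.eval (nn W n0 v : ℝ)) =
      ∑ j ∈ range N', ee ((G.comp (cub W n0 s d)).eval (j : ℝ)) := by
    rw [himg, sum_image]
    · apply sum_congr rfl
      intro j _
      rw [eval_comp, cub_eval hW hn0]
    · intro j _ j' _ hj
      have h3 : s + d * j = s + d * j' := hj
      have h4 : d * j = d * j' := by omega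
      exact Nat.eq_of_mul_eq_mul_left (by omega) h4
  rw [hsum]
  have hNT : N0 d s ≤ T := by
    have h1 : N0 d s ≤ ∑ s ∈ Icc 1 D, N0 d s :=
      single_le_sum (f := fun s => N0 d s) (fun _ _ => Nat.zero_le _) (mem_Icc.2 ⟨hs1, by omega⟩)
    have h2 : ∑ s ∈ Icc 1 D, N0 d s ≤ T :=
      single_le_sum (f := fun d => ∑ s ∈ Icc 1 D, N0 d s) (fun _ _ => Nat.zero_le _)
        (mem_Icc.2 ⟨hd, hdD⟩)
    omega
  have hd0 : (0 : ℝ) < d := by exact_mod_cast (by omega : 0 < d)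
  have hTN : T ≤ N' := by
    have h1 : ((T + 1 : ℕ) : ℝ) ≤ (V : ℝ) / d := by
      rw [le_div_iff₀ hd0]
      have h2 : (T + 1) * d ≤ V := by
        calc (T + 1) * d ≤ (T + 1) * D := Nat.mul_le_mul_left _ hdD
          _ ≤ V := by omega
      exact_mod_cast h2
    have h3 : (T : ℝ) ≤ N' := by
      push_cast at h1
      linarith
    exact_mod_cast h3
  refine (hN0 d s hd N' (by omega)).trans ?_
  apply mul_le_mul_of_nonneg_left _ hη.le
  exact_mod_cast hNV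

end Pool.Agent.V7H99.CD
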