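import Mathlib
import Pool.Agent.V7H99.CD.Ht

set_option autoImplicit false

/-! Product kernels, and the weight of the bad values for a general weight. -/

namespace Pool.Agent.V7H99.CD
open Finset Polynomial Filter
open Pool.Agent.Helper602.MK (ee)
open Pool.Agent.Helper602.MK.N_J5b (ee_add ee_zero ee_conj norm_ee ee_int ee_nat_mul)

lemma ee_sum {ι : Type*} (s : Finset ι) (x : ι → ℝ) : ee (∑ i ∈ s, x i) = ∏ i ∈ s, ee (x i) := by
  classical
  induction s using Finset.induction_on with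
  | empty => simp [ee_zero]
  | insert a s ha ih => rw [sum_insert ha, prod_insert ha, ee_add, ih]

/-- the product kernel -/
noncomputable def Kr {r : ℕ} (N : ℕ) (φ : Fin r → ℝ) : ℝ := ∏ i, kern N (φ i)

/-- the frequencies -/
def TT (r N : ℕ) : Finset (Fin r → ℕ) := Fintype.piFinset (fun _ => range (2 * N + 1))

/-- the coefficients -/
noncomputable def CC {r : ℕ} (N : ℕ) (t : Fin r → ℕ) : ℝ := ∏ i, cf N (t i)

lemma CC_nonneg {r : ℕ} (N : ℕ) (t : Fin r → ℕ) : 0 ≤ CC N t := prod_nonneg fun _ _ => cf_nonneg _ _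

lemma Kr_nonneg {r : ℕ} (N : ℕ) (φ : Fin r → ℝ) : 0 ≤ Kr N φ := prod_nonneg fun _ _ => kern_nonneg _ _

lemma Kr_le_one {r : ℕ} (N : ℕ) (φ : Fin r → ℝ) : Kr N φ ≤ 1 :=
  prod_le_one (fun _ _ => kern_nonneg _ _) (fun _ _ => kern_le_one _ _)

lemma Kr_far {r : ℕ} (N : ℕ) (φ : Fin r → ℝ) (δ : ℝ) (hδ : 0 ≤ δ) (i : Fin r)
    (h : ∀ z : ℤ, δ ≤ |φ i - z|) : Kr N φ ≤ Real.exp (-(4 * N * δ ^ 2)) := by
  classical
  unfold Kr
  rw [← Finset.mul_prod_erase _ _ (mem_univ i)]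
  calc kern N (φ i) * ∏ j ∈ univ.erase i, kern N (φ j) ≤ kern N (φ i) * 1 := by
        apply mul_le_mul_of_nonneg_left _ (kern_nonneg _ _)
        exact prod_le_one (fun _ _ => kern_nonneg _ _) (fun _ _ => kern_le_one _ _)
    _ ≤ _ := by rw [mul_one]; exact kern_far N (φ i) δ hδ h

lemma Kr_expand {r : ℕ} (N : ℕ) (φ : Fin r → ℝ) : (Kr N φ : ℂ) =
    ∑ t ∈ TT r N, (CC N t : ℂ) * ee (∑ i, ((t i : ℝ) - N) * φ i) := by
  unfold Kr TT CC
  rw [Complex.ofReal_prod, prod_congr rfl (fun i _ => kern_expand N (φ i)), prod_univ_sum]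
  apply sum_congr rfl
  intro t _
  rw [prod_mul_distrib, ee_sum, Complex.ofReal_prod]

lemma CC_sum (r N : ℕ) : ∑ t ∈ TT r N, CC N t = 1 := by
  unfold TT CC
  rw [← prod_univ_sum (fun _ : Fin r => range (2 * N + 1)) (fun _ j => cf N j)]
  simp [cf_sum]

theorem Kr_sum {r : ℕ} (N : ℕ) (S : Finset ℕ) (φ : ℕ → Fin r → ℝ) (Tv : Finset (Fin r → ℕ))
    (hTv : Tv ⊆ TT r N) (E : ℝ) (hE0 : 0 ≤ E)
    (h1 : ∀ t ∈ Tv, ∀ v ∈ S, ee (∑ i, ((t i : ℝ) - N) * φ v i) = 1)
    (h2 : ∀ t ∈ TT r N, t ∉ Tv → ‖∑ v ∈ S, ee (∑ i, ((t i : ℝ) - N) * φ v i)‖ ≤ E) :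
    |∑ v ∈ S, Kr N (φ v) - (∑ t ∈ Tv, CC N t) * (S.card : ℝ)| ≤ E := by
  classical
  have e1 : ((∑ v ∈ S, Kr N (φ v) : ℝ) : ℂ) =
      ∑ t ∈ TT r N, (CC N t : ℂ) * ∑ v ∈ S, ee (∑ i, ((t i : ℝ) - N) * φ v i) := by
    rw [Complex.ofReal_sum, sum_congr rfl (fun v _ => Kr_expand N (φ v)), sum_comm]
    apply sum_congr rfl
    intro t _
    rw [mul_sum]
  have e2 : ∑ t ∈ Tv, (CC N t : ℂ) * ∑ v ∈ S, ee (∑ i, ((t i : ℝ) - N) * φ v i) =
      (((∑ t ∈ Tv, CC N t) * (S.card : ℝ) : ℝ) : ℂ) := by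
    push_cast
    rw [sum_mul]
    apply sum_congr rfl
    intro t ht
    rw [sum_congr rfl (fun v hv => h1 t ht v hv)]
    simp
  have e3 : ((∑ v ∈ S, Kr N (φ v) - (∑ t ∈ Tv, CC N t) * (S.card : ℝ) : ℝ) : ℂ) =
      ∑ t ∈ TT r N \ Tv, (CC N t : ℂ) * ∑ v ∈ S, ee (∑ i, ((t i : ℝ) - N) * φ v i) := by
    rw [Complex.ofReal_sub, e1, ← e2, ← sum_sdiff hTv]
    ring
  have e4 : |∑ v ∈ S, Kr N (φ v) - (∑ t ∈ Tv, CC N t) * (S.card : ℝ)| =
      ‖((∑ v ∈ S, Kr N (φ v) - (∑ t ∈ Tv, CC N t) * (S.card : ℝ) : ℝ) : ℂ)‖ := by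
    rw [Complex.norm_real, Real.norm_eq_abs]
  rw [e4, e3]
  refine (norm_sum_le _ _).trans ?_
  calc ∑ t ∈ TT r N \ Tv, ‖(CC N t : ℂ) * ∑ v ∈ S, ee (∑ i, ((t i : ℝ) - N) * φ v i)‖ ≤
      ∑ t ∈ TT r N \ Tv, CC N t * E := by
        apply sum_le_sum
        intro t ht
        rw [Finset.mem_sdiff] at ht
        rw [norm_mul, Complex.norm_real, Real.norm_eq_abs, abs_of_nonneg (CC_nonneg N t)]
        exact mul_le_mul_of_nonneg_left (h2 t ht.1 ht.2) (CC_nonneg N t)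
    _ ≤ ∑ t ∈ TT r N, CC N t * E := by
        apply sum_le_sum_of_subset_of_nonneg sdiff_subset
        intro t _ _
        exact mul_nonneg (CC_nonneg N t) hE0
    _ = E := by rw [← sum_mul, CC_sum, one_mul]

open Classical in
/-- the weight of the bad values, general weights -/
theorem bad_gen {W n0 : ℕ} (hW : 2 ≤ W) (hn0 : n0 < W ^ 4) (V : ℕ) (w : ℕ → ℝ)
    (hw0 : ∀ v, 0 ≤ w v) (hw1 : ∀ v, w v ≤ 1) (A η : ℝ) (hA : 0 ≤ A) (hη : 0 ≤ η) (y P1 Pm : ℕ)
    (hy : 1 ≤ y) (hP1 : 1 ≤ P1)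
    (hcl : ∀ d : ℕ, 1 ≤ d → d ≤ P1 ^ 2 → ∀ r : ℕ,
      ∑ v ∈ (Icc 1 V).filter (fun v => v ≡ r [MOD d]), w v ≤ A * ((V : ℝ) / d + 1) + η)
    (hPm : W ^ 6 * (V + 1) + 1 < (Pm + 1) ^ 2) :
    ∑ v ∈ (Icc 1 V).filter (fun v => bad W n0 y v), w v ≤
      3 * A * V / y + 3 * P1 * (A + η) + (3 * V / P1 + 3 * Pm) := by
  set S1 := (Ioc y P1).filter (fun p => p.Prime ∧ ¬ p ∣ W) with hS1
  set S2 := (Ioc P1 Pm).filter (fun p => p.Prime ∧ ¬ p ∣ W) with hS2
  have hpt : ∀ v ∈ (Icc 1 V).filter (fun v => bad W n0 y v), w v ≤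
      ∑ p ∈ S1, ∑ i : Fin 3, (if p ^ 2 ∣ Lf W n0 i v then w v else 0) +
      ∑ p ∈ S2, ∑ i : Fin 3, (if p ^ 2 ∣ Lf W n0 i v then (1 : ℝ) else 0) := by
    intro v hv
    rw [mem_filter, mem_Icc] at hv
    obtain ⟨⟨hv1, hv2⟩, p, hp, hpW, hyp, i, hi⟩ := hv
    have n1 : 0 ≤ ∑ p ∈ S1, ∑ i : Fin 3, (if p ^ 2 ∣ Lf W n0 i v then w v else 0) :=
      sum_nonneg fun _ _ => sum_nonneg fun _ _ => by split_ifs <;> [exact hw0 v; exact le_rfl]
    have n2 : 0 ≤ ∑ p ∈ S2, ∑ i : Fin 3, (if p ^ 2 ∣ Lf W n0 i v then (1 : ℝ) else 0) :=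
      sum_nonneg fun _ _ => sum_nonneg fun _ _ => by split_ifs <;> norm_num
    by_cases hpP : p ≤ P1
    · have hpS : p ∈ S1 := by
        rw [hS1, mem_filter, mem_Ioc]
        exact ⟨⟨hyp, hpP⟩, hp, hpW⟩
      have e1 : w v ≤ ∑ i : Fin 3, (if p ^ 2 ∣ Lf W n0 i v then w v else 0) := by
        have := single_le_sum (f := fun i : Fin 3 => if p ^ 2 ∣ Lf W n0 i v then w v else 0)
          (s := univ) (fun _ _ => by
            show (0 : ℝ) ≤ _
            split_ifs <;> [exact hw0 v; exact le_rfl]) (mem_univ i)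
        simp only [if_pos hi] at this
        exact this
      have e2 := single_le_sum
        (f := fun p => ∑ i : Fin 3, (if p ^ 2 ∣ Lf W n0 i v then w v else 0))
        (s := S1) (fun _ _ => sum_nonneg fun _ _ => by
            split_ifs <;> [exact hw0 v; exact le_rfl]) hpS
      have e3 := e1.trans e2
      linarith
    · have hpS : p ∈ S2 := by
        rw [hS2, mem_filter, mem_Ioc]
        refine ⟨⟨by omega, ?_⟩, hp, hpW⟩
        have h1 : p ^ 2 ≤ Lf W n0 i v := Nat.le_of_dvd (Lf_pos hW hn0 i v) hi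
        have h2 := Lf_le hW hn0 i v
        have h3 : W ^ 6 * (v + 1) ≤ W ^ 6 * (V + 1) := Nat.mul_le_mul_left _ (by omega)
        have h4 : p ^ 2 < (Pm + 1) ^ 2 := by omega
        have := lt_of_pow_lt_pow_left₀ 2 (by omega) h4
        omega
      have e1 : (1 : ℝ) ≤ ∑ i : Fin 3, (if p ^ 2 ∣ Lf W n0 i v then (1 : ℝ) else 0) := by
        have := single_le_sum (f := fun i : Fin 3 => if p ^ 2 ∣ Lf W n0 i v then (1 : ℝ) else 0)
          (s := univ) (fun _ _ => by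
            show (0 : ℝ) ≤ _
            split_ifs <;> norm_num) (mem_univ i)
        simp only [if_pos hi] at this
        exact this
      have e2 := single_le_sum
        (f := fun p => ∑ i : Fin 3, (if p ^ 2 ∣ Lf W n0 i v then (1 : ℝ) else 0))
        (s := S2) (fun _ _ => sum_nonneg fun _ _ => by split_ifs <;> norm_num) hpS
      have e3 := (hw1 v).trans (e1.trans e2)
      linarith
  have hsum := sum_le_sum hpt
  rw [sum_add_distrib] at hsum
  have g1 : ∑ v ∈ (Icc 1 V).filter (fun v => bad W n0 y v),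
      ∑ p ∈ S1, ∑ i : Fin 3, (if p ^ 2 ∣ Lf W n0 i v then w v else 0) ≤
      ∑ p ∈ S1, ∑ i : Fin 3, ∑ v ∈ (Icc 1 V).filter (fun v => p ^ 2 ∣ Lf W n0 i v), w v := by
    calc _ ≤ ∑ v ∈ Icc 1 V, ∑ p ∈ S1, ∑ i : Fin 3, (if p ^ 2 ∣ Lf W n0 i v then w v else 0) := by
          apply sum_le_sum_of_subset_of_nonneg (filter_subset _ _)
          intro v _ _
          exact sum_nonneg fun _ _ => sum_nonneg fun _ _ => by
            split_ifs <;> [exact hw0 v; exact le_rfl]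
      _ = _ := by
          rw [sum_comm]
          apply sum_congr rfl
          intro p _
          rw [sum_comm]
          apply sum_congr rfl
          intro i _
          rw [sum_filter]
  have g2 : ∑ v ∈ (Icc 1 V).filter (fun v => bad W n0 y v),
      ∑ p ∈ S2, ∑ i : Fin 3, (if p ^ 2 ∣ Lf W n0 i v then (1 : ℝ) else 0) ≤
      ∑ p ∈ S2, ∑ i : Fin 3, (((Icc 1 V).filter (fun v => p ^ 2 ∣ Lf W n0 i v)).card : ℝ) := by
    calc _ ≤ ∑ v ∈ Icc 1 V, ∑ p ∈ S2, ∑ i : Fin 3, (if p ^ 2 ∣ Lf W n0 i v then (1 : ℝ) else 0) := by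
          apply sum_le_sum_of_subset_of_nonneg (filter_subset _ _)
          intro v _ _
          exact sum_nonneg fun _ _ => sum_nonneg fun _ _ => by split_ifs <;> norm_num
      _ = _ := by
          rw [sum_comm]
          apply sum_congr rfl
          intro p _
          rw [sum_comm]
          apply sum_congr rfl
          intro i _
          rw [← sum_filter, sum_const, nsmul_eq_mul, mul_one]
  have hco : ∀ p : ℕ, p.Prime → ¬ p ∣ W → Nat.Coprime (p ^ 2) W := fun p hp hpW =>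
    Nat.Coprime.pow_left 2 ((Nat.Prime.coprime_iff_not_dvd hp).2 hpW)
  have hy0 : (0 : ℝ) < y := by exact_mod_cast hy
  have hP0 : (0 : ℝ) < P1 := by exact_mod_cast hP1
  have hV0 : (0 : ℝ) ≤ V := Nat.cast_nonneg _
  have hcw : ∀ d : ℕ, 1 ≤ d → d ≤ P1 ^ 2 → ∀ (P : ℕ → Prop) [DecidablePred P],
      (∀ v v', P v → P v' → v ≡ v' [MOD d]) →
      ∑ v ∈ (Icc 1 V).filter P, w v ≤ A * ((V : ℝ) / d + 1) + η := by
    intro d hd hdD P _ hP
    by_cases he : ((Icc 1 V).filter P) = ∅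
    · rw [he, sum_empty]
      positivity
    · obtain ⟨r, hr⟩ := nonempty_iff_ne_empty.2 he
      rw [mem_filter] at hr
      refine le_trans ?_ (hcl d hd hdD r)
      apply sum_le_sum_of_subset_of_nonneg
      · intro v hv
        rw [mem_filter] at hv ⊢
        exact ⟨hv.1, hP v r hv.2 hr.2⟩
      · intro v _ _
        exact hw0 v
  have g3 : ∑ p ∈ S1, ∑ i : Fin 3, ∑ v ∈ (Icc 1 V).filter (fun v => p ^ 2 ∣ Lf W n0 i v), w v ≤
      3 * A * V / y + 3 * P1 * (A + η) := by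
    calc _ ≤ ∑ p ∈ S1, ∑ _i : Fin 3, (A * (V * (1 / (p : ℝ) ^ 2) + 1) + η) := by
          apply sum_le_sum
          intro p hp
          apply sum_le_sum
          intro i _
          rw [hS1, mem_filter, mem_Ioc] at hp
          have h1 := hcw (p ^ 2) (Nat.pow_pos hp.2.1.pos)
            (Nat.pow_le_pow_left hp.1.2 2) (fun v => p ^ 2 ∣ Lf W n0 i v)
            (fun v v' h1 h2 => Lf_uniq hW hn0 (hco p hp.2.1 hp.2.2) i h1 h2)
          refine h1.trans (le_of_eq ?_)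
          push_cast
          ring
      _ = ∑ p ∈ S1, (3 * A * V * (1 / (p : ℝ) ^ 2) + 3 * (A + η)) := by
          apply sum_congr rfl
          intro p _
          rw [sum_const, card_univ, Fintype.card_fin, nsmul_eq_mul]
          push_cast
          ring
      _ = 3 * A * V * ∑ p ∈ S1, (1 / (p : ℝ) ^ 2) + (S1.card : ℝ) * (3 * (A + η)) := by
          rw [sum_add_distrib, ← mul_sum, sum_const, nsmul_eq_mul]
      _ ≤ 3 * A * V * (1 / y) + P1 * (3 * (A + η)) := by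
          apply add_le_add
          · apply mul_le_mul_of_nonneg_left _ (by positivity)
            exact sum_sq_le y P1 hy S1 (filter_subset _ _)
          · have h1 : (S1.card : ℝ) ≤ P1 := by
              have : S1.card ≤ P1 := by
                calc S1.card ≤ (Ioc y P1).card := card_le_card (filter_subset _ _)
                  _ ≤ P1 := by rw [Nat.card_Ioc]; omega
              exact_mod_cast this
            apply mul_le_mul_of_nonneg_right h1 (by positivity)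
      _ = _ := by ring
  have g4 : ∑ p ∈ S2, ∑ i : Fin 3, (((Icc 1 V).filter (fun v => p ^ 2 ∣ Lf W n0 i v)).card : ℝ) ≤
      3 * V / P1 + 3 * Pm := by
    calc _ ≤ ∑ p ∈ S2, ∑ _i : Fin 3, ((V : ℝ) * (1 / (p : ℝ) ^ 2) + 1) := by
          apply sum_le_sum
          intro p hp
          apply sum_le_sum
          intro i _
          rw [hS2, mem_filter, mem_Ioc] at hp
          have h1 := cls_card V (p ^ 2) (Nat.pow_pos hp.2.1.pos) (fun v => p ^ 2 ∣ Lf W n0 i v)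
            (fun v v' h1 h2 => Lf_uniq hW hn0 (hco p hp.2.1 hp.2.2) i h1 h2)
          refine h1.trans (le_of_eq ?_)
          push_cast
          ring
      _ = ∑ p ∈ S2, (3 * V * (1 / (p : ℝ) ^ 2) + 3) := by
          apply sum_congr rfl
          intro p _
          rw [sum_const, card_univ, Fintype.card_fin, nsmul_eq_mul]
          push_cast
          ring
      _ = 3 * V * ∑ p ∈ S2, (1 / (p : ℝ) ^ 2) + (S2.card : ℝ) * 3 := by
          rw [sum_add_distrib, ← mul_sum, sum_const, nsmul_eq_mul]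
      _ ≤ 3 * V * (1 / P1) + Pm * 3 := by
          apply add_le_add
          · apply mul_le_mul_of_nonneg_left _ (by positivity)
            exact sum_sq_le P1 Pm hP1 S2 (filter_subset _ _)
          · have h1 : (S2.card : ℝ) ≤ Pm := by
              have : S2.card ≤ Pm := by
                calc S2.card ≤ (Ioc P1 Pm).card := card_le_card (filter_subset _ _)
                  _ ≤ Pm := by rw [Nat.card_Ioc]; omega
              exact_mod_cast this
            linarith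
      _ = _ := by ring
  linarith

end Pool.Agent.V7H99.CD
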