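import Mathlib
import Pool.Agent.V7H99.CD.B1
import Pool.Agent.V7H99.CD.B2
import Pool.Agent.V7H99.CD.M1

set_option autoImplicit false

/-! Bohr recurrence along the squarefree congruent numbers. -/

namespace Pool.Agent.V7H99.CD
open Finset Polynomial Filter
open Pool.Agent.Helper602.MK (ee)
open Pool.Agent.Helper602.MK.N_J5b (ee_add ee_zero ee_conj norm_ee ee_int ee_nat_mul)

/-- a common denominator -/
lemma common_den (S : Finset ℝ) : ∃ W0 : ℕ, 1 ≤ W0 ∧ ∀ x ∈ S, ¬ Irrational x →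
    ∃ z : ℤ, (W0 : ℝ) * x = z := by
  classical
  induction S using Finset.induction_on with
  | empty => exact ⟨1, le_rfl, fun x hx => absurd hx (notMem_empty x)⟩
  | insert a S ha ih =>
    obtain ⟨W0, h1, h2⟩ := ih
    by_cases hirr : Irrational a
    · refine ⟨W0, h1, ?_⟩
      intro x hx hxi
      rcases mem_insert.1 hx with rfl | hx
      · exact absurd hirr hxi
      · exact h2 x hx hxi
    · unfold Irrational at hirr
      rw [not_not] at hirr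
      obtain ⟨q, rfl⟩ := hirr
      refine ⟨W0 * q.den, Nat.mul_pos h1 q.pos, ?_⟩
      intro x hx hxi
      rcases mem_insert.1 hx with rfl | hx
      · refine ⟨W0 * q.num, ?_⟩
        have hq : (q : ℝ) = (q.num : ℝ) / q.den := by exact_mod_cast (Rat.num_div_den q).symm
        have hd0 : (q.den : ℝ) ≠ 0 := by exact_mod_cast q.pos.ne'
        push_cast
        rw [mul_assoc]
        congr 1
        rw [hq]
        field_simp
      · obtain ⟨z, hz⟩ := h2 x hx hxi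
        refine ⟨q.den * z, ?_⟩
        push_cast
        rw [← hz]
        ring

/-- the choice of the exponent of the kernel -/
lemma exists_N (r : ℕ) (ε : ℝ) (hε : 0 < ε) : ∃ N : ℕ, 1 ≤ N ∧
    Real.exp (-(4 * N * ε ^ 2)) ≤ 1 / 8 * (1 / (2 * N : ℝ)) ^ r := by
  have h := (Real.tendsto_pow_mul_exp_neg_atTop_nhds_zero r).eventually
    (gt_mem_nhds (show (0 : ℝ) < (2 * ε ^ 2) ^ r / 8 by positivity))
  rw [eventually_atTop] at h
  obtain ⟨a, ha⟩ := h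
  obtain ⟨N, hN⟩ := exists_nat_ge (max a 1 / (4 * ε ^ 2) + 1)
  have hmax : 1 ≤ max a 1 := le_max_right _ _
  have hN1 : (1 : ℝ) ≤ N := by
    have : 0 ≤ max a 1 / (4 * ε ^ 2) := by positivity
    linarith
  have hN0 : (0 : ℝ) < N := by linarith
  refine ⟨N, by exact_mod_cast hN1, ?_⟩
  have h1 : a ≤ 4 * N * ε ^ 2 := by
    have h2 : max a 1 / (4 * ε ^ 2) ≤ N := by linarith
    rw [div_le_iff₀ (by positivity)] at h2
    have := le_max_left a 1
    linarith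
  have h3 := (ha _ h1).le
  have h4 : 4 * (N : ℝ) * ε ^ 2 = (2 * N) * (2 * ε ^ 2) := by ring
  have h5 : (4 * (N : ℝ) * ε ^ 2) ^ r = (2 * (N : ℝ)) ^ r * (2 * ε ^ 2) ^ r := by
    rw [h4, mul_pow]
  rw [h5] at h3
  have h6 : 0 < (2 * ε ^ 2) ^ r := by positivity
  have h7 : (2 * (N : ℝ)) ^ r * Real.exp (-(4 * N * ε ^ 2)) ≤ 1 / 8 := by
    have e : (2 * (N : ℝ)) ^ r * (2 * ε ^ 2) ^ r * Real.exp (-(4 * N * ε ^ 2)) =
      (2 * ε ^ 2) ^ r * ((2 * (N : ℝ)) ^ r * Real.exp (-(4 * N * ε ^ 2))) := by ring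
    rw [e] at h3
    have h8 : (2 * ε ^ 2) ^ r * ((2 * (N : ℝ)) ^ r * Real.exp (-(4 * N * ε ^ 2))) ≤
        (2 * ε ^ 2) ^ r * (1 / 8) := by linarith
    exact le_of_mul_le_mul_left h8 h6
  rw [one_div, one_div (2 * (N : ℝ)), inv_pow]
  have h9 : 0 < (2 * (N : ℝ)) ^ r := by positivity
  rw [← div_eq_mul_inv, le_div_iff₀ h9]
  linarith

section
variable {r : ℕ} (f : Fin r → ℝ[X]) (N : ℕ)

/-- the combination with frequency `t` -/
noncomputable def FF (t : Fin r → ℕ) : ℝ[X] := ∑ i, C ((t i : ℝ) - N) * f i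

lemma FF_eval (t : Fin r → ℕ) (x : ℝ) : (FF f N t).eval x = ∑ i, ((t i : ℝ) - N) * (f i).eval x := by
  unfold FF
  rw [eval_finsetSum]
  apply sum_congr rfl
  intro i _
  rw [eval_mul, eval_C]

open Classical in
/-- the part with irrational coefficients -/
noncomputable def GG (Dg : ℕ) (t : Fin r → ℕ) : ℝ[X] := ∑ j ∈ range (Dg + 1),
  if 1 ≤ j ∧ Irrational ((FF f N t).coeff j) then C ((FF f N t).coeff j) * X ^ j else 0

open Classical in
lemma GG_coeff (Dg : ℕ) (t : Fin r → ℕ) (l : ℕ) : (GG f N Dg t).coeff l =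
    if l ≤ Dg ∧ 1 ≤ l ∧ Irrational ((FF f N t).coeff l) then (FF f N t).coeff l else 0 := by
  unfold GG
  rw [finsetSum_coeff]
  by_cases hl : l ≤ Dg
  · rw [sum_eq_single l]
    · by_cases h : 1 ≤ l ∧ Irrational ((FF f N t).coeff l)
      · rw [if_pos h, if_pos ⟨hl, h⟩, coeff_C_mul, coeff_X_pow_self, mul_one]
      · rw [if_neg h, if_neg (fun h' => h h'.2), coeff_zero]
    · intro j _ hj
      split_ifs
      · rw [coeff_C_mul, coeff_X_pow, if_neg (Ne.symm hj), mul_zero]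
      · rw [coeff_zero]
    · intro h
      exact absurd (mem_range.2 (by omega)) h
  · rw [if_neg (fun h => hl h.1)]
    apply sum_eq_zero
    intro j hj
    rw [mem_range] at hj
    split_ifs
    · rw [coeff_C_mul, coeff_X_pow, if_neg (by omega), mul_zero]
    · rw [coeff_zero]

lemma GG_lead (Dg : ℕ) (t : Fin r → ℕ) (h : GG f N Dg t ≠ 0) : 1 ≤ (GG f N Dg t).natDegree ∧
    Irrational (GG f N Dg t).leadingCoeff := by
  classical
  have h1 : (GG f N Dg t).leadingCoeff ≠ 0 := leadingCoeff_ne_zero.2 h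
  unfold leadingCoeff at h1 ⊢
  have h2 := GG_coeff f N Dg t (GG f N Dg t).natDegree
  by_cases h3 : (GG f N Dg t).natDegree ≤ Dg ∧ 1 ≤ (GG f N Dg t).natDegree ∧
      Irrational ((FF f N t).coeff (GG f N Dg t).natDegree)
  · rw [if_pos h3] at h2
    rw [h2]
    exact h3.2
  · rw [if_neg h3] at h2
    exact absurd h2 h1

/-- modulo one the difference is carried by the irrational part -/
lemma FF_GG (Dg W0 : ℕ) (hW0 : 1 ≤ W0) (t : Fin r → ℕ) (hdeg : (FF f N t).natDegree ≤ Dg)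
    (hden : ∀ j ≤ Dg, ¬ Irrational ((FF f N t).coeff j) →
      ∃ z : ℤ, (W0 : ℝ) * (FF f N t).coeff j = z) (n s : ℕ) (hns : n ≡ s [MOD W0]) :
    ∃ z : ℤ, (FF f N t).eval (n : ℝ) - (FF f N t).eval (s : ℝ) =
      ((GG f N Dg t).eval (n : ℝ) - (GG f N Dg t).eval (s : ℝ)) + z := by
  classical
  have hWr : (W0 : ℝ) ≠ 0 := by exact_mod_cast (by omega : W0 ≠ 0)
  have key : ∀ j ∈ range (Dg + 1), ∃ z : ℤ, (FF f N t).coeff j * (n : ℝ) ^ j -
      (FF f N t).coeff j * (s : ℝ) ^ j = ((if 1 ≤ j ∧ Irrational ((FF f N t).coeff j) then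
        C ((FF f N t).coeff j) * X ^ j else 0 : ℝ[X]).eval (n : ℝ) -
        (if 1 ≤ j ∧ Irrational ((FF f N t).coeff j) then
        C ((FF f N t).coeff j) * X ^ j else 0 : ℝ[X]).eval (s : ℝ)) + z := by
    intro j hj
    rw [mem_range] at hj
    by_cases h : 1 ≤ j ∧ Irrational ((FF f N t).coeff j)
    · refine ⟨0, ?_⟩
      rw [if_pos h]
      simp
    · rw [if_neg h]
      by_cases hj0 : j = 0
      · refine ⟨0, ?_⟩
        subst hj0
        simp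
      · have hirr : ¬ Irrational ((FF f N t).coeff j) := fun h' => h ⟨by omega, h'⟩
        obtain ⟨z, hz⟩ := hden j (by omega) hirr
        have hdvd : (W0 : ℤ) ∣ (n : ℤ) ^ j - (s : ℤ) ^ j := by
          have h1 : (n : ℤ) ≡ s [ZMOD W0] := (Int.natCast_modEq_iff).2 hns
          exact (h1.pow j).symm.dvd
        obtain ⟨y, hy⟩ := hdvd
        refine ⟨z * y, ?_⟩
        have hy' : (n : ℝ) ^ j - (s : ℝ) ^ j = W0 * y := by exact_mod_cast hy
        have e : (FF f N t).coeff j * (n : ℝ) ^ j - (FF f N t).coeff j * (s : ℝ) ^ j =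
            (FF f N t).coeff j * ((n : ℝ) ^ j - (s : ℝ) ^ j) := by ring
        rw [e, hy', ← mul_assoc, mul_comm _ (W0 : ℝ), hz]
        simp
  choose! z hz using key
  refine ⟨∑ j ∈ range (Dg + 1), z j, ?_⟩
  rw [eval_eq_sum_range' (n := Dg + 1) (by omega), eval_eq_sum_range' (n := Dg + 1) (by omega),
    ← sum_sub_distrib, sum_congr rfl hz, sum_add_distrib, sum_sub_distrib]
  unfold GG
  rw [eval_finsetSum, eval_finsetSum]
  push_cast
  rfl

end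

open Classical in
/-- the good parameters -/
noncomputable def GB {r : ℕ} (W n0 y V : ℕ) (φ : ℕ → Fin r → ℝ) (ε : ℝ) : Finset ℕ :=
  (Icc 1 V).filter (fun v => ¬ bad W n0 y v ∧ ∀ i, ∃ z : ℤ, |φ v i - z| < ε)

open Classical in
lemma split_GB {r : ℕ} (W n0 y V N : ℕ) (φ : ℕ → Fin r → ℝ) (ε : ℝ) (hε : 0 < ε) :
    ∑ v ∈ Icc 1 V, Kr N (φ v) ≤ ((GB W n0 y V φ ε).card : ℝ) +
      ∑ v ∈ (Icc 1 V).filter (fun v => bad W n0 y v), Kr N (φ v) +
      V * Real.exp (-(4 * N * ε ^ 2)) := by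
  set E := Real.exp (-(4 * N * ε ^ 2)) with hE
  have hE0 : 0 < E := Real.exp_pos _
  have e1 : ((GB W n0 y V φ ε).card : ℝ) = ∑ v ∈ Icc 1 V, (if ¬ bad W n0 y v ∧
      ∀ i, ∃ z : ℤ, |φ v i - z| < ε then (1 : ℝ) else 0) := by
    unfold GB
    rw [← sum_filter, sum_const, nsmul_eq_mul, mul_one]
  have e2 : (V : ℝ) * E = ∑ v ∈ Icc 1 V, E := by
    rw [sum_const, Nat.card_Icc, nsmul_eq_mul, Nat.add_sub_cancel]
  rw [e1, e2, sum_filter, ← sum_add_distrib, ← sum_add_distrib]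
  apply sum_le_sum
  intro v _
  have hk0 := Kr_nonneg N (φ v)
  have hk1 := Kr_le_one N (φ v)
  by_cases h2 : bad W n0 y v
  · rw [if_pos h2]
    split_ifs <;> linarith
  · rw [if_neg h2]
    by_cases h3 : ∀ i, ∃ z : ℤ, |φ v i - z| < ε
    · rw [if_pos ⟨h2, h3⟩]
      linarith
    · rw [if_neg (fun h => h3 h.2)]
      push Not at h3
      obtain ⟨i, hi⟩ := h3
      have h4 : Kr N (φ v) ≤ E := Kr_far N (φ v) ε hε.le i hi
      linarith

/-- **recurrence: the number of good parameters** -/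
theorem bohr_count {r : ℕ} (f : Fin r → ℝ[X]) (ε : ℝ) (hε : 0 < ε) (M s : ℕ) (hM : 0 < M) :
    ∃ (M' W n0 : ℕ) (A : ℝ) (V0 : ℕ), M ∣ M' ∧ 0 < M' ∧
      0 < A ∧ 0 < W ∧ 2 ∣ W ∧ M' ∣ W ∧ (∀ p : ℕ, p.Prime → p ≤ 24 → p ∣ W) ∧ n0 < W ^ 4 ∧
      n0 ≡ s [MOD M' ^ 2] ∧ (∀ p : ℕ, p.Prime → p ∣ W → ¬ p ∣ M' → n0 ≡ 1 [MOD p]) ∧
      ∀ V : ℕ, V0 ≤ V → A * V ≤ ((GB W n0 24 V
        (fun v i => (f i).eval (nn W n0 v : ℝ) - (f i).eval (s : ℝ)) ε).card : ℝ) := by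
  classical
  obtain ⟨N, hN1, hN⟩ := exists_N r ε hε
  set Dg := (TT r N).sup (fun t => (FF f N t).natDegree) with hDg
  have hdeg : ∀ t ∈ TT r N, (FF f N t).natDegree ≤ Dg := fun t ht =>
    Finset.le_sup (f := fun t => (FF f N t).natDegree) ht
  obtain ⟨W0, hW01, hW0⟩ := common_den
    ((TT r N ×ˢ range (Dg + 1)).image (fun x => (FF f N x.1).coeff x.2))
  have hden : ∀ t ∈ TT r N, ∀ j ≤ Dg, ¬ Irrational ((FF f N t).coeff j) →
      ∃ z : ℤ, (W0 : ℝ) * (FF f N t).coeff j = z := by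
    intro t ht j hj
    apply hW0
    exact mem_image.2 ⟨(t, j), mem_product.2 ⟨ht, mem_range.2 (by omega)⟩, rfl⟩
  set M' := M * W0 with hM'
  have hM'0 : 0 < M' := Nat.mul_pos hM hW01
  set W := M' * (24 : ℕ).factorial with hW
  have hWpos : 0 < W := Nat.mul_pos hM'0 (Nat.factorial_pos _)
  have hWp : ∀ p : ℕ, p.Prime → p ≤ 24 → p ∣ W := fun p hp h =>
    (Nat.dvd_factorial hp.pos h).mul_left _
  have h2W : 2 ∣ W := hWp 2 Nat.prime_two (by norm_num)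
  have hW2 : 2 ≤ W := Nat.le_of_dvd hWpos h2W
  have hM'W : M' ∣ W := dvd_mul_right _ _
  obtain ⟨n0, hn0, hn1, hn2⟩ := exists_n0 M' s W hM'W hWpos
  have hnns : ∀ v, nn W n0 v ≡ s [MOD W0] := by
    intro v
    have h1 := nn_mod hW2 hn0 v
    have h2 : W0 ∣ M' := dvd_mul_left _ _
    have h3 : W0 ∣ M' ^ 2 := h2.trans (dvd_pow_self _ (by norm_num))
    have h4 : W0 ∣ W ^ 4 := (h2.trans hM'W).trans (dvd_pow_self _ (by norm_num))
    exact (h1.of_dvd h4).trans (hn1.of_dvd h3)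
  set φ : ℕ → Fin r → ℝ := fun v i => (f i).eval (nn W n0 v : ℝ) - (f i).eval (s : ℝ) with hφ
  set Tv := (TT r N).filter (fun t => GG f N Dg t = 0) with hTv
  set A := ∑ t ∈ Tv, CC N t with hA
  have hphase : ∀ t : Fin r → ℕ, ∀ v, ∑ i, ((t i : ℝ) - N) * φ v i =
      (FF f N t).eval (nn W n0 v : ℝ) - (FF f N t).eval (s : ℝ) := by
    intro t v
    rw [FF_eval, FF_eval, ← sum_sub_distrib]
    apply sum_congr rfl
    intro i _
    rw [hφ]
    ring
  have hAlow : (1 / (2 * N : ℝ)) ^ r ≤ A := by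
    have hmem : (fun _ => N : Fin r → ℕ) ∈ Tv := by
      rw [hTv, mem_filter]
      refine ⟨?_, ?_⟩
      · unfold TT
        rw [Fintype.mem_piFinset]
        intro i
        exact mem_range.2 (by omega)
      · have hF : FF f N (fun _ => N) = 0 := by
          unfold FF
          simp
        ext l
        rw [GG_coeff, hF]
        simp
    calc (1 / (2 * N : ℝ)) ^ r ≤ (cf N N) ^ r :=
          pow_le_pow_left₀ (by positivity) (cf_mid N hN1) r
      _ = CC N (fun _ => N : Fin r → ℕ) := by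
          unfold CC
          rw [prod_const, card_univ, Fintype.card_fin]
      _ ≤ A := single_le_sum (f := fun t => CC N t) (fun t _ => CC_nonneg N t) hmem
  have hN0 : (0 : ℝ) < N := by exact_mod_cast hN1
  have hA0 : 0 < A := lt_of_lt_of_le (by positivity) hAlow
  have hA1 : A ≤ 1 := by
    rw [← CC_sum r N]
    exact sum_le_sum_of_subset_of_nonneg (filter_subset _ _) (fun t _ _ => CC_nonneg N t)
  -- constants
  obtain ⟨P1, hP1⟩ := exists_nat_ge (96 / A)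
  have hP1r : (96 : ℝ) ≤ P1 := by
    refine le_trans ?_ hP1
    rw [le_div_iff₀ hA0]
    linarith
  have hP11 : 1 ≤ P1 := by
    have : (1 : ℝ) ≤ P1 := by linarith
    exact_mod_cast this
  set η := A / (32 * (1 + 3 * P1)) with hη
  have hη0 : 0 < η := by positivity
  have hfam : ∀ t ∈ TT r N, ∃ V1 : ℕ, ∀ V : ℕ, V1 ≤ V → t ∉ Tv → ∀ d : ℕ, 1 ≤ d → d ≤ P1 ^ 2 →
      ∀ q : ℕ, ‖∑ v ∈ (Icc 1 V).filter (fun v => v ≡ q [MOD d]),
        ee ((GG f N Dg t).eval (nn W n0 v : ℝ))‖ ≤ η * V := by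
    intro t ht
    by_cases htv : t ∈ Tv
    · exact ⟨0, fun V _ h => absurd htv h⟩
    · have hG0 : GG f N Dg t ≠ 0 := fun h => htv (mem_filter.2 ⟨ht, h⟩)
      obtain ⟨g1, g2⟩ := GG_lead f N Dg t hG0
      obtain ⟨V1, hV1⟩ := weyl_fam (GG f N Dg t) g1 g2 W n0 hW2 hn0 (P1 ^ 2) η hη0
      exact ⟨V1, fun V hV _ d hd hdD q => hV1 V hV d hd hdD q⟩
  choose! V1 hV1 using hfam
  set VT := (TT r N).sup V1 with hVT
  obtain ⟨V2, hV2⟩ := exists_nat_ge ((96 * (W : ℝ) ^ 3 * 3 / A) ^ 2 + 96 * P1 + 1)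
  refine ⟨M', W, n0, A / 2, max VT V2, dvd_mul_right _ _, hM'0,
    by positivity, hWpos, h2W, hM'W, hWp, hn0, hn1, hn2, ?_⟩
  intro V hV
  have hVT' : VT ≤ V := (le_max_left _ _).trans hV
  have hV2' : (V2 : ℝ) ≤ V := by exact_mod_cast (le_max_right _ _).trans hV
  have hV3 := hV2.trans hV2'
  have hV0 : (0 : ℝ) ≤ V := Nat.cast_nonneg _
  -- the sum over a class
  have hcl : ∀ d : ℕ, 1 ≤ d → d ≤ P1 ^ 2 → ∀ q : ℕ,
      |∑ v ∈ (Icc 1 V).filter (fun v => v ≡ q [MOD d]), Kr N (φ v) -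
        A * (((Icc 1 V).filter (fun v => v ≡ q [MOD d])).card : ℝ)| ≤ η * V := by
    intro d hd hdD q
    apply Kr_sum N _ φ Tv (filter_subset _ _) (η * V) (by positivity)
    · intro t ht v _
      rw [hTv, mem_filter] at ht
      rw [hphase]
      obtain ⟨z, hz⟩ := FF_GG f N Dg W0 hW01 t (hdeg t ht.1) (hden t ht.1) (nn W n0 v) s (hnns v)
      rw [hz, ht.2, eval_zero, eval_zero, sub_self, zero_add]
      exact ee_int z
    · intro t ht htv
      have e1 : ∀ v ∈ (Icc 1 V).filter (fun v => v ≡ q [MOD d]),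
          ee (∑ i, ((t i : ℝ) - N) * φ v i) =
          ee (-(GG f N Dg t).eval (s : ℝ)) * ee ((GG f N Dg t).eval (nn W n0 v : ℝ)) := by
        intro v _
        rw [hphase]
        obtain ⟨z, hz⟩ := FF_GG f N Dg W0 hW01 t (hdeg t ht) (hden t ht) (nn W n0 v) s (hnns v)
        rw [hz, ee_add, ee_int, mul_one, ← ee_add]
        congr 1
        ring
      rw [sum_congr rfl e1, ← mul_sum, norm_mul, norm_ee, one_mul]
      exact hV1 t ht V ((Finset.le_sup ht).trans hVT') htv d hd hdD q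
  have htotal : A * V - η * V ≤ ∑ v ∈ Icc 1 V, Kr N (φ v) := by
    have h1 := (abs_le.1 (hcl 1 le_rfl (Nat.one_le_pow _ _ hP11) 0)).1
    have e1 : (Icc 1 V).filter (fun v => v ≡ 0 [MOD 1]) = Icc 1 V := by
      apply filter_true_of_mem
      intro v _
      exact Nat.modEq_one
    rw [e1, Nat.card_Icc, Nat.add_sub_cancel] at h1
    linarith
  have hclass : ∀ d : ℕ, 1 ≤ d → d ≤ P1 ^ 2 → ∀ q : ℕ,
      ∑ v ∈ (Icc 1 V).filter (fun v => v ≡ q [MOD d]), Kr N (φ v) ≤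
        A * ((V : ℝ) / d + 1) + η * V := by
    intro d hd hdD q
    have h1 := (abs_le.1 (hcl d hd hdD q)).2
    have h2 := (abs_le.1 (Pool.Agent.H373R2.T7.count_class V d q hd)).2
    have h3 : A * (((Icc 1 V).filter (fun v => v ≡ q [MOD d])).card : ℝ) ≤
        A * ((V : ℝ) / d + 1) := by
      apply mul_le_mul_of_nonneg_left _ hA0.le
      linarith
    linarith
  have hsq1 : V < (Nat.sqrt V + 1) ^ 2 := by
    have := Nat.lt_succ_sqrt V
    rw [sq]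
    exact this
  have hPm : W ^ 6 * (V + 1) + 1 < (W ^ 3 * (Nat.sqrt V + 2) + 1) ^ 2 := by
    have h1 : V + 1 ≤ (Nat.sqrt V + 2) ^ 2 := by
      have e : (Nat.sqrt V + 2) ^ 2 = (Nat.sqrt V + 1) ^ 2 + (2 * Nat.sqrt V + 3) := by ring
      omega
    have h2 : W ^ 6 * (V + 1) ≤ (W ^ 3 * (Nat.sqrt V + 2)) ^ 2 := by
      calc W ^ 6 * (V + 1) ≤ W ^ 6 * (Nat.sqrt V + 2) ^ 2 := Nat.mul_le_mul_left _ h1
        _ = (W ^ 3 * (Nat.sqrt V + 2)) ^ 2 := by ring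
    have h3 : 0 < W ^ 3 * (Nat.sqrt V + 2) := by positivity
    nlinarith
  have hbad := bad_gen hW2 hn0 V (fun v => Kr N (φ v)) (fun v => Kr_nonneg _ _)
    (fun v => Kr_le_one _ _) A (η * V) hA0.le (by positivity) 24 P1 (W ^ 3 * (Nat.sqrt V + 2))
    (by norm_num) hP11 hclass hPm
  have hsplit := split_GB W n0 24 V N φ ε hε
  -- sizes
  have z1 : (1 + 3 * (P1 : ℝ)) * (η * V) = A * V / 32 := by
    rw [hη]
    field_simp
  have z2 : 3 * (V : ℝ) / P1 ≤ A * V / 32 := by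
    rw [div_le_div_iff₀ (by linarith) (by norm_num)]
    have h1 : 96 ≤ A * P1 := by
      rw [div_le_iff₀ hA0] at hP1
      linarith
    nlinarith
  have z3 : 3 * (P1 : ℝ) * A ≤ A * V / 32 := by
    have h1 : 96 * (P1 : ℝ) ≤ V := by
      have : 0 ≤ (96 * (W : ℝ) ^ 3 * 3 / A) ^ 2 := by positivity
      linarith
    nlinarith
  have z4 : 3 * (((W ^ 3 * (Nat.sqrt V + 2) : ℕ)) : ℝ) ≤ A * V / 32 := by
    have hs : (Nat.sqrt V : ℝ) ≤ √(V : ℝ) := Real.nat_sqrt_le_real_sqrt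
    have hV1 : (1 : ℝ) ≤ V := by
      have h5 : 0 ≤ (96 * (W : ℝ) ^ 3 * 3 / A) ^ 2 := by positivity
      have h6 : (0 : ℝ) ≤ P1 := Nat.cast_nonneg _
      linarith
    have hs1 : 1 ≤ √(V : ℝ) := Real.one_le_sqrt.2 hV1
    have h1 : ((Nat.sqrt V + 2 : ℕ) : ℝ) ≤ 3 * √(V : ℝ) := by
      push_cast
      linarith
    have h2 : 96 * (W : ℝ) ^ 3 * 3 / A ≤ √(V : ℝ) := by
      apply Real.le_sqrt_of_sq_le
      have h6 : (0 : ℝ) ≤ P1 := Nat.cast_nonneg _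
      linarith
    rw [div_le_iff₀ hA0] at h2
    have h3 : √(V : ℝ) * √(V : ℝ) = V := Real.mul_self_sqrt hV0
    push_cast at h1 ⊢
    have h4 : (W : ℝ) ^ 3 * ((Nat.sqrt V : ℝ) + 2) ≤ (W : ℝ) ^ 3 * (3 * √(V : ℝ)) :=
      mul_le_mul_of_nonneg_left h1 (by positivity)
    have h5 : 96 * (W : ℝ) ^ 3 * 3 * √(V : ℝ) ≤ √(V : ℝ) * A * √(V : ℝ) :=
      mul_le_mul_of_nonneg_right h2 (by linarith)
    have h7 : √(V : ℝ) * A * √(V : ℝ) = A * V := by
      calc √(V : ℝ) * A * √(V : ℝ) = A * (√(V : ℝ) * √(V : ℝ)) := by ring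
        _ = A * V := by rw [h3]
    rw [h7] at h5
    linarith
  have z5 : (V : ℝ) * Real.exp (-(4 * N * ε ^ 2)) ≤ A * V / 8 := by
    have h1 : Real.exp (-(4 * N * ε ^ 2)) ≤ 1 / 8 * A :=
      hN.trans (mul_le_mul_of_nonneg_left hAlow (by norm_num))
    calc (V : ℝ) * Real.exp (-(4 * N * ε ^ 2)) ≤ V * (1 / 8 * A) :=
          mul_le_mul_of_nonneg_left h1 hV0
      _ = A * V / 8 := by ring
  have z6 : 3 * A * V / ((24 : ℕ) : ℝ) = A * V / 8 := by
    push_cast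
    ring
  have z7 : 3 * (P1 : ℝ) * (A + η * V) = 3 * P1 * A + 3 * P1 * (η * V) := by ring
  have z8 : (1 + 3 * (P1 : ℝ)) * (η * V) = η * V + 3 * P1 * (η * V) := by ring
  rw [z6, z7] at hbad
  rw [z8] at z1
  have hAV : 0 ≤ A * V := by positivity
  have : A / 2 * V = A * V / 2 := by ring
  rw [this]
  linarith

theorem bohr {r : ℕ} (f : Fin r → ℝ[X]) (ε : ℝ) (hε : 0 < ε) (M s : ℕ) (hM : 0 < M)
    (hs : Squarefree s) : ∃ c : ℝ, 0 < c ∧ ∃ X₀ : ℝ, ∀ X : ℝ, X₀ ≤ X →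
    c * X ^ (1 / 3 : ℝ) ≤ ({n : ℕ | (n : ℝ) ≤ X ∧ Squarefree n ∧ n ≡ s [MOD M] ∧ Cong n ∧
      ∀ i, ∃ z : ℤ, |(f i).eval (n : ℝ) - (f i).eval (s : ℝ) - z| < ε}.ncard : ℝ) := by
  classical
  obtain ⟨M', W, n0, A, V0, hMM, hM'0, hA, hW0, h2W, hMW, hWp, hn0, hn1, hn2, hcount⟩ :=
    bohr_count f ε hε M s hM
  have hW2 : 2 ≤ W := Nat.le_of_dvd hW0 h2W
  have hWr : (2 : ℝ) ≤ W := by exact_mod_cast hW2
  set K : ℝ := 2 * (W : ℝ) ^ 6 with hK
  have hK0 : 0 < K := by positivity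
  refine ⟨A / (2 * K), by positivity, (K * (V0 + 2)) ^ (3 : ℝ), ?_⟩
  intro X hX
  have hX0 : 0 < X := lt_of_lt_of_le (by positivity) hX
  have hroot : K * (V0 + 2) ≤ X ^ (1 / 3 : ℝ) := by
    calc K * ((V0 : ℝ) + 2) = ((K * (V0 + 2)) ^ (3 : ℝ)) ^ (1 / 3 : ℝ) := by
          rw [← Real.rpow_mul (by positivity)]
          norm_num
      _ ≤ X ^ (1 / 3 : ℝ) := Real.rpow_le_rpow (by positivity) hX (by norm_num)
  set Y := X ^ (1 / 3 : ℝ) with hY
  have hY3 : Y ^ 3 = X := by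
    rw [hY, ← Real.rpow_natCast, ← Real.rpow_mul hX0.le]
    norm_num
  set V := ⌊Y / K⌋₊ with hV
  have hYK : (V0 : ℝ) + 2 ≤ Y / K := by
    rw [le_div_iff₀ hK0]
    linarith
  have hV0 : V0 ≤ V := by
    apply Nat.le_floor
    linarith
  have hV1 : 1 ≤ V := by
    apply Nat.le_floor
    push_cast
    have : (0 : ℝ) ≤ V0 := Nat.cast_nonneg _
    linarith
  have hVle : (V : ℝ) ≤ Y / K := Nat.floor_le (by positivity)
  have hVge : Y / K - 1 < V := by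
    have := Nat.lt_floor_add_one (Y / K)
    linarith
  have h1 := hcount V hV0
  set φ : ℕ → Fin r → ℝ := fun v i => (f i).eval (nn W n0 v : ℝ) - (f i).eval (s : ℝ) with hφ
  have hfin : {n : ℕ | (n : ℝ) ≤ X ∧ Squarefree n ∧ n ≡ s [MOD M] ∧ Cong n ∧
      ∀ i, ∃ z : ℤ, |(f i).eval (n : ℝ) - (f i).eval (s : ℝ) - z| < ε}.Finite := by
    apply (Set.finite_Iic ⌊X⌋₊).subset
    intro n hn
    exact Nat.le_floor hn.1
  have h2 : (GB W n0 24 V φ ε).card ≤ {n : ℕ | (n : ℝ) ≤ X ∧ Squarefree n ∧ n ≡ s [MOD M] ∧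
      Cong n ∧ ∀ i, ∃ z : ℤ, |(f i).eval (n : ℝ) - (f i).eval (s : ℝ) - z| < ε}.ncard := by
    rw [← Set.ncard_coe_finset]
    apply Set.ncard_le_ncard_of_injOn (nn W n0) _ ((nn_inj hW2 hn0).injOn) hfin
    intro v hv
    rw [mem_coe] at hv
    unfold GB at hv
    rw [mem_filter, mem_Icc] at hv
    obtain ⟨⟨hv1, hv2⟩, hv4, hz⟩ := hv
    obtain ⟨s1, s2, -, s4, -⟩ := fam W n0 M' s 24 h2W hW0 hn0 hM'0 hMW hs hn1 hn2 v
      (fun p hp hpW hpy => absurd (hWp p hp hpy) hpW) (by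
      intro p hp hpW hpy
      rw [← Lf_all (fun x => ¬ p ^ 2 ∣ x) v]
      intro i hi
      exact hv4 ⟨p, hp, hpW, hpy, i, hi⟩)
    refine ⟨?_, s1, s2.of_dvd hMM, s4, hz⟩
    have h3 := nn_le hW2 hn0 v
    have h4 : (nn W n0 v : ℝ) ≤ (W : ℝ) ^ 16 * ((v : ℝ) + 1) ^ 3 := by exact_mod_cast h3
    have h5 : (v : ℝ) + 1 ≤ 2 * V := by
      have h6 : (v : ℝ) ≤ V := by exact_mod_cast hv2
      have h7 : (1 : ℝ) ≤ V := by exact_mod_cast hV1
      linarith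
    calc (nn W n0 v : ℝ) ≤ (W : ℝ) ^ 16 * ((v : ℝ) + 1) ^ 3 := h4
      _ ≤ (W : ℝ) ^ 16 * (2 * V) ^ 3 := by gcongr
      _ ≤ (W : ℝ) ^ 18 * (2 * V) ^ 3 := by
          apply mul_le_mul_of_nonneg_right _ (by positivity)
          exact pow_le_pow_right₀ (by linarith) (by norm_num)
      _ = (K * V) ^ 3 := by rw [hK]; ring
      _ ≤ Y ^ 3 := by
          apply pow_le_pow_left₀ (by positivity)
          rw [le_div_iff₀ hK0] at hVle
          linarith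
      _ = X := hY3
  have h3 : ((GB W n0 24 V φ ε).card : ℝ) ≤ ({n : ℕ | (n : ℝ) ≤ X ∧ Squarefree n ∧
      n ≡ s [MOD M] ∧ Cong n ∧
      ∀ i, ∃ z : ℤ, |(f i).eval (n : ℝ) - (f i).eval (s : ℝ) - z| < ε}.ncard : ℝ) := by
    exact_mod_cast h2
  refine le_trans ?_ (h1.trans h3)
  have h4 : Y / (2 * K) ≤ V := by
    have h5 : 2 ≤ Y / K := by
      have : (0 : ℝ) ≤ V0 := Nat.cast_nonneg _
      linarith
    have h6 : Y / (2 * K) = (Y / K) / 2 := by field_simp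
    rw [h6]
    linarith
  calc A / (2 * K) * Y = A * (Y / (2 * K)) := by ring
    _ ≤ A * V := mul_le_mul_of_nonneg_left h4 hA.le

end Pool.Agent.V7H99.CD
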