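import Mathlib
import Pool.Agent.V7H99.CD.B3
import Pool.Agent.V7H99.CD.M4

set_option autoImplicit false

/-! One polynomial with irrational leading coefficient, all large `X`. -/

namespace Pool.Agent.V7H99.CD
open Finset Polynomial Filter

theorem bohr_one (f : ℝ[X]) (hf : 1 ≤ f.natDegree) (hirr : Irrational f.leadingCoeff) (ε : ℝ)
    (hε : 0 < ε) (M m0 : ℕ) (hM : 0 < M) (hm0 : Squarefree m0) : ∃ c : ℝ, 0 < c ∧
    ∃ X₀ : ℝ, ∀ X : ℝ, X₀ ≤ X →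
    c * X ^ (1 / 3 : ℝ) ≤ ({n : ℕ | (n : ℝ) ≤ X ∧ Squarefree n ∧ n ≡ m0 [MOD M] ∧ Cong n ∧
      ∃ z : ℤ, |f.eval (n : ℝ) - z| < ε}.ncard : ℝ) := by
  obtain ⟨R, hR, h⟩ := main_inf f.natDegree hf
  have hR0 : (0 : ℝ) < R := by exact_mod_cast hR
  have hinf := h M m0 hM hm0 f le_rfl hirr
  obtain ⟨B, hB⟩ := exists_nat_ge (max 1 ((2 / ε) ^ (R : ℝ)))
  obtain ⟨s, hs, hsB⟩ := hinf.exists_gt B
  obtain ⟨h1, h2, -, -, ⟨z, h3⟩, -⟩ := hs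
  have hsr : max 1 ((2 / ε) ^ (R : ℝ)) ≤ (s : ℝ) := hB.trans (by exact_mod_cast hsB.le)
  have hs1 : (1 : ℝ) ≤ s := (le_max_left _ _).trans hsr
  have hs0 : (0 : ℝ) < s := by linarith
  have h4 : (s : ℝ) ^ (-(1 / (R : ℝ))) ≤ ε / 2 := by
    have h5 : 2 / ε ≤ (s : ℝ) ^ (1 / (R : ℝ)) := by
      calc 2 / ε = ((2 / ε) ^ (R : ℝ)) ^ (1 / (R : ℝ)) := by
            rw [← Real.rpow_mul (by positivity), mul_one_div_cancel hR0.ne', Real.rpow_one]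
        _ ≤ (s : ℝ) ^ (1 / (R : ℝ)) :=
            Real.rpow_le_rpow (by positivity) ((le_max_right _ _).trans hsr) (by positivity)
    rw [Real.rpow_neg hs0.le]
    calc ((s : ℝ) ^ (1 / (R : ℝ)))⁻¹ ≤ (2 / ε)⁻¹ := inv_anti₀ (by positivity) h5
      _ = ε / 2 := inv_div _ _
  obtain ⟨c, hc, X₀, hX⟩ := bohr (fun _ : Fin 1 => f) (ε / 2) (by positivity) M s hM h1
  refine ⟨c, hc, X₀, fun X hX0 => (hX X hX0).trans ?_⟩
  have hfin : {n : ℕ | (n : ℝ) ≤ X ∧ Squarefree n ∧ n ≡ m0 [MOD M] ∧ Cong n ∧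
      ∃ z : ℤ, |f.eval (n : ℝ) - z| < ε}.Finite := by
    apply (Set.finite_Iic ⌊X⌋₊).subset
    intro n hn
    exact Nat.le_floor hn.1
  have hsub : {n : ℕ | (n : ℝ) ≤ X ∧ Squarefree n ∧ n ≡ s [MOD M] ∧ Cong n ∧
      ∀ i : Fin 1, ∃ z : ℤ, |f.eval (n : ℝ) - f.eval (s : ℝ) - z| < ε / 2} ⊆
      {n : ℕ | (n : ℝ) ≤ X ∧ Squarefree n ∧ n ≡ m0 [MOD M] ∧ Cong n ∧
      ∃ z : ℤ, |f.eval (n : ℝ) - z| < ε} := by
    rintro n ⟨g1, g2, g3, g4, g5⟩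
    obtain ⟨w, hw⟩ := g5 0
    refine ⟨g1, g2, g3.trans h2, g4, w + z, ?_⟩
    have e : f.eval (n : ℝ) - ((w + z : ℤ) : ℝ) =
        (f.eval (n : ℝ) - f.eval (s : ℝ) - w) + (f.eval (s : ℝ) - z) := by
      push_cast
      ring
    rw [e]
    refine lt_of_le_of_lt (abs_add_le _ _) ?_
    linarith
  exact_mod_cast Set.ncard_le_ncard hsub hfin

end Pool.Agent.V7H99.CD
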